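import Pool.Agent.H256R2.SC.Par

set_option autoImplicit false

/-! # Choice of the parameters (copied from `Pool.Agent.H256R2.SC.G1`, helper144, whose module cannot be
imported together with `Pool.Agent.H256R2.SC.Par`) -/

namespace Pool.Agent.N201.SQ.An

open Finset Filter
open Pool.Agent.H256R2.SC (ff)

theorem exists_crt (n : ℕ) (a : ℕ → ℕ) :
    ∃ b0 : ℕ, b0 < primorial n ∧ ∀ p : ℕ, p.Prime → p ≤ n → b0 ≡ a p [MOD p] := by
  have hs : ∀ i ∈ (range (n + 1)).filter Nat.Prime, (id i : ℕ) ≠ 0 := fun i hi =>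
    (mem_filter.1 hi).2.ne_zero
  have pp : Set.Pairwise (((range (n + 1)).filter Nat.Prime : Finset ℕ) : Set ℕ)
      (Function.onFun Nat.Coprime id) := by
    intro i hi j hj hij
    have hi' := (mem_filter.1 (mem_coe.1 hi)).2
    have hj' := (mem_filter.1 (mem_coe.1 hj)).2
    exact (Nat.coprime_primes hi' hj').2 hij
  refine ⟨Nat.chineseRemainderOfFinset a id _ hs pp, ?_, ?_⟩
  · exact Nat.chineseRemainderOfFinset_lt_prod a id hs pp
  · intro p hp hpn
    exact (Nat.chineseRemainderOfFinset a id _ hs pp).2 p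
      (mem_filter.2 ⟨mem_range.2 (by omega), hp⟩)

theorem ev_log (M : ℝ) : ∃ X₀ : ℝ, ∀ X : ℝ, X₀ ≤ X → 1 ≤ X ∧ M ≤ Real.log X ∧
    M ≤ Real.log (Real.log X) ∧ M ≤ Real.log (Real.log (Real.log X)) ∧
    M ≤ Real.log (Real.log (Real.log (Real.log X))) := by
  have t1 := Real.tendsto_log_atTop
  have t2 := t1.comp t1
  have t3 := t1.comp t2
  have t4 := t1.comp t3
  have h := (Filter.eventually_ge_atTop (1 : ℝ)).and ((t1.eventually_ge_atTop M).and
    ((t2.eventually_ge_atTop M).and ((t3.eventually_ge_atTop M).and (t4.eventually_ge_atTop M))))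
  obtain ⟨X₀, hX⟩ := Filter.eventually_atTop.1 h
  exact ⟨X₀, fun X hXX => hX X hXX⟩

theorem half_log {t s : ℝ} (hs : t / 10 ≤ s) (ht : 2 * Real.log 10 ≤ Real.log t) (ht0 : 0 < t) :
    Real.log t / 2 ≤ Real.log s := by
  have h1 : Real.log (t / 10) ≤ Real.log s := Real.log_le_log (by positivity) hs
  rw [Real.log_div ht0.ne' (by norm_num)] at h1
  linarith

theorem log_sq_le {t : ℝ} (ht : 1 ≤ t) : (Real.log t) ^ 2 ≤ 4 * t := by
  have h0 : 0 < t := by linarith
  have h1 : Real.log t = 2 * Real.log (√t) := by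
    rw [Real.log_sqrt h0.le]
    ring
  have h2 : Real.log (√t) ≤ √t - 1 := Real.log_le_sub_one_of_pos (Real.sqrt_pos.2 h0)
  have h3 : 0 ≤ Real.log (√t) := Real.log_nonneg (by rw [Real.one_le_sqrt]; exact ht)
  have h4 : √t ^ 2 = t := Real.sq_sqrt h0.le
  rw [h1]
  nlinarith

theorem log10_lt : Real.log 10 < 2.5 := by
  have h : Real.log 10 = Real.log 2 + Real.log 5 := by
    rw [← Real.log_mul (by norm_num) (by norm_num)]
    norm_num
  have h2 := Real.log_two_lt_d9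
  have h5 : Real.log 5 ≤ Real.log 8 := Real.log_le_log (by norm_num) (by norm_num)
  have h8 : Real.log 8 = 3 * Real.log 2 := by
    rw [show (8 : ℝ) = 2 ^ 3 by norm_num, Real.log_pow]
    norm_num
  -- log 5 = (1/4) log 625 ≤ (1/4) log 640 ..: use 5^3 ≤ 2^7
  have h6 : 3 * Real.log 5 ≤ 7 * Real.log 2 := by
    have e1 : 3 * Real.log 5 = Real.log (5 ^ 3) := by rw [Real.log_pow]; norm_num
    have e2 : 7 * Real.log 2 = Real.log (2 ^ 7) := by rw [Real.log_pow]; norm_num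
    rw [e1, e2]
    exact Real.log_le_log (by norm_num) (by norm_num)
  linarith

/-- all inequalities needed -/
theorem ana {c C y₀ : ℝ} (hc : 0 < c) (hC : 0 < C) : ∃ c' : ℝ, 0 < c' ∧ ∃ X₀ : ℝ, ∀ X : ℝ,
    X₀ ≤ X → ∀ y F : ℝ, y = Real.log X / 10 → F = c' * ff X → ∀ L : ℕ, L = ⌊F⌋₊ →
    1 ≤ X ∧ 0 ≤ Real.log X ∧ y₀ ≤ y ∧ 0 ≤ y ∧ y ≤ L ∧ (L : ℝ) ≤ F ∧
      (L : ℝ) ≤ y * (Real.log y) ^ 2 ∧
      C * L * (Real.log (Real.log y)) ^ 2 /
        ((Real.log y) ^ 2 * Real.log (Real.log (Real.log y))) ≤ c * Real.log X ∧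
      (L : ℝ) ≤ (Real.log X) ^ 2 ∧ y ≤ (Real.log X) ^ 2 ∧
      4 * (primorial ⌊y⌋₊ : ℝ) ≤ X ^ (1 / 2 : ℝ) ∧ 2 ≤ X ^ (1 / 10 : ℝ) ∧
      X ^ (1 / 10 : ℝ) ≤ X / 4 ∧ y ≤ X / 4 ∧ Real.sqrt X ≤ X / 4 ∧
      X / 2 + primorial ⌊y⌋₊ + F ≤ X ∧ 0 ≤ F := by
  refine ⟨c / (8 * C), by positivity, ?_⟩
  set c' : ℝ := c / (8 * C) with hc'
  have hc'0 : 0 < c' := by positivity
  obtain ⟨X₀, hX₀⟩ := ev_log (max (max 100 (40 * c')) (max (10 * y₀) (4 / c')))
  refine ⟨X₀, fun X hX y F hy hF L hL => ?_⟩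
  obtain ⟨hX1, m1, m2, m3, m4⟩ := hX₀ X hX
  set M : ℝ := max (max 100 (40 * c')) (max (10 * y₀) (4 / c')) with hM
  have M1 : 100 ≤ M := (le_max_left _ _).trans (le_max_left _ _)
  have M2 : 40 * c' ≤ M := (le_max_right _ _).trans (le_max_left _ _)
  have M3 : 10 * y₀ ≤ M := (le_max_left _ _).trans (le_max_right _ _)
  have M4 : 4 / c' ≤ M := (le_max_right _ _).trans (le_max_right _ _)
  set l1 := Real.log X with hl1
  set l2 := Real.log l1 with hl2
  set l3 := Real.log l2 with hl3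
  set l4 := Real.log l3 with hl4
  have p1 : 0 < l1 := by linarith
  have p2 : 0 < l2 := by linarith
  have p3 : 0 < l3 := by linarith
  have p4 : 0 < l4 := by linarith
  have hlog10 := log10_lt
  have hXpos : 0 < X := by linarith
  have hXexp : X = Real.exp l1 := (Real.exp_log hXpos).symm
  -- logs of y
  have y1 : l2 / 2 ≤ Real.log y := half_log (by rw [hy]) (by linarith) p1
  have y2 : l3 / 2 ≤ Real.log (Real.log y) := by
    apply half_log _ (by linarith) p2
    linarith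
  have y3 : l4 / 2 ≤ Real.log (Real.log (Real.log y)) := by
    apply half_log _ (by linarith) p3
    linarith
  have hypos : 0 < y := by rw [hy]; positivity
  have hlogy : 0 < Real.log y := by linarith
  have hloglogy : 0 < Real.log (Real.log y) := by linarith
  have hylog : Real.log y ≤ l2 := by
    apply Real.log_le_log hypos
    rw [hy]
    linarith
  have y2' : Real.log (Real.log y) ≤ l3 := Real.log_le_log hlogy hylog
  have hff : ff X = l1 * l2 ^ 2 * l4 / l3 ^ 2 := rfl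
  have q1 : l3 ^ 2 ≤ 4 * l2 := log_sq_le (by linarith)
  have q2 : l2 ^ 2 ≤ 4 * l1 := log_sq_le (by linarith)
  have q3 : l4 ≤ l3 := by
    have := Real.log_le_sub_one_of_pos p3
    linarith
  have hF0 : 0 ≤ F := by
    rw [hF, hff]
    positivity
  have hLF : (L : ℝ) ≤ F := by
    rw [hL]
    exact Nat.floor_le hF0
  have hFL : F - 1 ≤ L := by
    rw [hL]
    have := Nat.lt_floor_add_one F
    linarith
  -- lower bound for F
  have F1 : l1 ≤ F := by
    rw [hF, hff]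
    have h1 : l1 * l2 ^ 2 * l4 / (4 * l2) ≤ l1 * l2 ^ 2 * l4 / l3 ^ 2 := by
      apply div_le_div_of_nonneg_left (by positivity) (by positivity) q1
    have h2 : l1 * l2 ^ 2 * l4 / (4 * l2) = l1 * (l2 * l4) / 4 := by
      field_simp
    have h3 : 4 ≤ c' * M := by
      rw [div_le_iff₀ hc'0] at M4
      linarith
    have h4 : c' * M ≤ c' * l2 := by gcongr
    have h5 : 4 * 1 ≤ (c' * l2) * l4 := by
      apply mul_le_mul (by linarith) (by linarith) (by norm_num) (by positivity)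
    calc l1 = l1 * (4 * 1) / 4 := by ring
      _ ≤ l1 * ((c' * l2) * l4) / 4 := by gcongr
      _ = c' * (l1 * (l2 * l4) / 4) := by ring
      _ ≤ c' * (l1 * l2 ^ 2 * l4 / l3 ^ 2) := by
        rw [← h2]
        gcongr
  -- upper bound for F
  have F2 : F ≤ l1 * l2 ^ 2 / 40 := by
    rw [hF, hff]
    have h1 : l4 / l3 ^ 2 ≤ 1 / M := by
      rw [div_le_div_iff₀ (by positivity) (by linarith)]
      nlinarith
    have h2 : c' * (1 / M) ≤ 1 / 40 := by
      rw [mul_one_div, div_le_div_iff₀ (by linarith) (by norm_num)]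
      linarith
    calc c' * (l1 * l2 ^ 2 * l4 / l3 ^ 2) = l1 * l2 ^ 2 * (c' * (l4 / l3 ^ 2)) := by ring
      _ ≤ l1 * l2 ^ 2 * (c' * (1 / M)) := by gcongr
      _ ≤ l1 * l2 ^ 2 * (1 / 40) := by gcongr
      _ = _ := by ring
  have F3 : F ≤ l1 ^ 2 := by
    refine F2.trans ?_
    nlinarith
  -- powers of X
  have hroot : ∀ a : ℝ, X ^ a = Real.exp (l1 * a) := fun a => Real.rpow_def_of_pos hXpos a
  have hP : (primorial ⌊y⌋₊ : ℝ) ≤ Real.exp (l1 / 5) := by
    have h1 : (primorial ⌊y⌋₊ : ℝ) ≤ 4 ^ ⌊y⌋₊ := by exact_mod_cast primorial_le_four_pow _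
    refine h1.trans ?_
    have h2 : (4 : ℝ) ≤ Real.exp 2 := by
      have := Real.add_one_le_exp (1 : ℝ)
      calc (4 : ℝ) = 2 * 2 := by norm_num
        _ ≤ Real.exp 1 * Real.exp 1 := by gcongr <;> linarith
        _ = Real.exp 2 := by rw [← Real.exp_add]; norm_num
    calc (4 : ℝ) ^ ⌊y⌋₊ ≤ (Real.exp 2) ^ ⌊y⌋₊ := by gcongr
      _ = Real.exp (⌊y⌋₊ * 2) := by rw [← Real.exp_nat_mul]
      _ ≤ Real.exp (l1 / 5) := by
        apply Real.exp_le_exp.2
        have := Nat.floor_le hypos.le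
        linarith
  have e2 : (4 : ℝ) ≤ Real.exp 2 := by
    have := Real.add_one_le_exp (1 : ℝ)
    calc (4 : ℝ) = 2 * 2 := by norm_num
      _ ≤ Real.exp 1 * Real.exp 1 := by gcongr <;> linarith
      _ = Real.exp 2 := by rw [← Real.exp_add]; norm_num
  have hexp4 : ∀ a b : ℝ, a + 2 ≤ b → 4 * Real.exp a ≤ Real.exp b := by
    intro a b hab
    calc 4 * Real.exp a ≤ Real.exp 2 * Real.exp a := by gcongr
      _ = Real.exp (2 + a) := by rw [← Real.exp_add]
      _ ≤ Real.exp b := Real.exp_le_exp.2 (by linarith)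
  have hquad : l1 ^ 2 ≤ X / 8 := by
    -- log X = 4 log X^{1/4}
    have h1 : l1 / 4 ≤ Real.exp (l1 / 4) := by
      have := Real.add_one_le_exp (l1 / 4)
      linarith
    have h2 : (l1 / 4) ^ 2 ≤ Real.exp (l1 / 2) := by
      calc (l1 / 4) ^ 2 ≤ (Real.exp (l1 / 4)) ^ 2 := by gcongr
        _ = Real.exp (l1 / 2) := by
          rw [sq, ← Real.exp_add]
          congr 1
          ring
    have h3 : 128 * Real.exp (l1 / 2) ≤ X := by
      have a1 := hexp4 (l1 / 2) (l1 / 2 + 2) le_rfl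
      have a2 := hexp4 (l1 / 2 + 2) (l1 / 2 + 4) (by linarith)
      have a3 := hexp4 (l1 / 2 + 4) (l1 / 2 + 6) (by linarith)
      have a4 := hexp4 (l1 / 2 + 6) l1 (by linarith)
      rw [← hXexp] at a4
      have a5 := Real.exp_pos (l1 / 2)
      linarith
    nlinarith
  refine ⟨hX1, p1.le, ?_, hypos.le, ?_, hLF, ?_, ?_, ?_, ?_, ?_, ?_, ?_, ?_, ?_, ?_, hF0⟩
  · rw [hy]
    linarith
  · -- y ≤ L
    rw [hy]
    linarith
  · -- L ≤ y (log y)²
    refine hLF.trans (F2.trans ?_)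
    have h1 : (l2 / 2) ^ 2 ≤ (Real.log y) ^ 2 := by gcongr
    calc l1 * l2 ^ 2 / 40 = l1 / 10 * (l2 / 2) ^ 2 := by ring
      _ ≤ l1 / 10 * (Real.log y) ^ 2 := by gcongr
      _ = y * (Real.log y) ^ 2 := by rw [hy]
  · -- number of survivors
    have h1 : C * L * (Real.log (Real.log y)) ^ 2 /
        ((Real.log y) ^ 2 * Real.log (Real.log (Real.log y))) ≤
        C * F * l3 ^ 2 / ((l2 / 2) ^ 2 * (l4 / 2)) := by
      gcongr
    refine h1.trans ?_
    rw [hF, hff]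
    have h2 : C * (c' * (l1 * l2 ^ 2 * l4 / l3 ^ 2)) * l3 ^ 2 / ((l2 / 2) ^ 2 * (l4 / 2)) =
        8 * C * c' * l1 := by
      field_simp
      ring
    rw [h2, hc']
    have h3 : 8 * C * (c / (8 * C)) * l1 = c * l1 := by
      field_simp
    rw [h3]
  · exact hLF.trans F3
  · rw [hy]
    nlinarith
  · calc 4 * (primorial ⌊y⌋₊ : ℝ) ≤ 4 * Real.exp (l1 / 5) := by gcongr
      _ ≤ Real.exp (l1 * (1 / 2)) := hexp4 _ _ (by linarith)
      _ = X ^ (1 / 2 : ℝ) := (hroot _).symm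
  · rw [hroot]
    have h1 : Real.exp 2 ≤ Real.exp (l1 * (1 / 10)) := Real.exp_le_exp.2 (by linarith)
    linarith
  · rw [hroot]
    have h1 := hexp4 (l1 * (1 / 10)) l1 (by linarith)
    rw [← hXexp] at h1
    linarith
  · rw [hy]
    nlinarith
  · have h1 : Real.sqrt X = Real.exp (l1 / 2) := by
      rw [Real.sqrt_eq_rpow, hroot]
      congr 1
      ring
    have h2 := hexp4 (l1 / 2) l1 (by linarith)
    rw [← hXexp] at h2
    rw [h1]
    linarith
  · have h1 := hexp4 (l1 / 5) l1 (by linarith)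
    rw [← hXexp] at h1
    linarith

end Pool.Agent.N201.SQ.An
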