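import Pool.Agent.N201.SQ.Quad
import Pool.Agent.N201.SQ.TL
import Pool.Agent.Cov.SieveF
import Pool.Agent.Helper256.KM.Mertens

set_option autoImplicit false

/-! # The average over `h` of the density of the values of `X² + h` without small prime factors -/

namespace Pool.Agent.N201.SQ

open Polynomial Finset Filter
open Pool.Agent.H378R2.QG (PZ Tc)
open Pool.Agent.H474R2.PG (rho rho_le_self eval_dvd_congr PR)
open Pool.Agent.Helper919 (XX XX_apply XX_abs_le)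

lemma fac_le_one (f : ℤ[X]) (p : ℕ) : 1 - (rho f p : ℝ) / (p : ℝ) ≤ 1 := by
  have : 0 ≤ (rho f p : ℝ) / (p : ℝ) := div_nonneg (Nat.cast_nonneg _) (Nat.cast_nonneg _)
  linarith

lemma fac_nn (f : ℤ[X]) {p : ℕ} (hp : p.Prime) : 0 ≤ 1 - (rho f p : ℝ) / (p : ℝ) :=
  Pool.Agent.N201.SP.fac_nonneg f hp

lemma rho_shift_Qd (s : ℤ × ℤ) {p : ℕ} (hp : p.Prime) : rho (Qd s) p = rho (Qd (0, s.2)) p := by
  have h2 : Qd s = (Qd (0, s.2)).comp (X + C s.1) := by
    simp [Qd]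
  rw [h2, Pool.Agent.N201.SP.rho_comp _ _ hp]

/-- one prime, with real weights -/
lemma one_prime_i {ι : Type} (P : ι → ℤ[X]) (p : ℕ) (hp : p.Prime) (R : Finset ι) (ω : ι → ℝ) :
    ∃ a : ℤ, ∑ i ∈ R with ¬ (p : ℤ) ∣ (P i).eval a, ω i ≤
      ∑ i ∈ R, (1 - (rho (P i) p : ℝ) / (p : ℝ)) * ω i := by
  classical
  have hp0 : (0 : ℝ) < p := by exact_mod_cast hp.pos
  have hsum : ∑ a ∈ Finset.range p, ∑ i ∈ R with ¬ (p : ℤ) ∣ (P i).eval (a : ℤ), ω i =
      ∑ i ∈ R, ((p : ℝ) - rho (P i) p) * ω i := by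
    simp_rw [Finset.sum_filter]
    rw [Finset.sum_comm]
    refine Finset.sum_congr rfl fun f _ => ?_
    rw [← Finset.sum_filter, Finset.sum_const, nsmul_eq_mul]
    congr 1
    have h3 := Finset.card_filter_add_card_filter_not (s := Finset.range p)
      (fun a : ℕ => (p : ℤ) ∣ (P f).eval (a : ℤ))
    rw [Finset.card_range] at h3
    have h4 : (rho (P f) p : ℝ) + (((Finset.range p).filter
        (fun a : ℕ => ¬ (p : ℤ) ∣ (P f).eval (a : ℤ))).card : ℝ) = p := by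
      unfold rho
      exact_mod_cast h3
    linarith
  have hne : (Finset.range p).Nonempty := Finset.nonempty_range_iff.2 hp.ne_zero
  obtain ⟨a, -, ha⟩ := Finset.exists_le_of_sum_le (s := Finset.range p)
    (f := fun a : ℕ => ∑ i ∈ R with ¬ (p : ℤ) ∣ (P i).eval (a : ℤ), ω i)
    (g := fun _ => ∑ i ∈ R, (1 - (rho (P i) p : ℝ) / (p : ℝ)) * ω i) hne (by
      rw [hsum, Finset.sum_const, Finset.card_range, nsmul_eq_mul, Finset.mul_sum]
      apply le_of_eq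
      refine Finset.sum_congr rfl fun f _ => ?_
      field_simp)
  exact ⟨a, ha⟩

lemma choose_i {ι : Type} (P : ι → ℤ[X]) (S : Finset ℕ) (hS : ∀ p ∈ S, p.Prime) (R : Finset ι)
    (ω : ι → ℝ) :
    ∃ a : ℕ → ℤ, ∑ i ∈ R with (∀ p ∈ S, ¬ (p : ℤ) ∣ (P i).eval (a p)), ω i ≤
      ∑ i ∈ R, (∏ p ∈ S, (1 - (rho (P i) p : ℝ) / (p : ℝ))) * ω i := by
  classical
  induction S using Finset.induction_on generalizing R with
  | empty => exact ⟨fun _ => 0, by simp⟩
  | insert p S hpS ih =>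
    have hp := hS p (Finset.mem_insert_self p S)
    have hS' : ∀ q ∈ S, q.Prime := fun q hq => hS q (Finset.mem_insert_of_mem hq)
    obtain ⟨a0, ha0⟩ := one_prime_i P p hp R
      (fun i => (∏ q ∈ S, (1 - (rho (P i) q : ℝ) / (q : ℝ))) * ω i)
    obtain ⟨a, ha⟩ := ih hS' (R.filter (fun i => ¬ (p : ℤ) ∣ (P i).eval a0))
    refine ⟨Function.update a p a0, ?_⟩
    have heq : R.filter (fun i => ∀ q ∈ insert p S,
        ¬ (q : ℤ) ∣ (P i).eval (Function.update a p a0 q)) =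
        (R.filter (fun i => ¬ (p : ℤ) ∣ (P i).eval a0)).filter
          (fun i => ∀ q ∈ S, ¬ (q : ℤ) ∣ (P i).eval (a q)) := by
      rw [Finset.filter_filter]
      refine Finset.filter_congr (fun f _ => ?_)
      rw [Finset.forall_mem_insert, Function.update_self]
      constructor
      · rintro ⟨h1, h2⟩
        refine ⟨h1, fun q hq => ?_⟩
        have := h2 q hq
        rwa [Function.update_of_ne (by rintro rfl; exact hpS hq)] at this
      · rintro ⟨h1, h2⟩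
        refine ⟨h1, fun q hq => ?_⟩
        rw [Function.update_of_ne (by rintro rfl; exact hpS hq)]
        exact h2 q hq
    rw [heq]
    refine ha.trans (ha0.trans (le_of_eq ?_))
    refine Finset.sum_congr rfl fun f _ => ?_
    rw [Finset.prod_insert hpS, mul_assoc]

/-- choice of a class for the small primes, with real weights -/
theorem greedy_i {ι : Type} (P : ι → ℤ[X]) (S : Finset ℕ) (hS : ∀ p ∈ S, p.Prime) (R : Finset ι)
    (ω : ι → ℝ) :
    ∃ r : ℤ, ∑ i ∈ R with (∀ p ∈ S, ¬ (p : ℤ) ∣ (P i).eval r), ω i ≤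
      ∑ i ∈ R, (∏ p ∈ S, (1 - (rho (P i) p : ℝ) / (p : ℝ))) * ω i := by
  classical
  obtain ⟨a, ha⟩ := choose_i P S hS R ω
  obtain ⟨r, hr⟩ := Pool.Agent.H256R2.SC.crt_int S (fun p : ℕ => (p : ℤ))
    (fun i hi j hj hij => by
      rw [Nat.isCoprime_iff_coprime]
      exact (Nat.coprime_primes (hS i hi) (hS j hj)).2 hij) a
  refine ⟨r, le_trans (le_of_eq ?_) ha⟩
  refine Finset.sum_congr ?_ (fun _ _ => rfl)
  refine Finset.filter_congr (fun f _ => ?_)
  refine forall₂_congr (fun p hp => not_congr ?_)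
  exact eval_dvd_congr (P f) p _ _ (hr p hp)

/-- the primes `p` with `p ^ 8 ≤ 2A + 1` -/
noncomputable def QA (A : ℕ) : Finset ℕ := (Finset.range (2 * A + 2)).filter
  (fun p => p.Prime ∧ p ^ 8 ≤ 2 * A + 1)

lemma mem_QA {A p : ℕ} : p ∈ QA A ↔ p.Prime ∧ p ^ 8 ≤ 2 * A + 1 := by
  unfold QA
  rw [Finset.mem_filter, Finset.mem_range]
  constructor
  · exact fun h => h.2
  · intro h
    refine ⟨?_, h⟩
    have : p ≤ p ^ 8 := Nat.le_self_pow (by norm_num) p
    omega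

/-- the average over `h` of the density of the `x` with `x² + h` free of primes `p ≤ A^{1/8}` -/
theorem sieve_avg : ∃ C : ℝ, 0 < C ∧ ∃ A₀ : ℕ, ∀ A : ℕ, A₀ ≤ A →
    ∑ h ∈ Finset.Icc (-(A : ℤ)) A, ∏ p ∈ QA A, (1 - (rho (Qd (0, h)) p : ℝ) / (p : ℝ)) ≤
      C * (A / Real.log A) := by
  classical
  obtain ⟨C, hC, Y₀, hsv⟩ := Pool.Agent.Cov.sieve_general
  refine ⟨6 * C, by positivity, max 2 Y₀, fun A hA => ?_⟩
  have hA2 : 2 ≤ A := (le_max_left _ _).trans hA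
  have hAY : Y₀ ≤ 2 * A + 1 := by
    have := (le_max_right 2 Y₀).trans hA
    omega
  obtain ⟨r, hr⟩ := greedy_i (fun h : ℤ => Qd (0, h)) (QA A) (fun p hp => (mem_QA.1 hp).1)
    (Finset.Icc (-(A : ℤ)) A) (fun _ => -1)
  rw [← Finset.sum_mul] at hr
  rw [Finset.sum_const, nsmul_eq_mul] at hr
  have h1 : ∑ h ∈ Finset.Icc (-(A : ℤ)) A, ∏ p ∈ QA A, (1 - (rho (Qd (0, h)) p : ℝ) / (p : ℝ)) ≤
      (((Finset.Icc (-(A : ℤ)) A).filter
        (fun h => ∀ p ∈ QA A, ¬ (p : ℤ) ∣ (Qd (0, h)).eval r)).card : ℝ) := by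
    linarith
  refine h1.trans ?_
  -- the sieve
  obtain ⟨Th, hTh⟩ : ∃ Th, Th = (Finset.Icc (-(A : ℤ)) A).filter
        (fun h => ∀ p ∈ QA A, ¬ (p : ℤ) ∣ (Qd (0, h)).eval r) := ⟨_, rfl⟩
  rw [← hTh]
  obtain ⟨E, hE⟩ : ∃ E : ℕ → Finset ℕ, E = fun p => {(((A : ℤ) + 1 - r ^ 2) % (p : ℤ)).toNat} :=
    ⟨_, rfl⟩
  have hmod : ∀ p : ℕ, p.Prime →
      (((((A : ℤ) + 1 - r ^ 2) % (p : ℤ)).toNat : ℕ) : ℤ) = ((A : ℤ) + 1 - r ^ 2) % (p : ℤ) := by
    intro p hp
    exact Int.toNat_of_nonneg (Int.emod_nonneg _ (by exact_mod_cast hp.ne_zero))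
  have hSys : Pool.Agent.Cov.Sys 2 E := by
    refine ⟨dvd_rfl, ?_, ?_, ?_⟩
    · intro p hp _
      rw [hE]
      intro x hx
      rw [Finset.mem_singleton] at hx
      rw [hx, Finset.mem_range]
      have h2 := hmod p hp
      have h3 := Int.emod_lt_of_pos ((A : ℤ) + 1 - r ^ 2) (by exact_mod_cast hp.pos : (0:ℤ) < p)
      rw [← h2] at h3
      exact_mod_cast h3
    · intro p _ _
      rw [hE, Finset.card_singleton]
    · intro p _ _
      rw [hE, Finset.card_singleton]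
      norm_num
  obtain ⟨S, hS⟩ : ∃ S : Finset ℕ, S = Th.image (fun h : ℤ => (h + (A : ℤ) + 1).toNat) := ⟨_, rfl⟩
  have hcard : S.card = Th.card := by
    rw [hS]
    apply Finset.card_image_of_injOn
    intro h1 hh1 h2 hh2 he
    rw [Finset.mem_coe, hTh, Finset.mem_filter, Finset.mem_Icc] at hh1 hh2
    simp only at he
    omega
  have h2 := hsv (2 * A + 1) 2 E ∅ hAY (by norm_num) hSys (by simp) S (by
    intro x hx
    rw [hS, Finset.mem_image] at hx
    obtain ⟨h, hh, rfl⟩ := hx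
    rw [hTh, Finset.mem_filter, Finset.mem_Icc] at hh
    rw [Finset.mem_Icc]
    constructor <;> omega) (by
    intro x hx p hp hp8 _ hmem
    rw [hS, Finset.mem_image] at hx
    obtain ⟨h, hh, rfl⟩ := hx
    rw [hTh, Finset.mem_filter, Finset.mem_Icc] at hh
    rw [hE, Finset.mem_singleton] at hmem
    apply hh.2 p (mem_QA.2 ⟨hp, hp8⟩)
    rw [eval_Qd]
    have h3 : (((h + A + 1).toNat : ℕ) : ℤ) = h + A + 1 := Int.toNat_of_nonneg (by omega)
    have h4 : (h + A + 1) % (p : ℤ) = ((A : ℤ) + 1 - r ^ 2) % (p : ℤ) := by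
      rw [← hmod p hp, ← hmem, ← h3]
      push_cast
      rfl
    have h5 : (p : ℤ) ∣ (h + A + 1) - ((A : ℤ) + 1 - r ^ 2) :=
      Int.ModEq.dvd (Int.ModEq.symm h4)
    have e : (h + A + 1) - ((A : ℤ) + 1 - r ^ 2) = (r + 0) ^ 2 + h := by ring
    rwa [e] at h5)
  rw [hcard, Finset.prod_empty, mul_one, Nat.totient_two] at h2
  refine h2.trans ?_
  have hA2R : (2 : ℝ) ≤ A := by exact_mod_cast hA2
  have hlog : 0 < Real.log A := Real.log_pos (by linarith)
  have hlog2 : Real.log A ≤ Real.log ((2 * A + 1 : ℕ) : ℝ) := by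
    apply Real.log_le_log (by linarith)
    push_cast
    linarith
  have h6 : ((2 * A + 1 : ℕ) : ℝ) / Real.log ((2 * A + 1 : ℕ) : ℝ) ≤ 3 * A / Real.log A := by
    apply div_le_div₀ (by positivity) _ hlog hlog2
    push_cast
    linarith
  calc C * (((2 : ℕ) : ℝ) / ((1 : ℕ) : ℝ)) * (((2 * A + 1 : ℕ) : ℝ) / Real.log ((2 * A + 1 : ℕ) : ℝ))
      ≤ C * (((2 : ℕ) : ℝ) / ((1 : ℕ) : ℝ)) * (3 * A / Real.log A) :=
        mul_le_mul_of_nonneg_left h6 (by positivity)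
    _ = 6 * C * (A / Real.log A) := by push_cast; ring

end Pool.Agent.N201.SQ
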