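import Pool.Agent.N201.SQ.Avg

set_option autoImplicit false

/-! # The average cost of the shifts `|h| ≤ A` -/

namespace Pool.Agent.N201.SQ

open Polynomial Finset Filter
open Pool.Agent.H378R2.QG (PZ Tc)
open Pool.Agent.H474R2.PG (rho rho_le_self eval_dvd_congr PR)
open Pool.Agent.Helper919 (XX XX_apply XX_abs_le)

lemma prod_sub_le {s t : Finset ℕ} (h : s ⊆ t) (f : ℕ → ℝ) (h0 : ∀ p ∈ t, 0 ≤ f p)
    (h1 : ∀ p ∈ t, f p ≤ 1) : ∏ p ∈ t, f p ≤ ∏ p ∈ s, f p := by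
  classical
  rw [← Finset.prod_sdiff h]
  have e1 : ∏ p ∈ t \ s, f p ≤ 1 := Finset.prod_le_one
    (fun p hp => h0 p (Finset.mem_sdiff.1 hp).1) (fun p hp => h1 p (Finset.mem_sdiff.1 hp).1)
  have e2 : 0 ≤ ∏ p ∈ s, f p := Finset.prod_nonneg fun p hp => h0 p (h hp)
  calc (∏ p ∈ t \ s, f p) * ∏ p ∈ s, f p ≤ 1 * ∏ p ∈ s, f p := mul_le_mul_of_nonneg_right e1 e2
    _ = _ := one_mul _

lemma PZ_prime {a y : ℝ} {p : ℕ} (h : p ∈ PZ a y) : p.Prime ∧ a < p := by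
  unfold PZ at h
  rw [Finset.mem_filter] at h
  exact h.2

/-- the primes between `A²` and `y` -/
theorem tail_prod : ∃ D₀ : ℝ, 1 ≤ D₀ ∧ ∀ A : ℕ, 2 ≤ A → ∀ y : ℝ, 3 ≤ y → ∀ (h : ℤ) (β : ℝ),
    0 ≤ β → ((A : ℝ) ^ 2 ≤ y → -β ≤ Tc (fun p => XX (-h) p) ((A : ℝ) ^ 2) y) →
    ∏ p ∈ PZ ((A : ℝ) ^ 2) y, (1 - (rho (Qd (0, h)) p : ℝ) / (p : ℝ)) ≤
      D₀ * (2 * Real.log A / Real.log y) * Real.exp β := by
  obtain ⟨CM, hM₀⟩ := Pool.Agent.Helper256.KM.mertens_inv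
  have hCM0 : 0 ≤ CM := (abs_nonneg _).trans (hM₀ 3 le_rfl)
  refine ⟨2 * Real.exp (2 * CM), ?_, fun A hA y hy h β hβ hT => ?_⟩
  · have := Real.add_one_le_exp (2 * CM)
    linarith
  have hA2 : (2 : ℝ) ≤ A := by exact_mod_cast hA
  have hlA : 0 < Real.log A := Real.log_pos (by linarith)
  have hly : 0 < Real.log y := Real.log_pos (by linarith)
  have hprime : ∀ p ∈ PZ ((A : ℝ) ^ 2) y, p.Prime ∧ p ≠ 2 := by
    intro p hp
    have h1 := PZ_prime hp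
    refine ⟨h1.1, ?_⟩
    rintro rfl
    have h2 := h1.2
    push_cast at h2
    nlinarith
  rcases lt_or_ge y ((A : ℝ) ^ 2) with hyA | hyA
  · have h1 : ∏ p ∈ PZ ((A : ℝ) ^ 2) y, (1 - (rho (Qd (0, h)) p : ℝ) / (p : ℝ)) ≤ 1 :=
      Finset.prod_le_one (fun p hp => fac_nn _ (hprime p hp).1) (fun p _ => fac_le_one _ p)
    have h2 : Real.log y ≤ 2 * Real.log A := by
      have := Real.log_le_log (by linarith) hyA.le
      rwa [Real.log_pow, Nat.cast_ofNat] at this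
    have h3 : 1 ≤ 2 * Real.log A / Real.log y := by rw [le_div_iff₀ hly]; linarith
    have h4 : 1 ≤ Real.exp β := Real.one_le_exp hβ
    have h5 : 1 ≤ 2 * Real.exp (2 * CM) := by
      have := Real.add_one_le_exp (2 * CM)
      linarith
    calc _ ≤ (1:ℝ) := h1
      _ = 1 * 1 * 1 := by norm_num
      _ ≤ 2 * Real.exp (2 * CM) * (2 * Real.log A / Real.log y) * Real.exp β := by gcongr
  · have hT' := hT hyA
    -- the product as an exponential
    have h1 : ∏ p ∈ PZ ((A : ℝ) ^ 2) y, (1 - (rho (Qd (0, h)) p : ℝ) / (p : ℝ)) ≤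
        Real.exp (-(∑ p ∈ PZ ((A : ℝ) ^ 2) y, 1 / (p : ℝ)) -
          Tc (fun p => XX (-h) p) ((A : ℝ) ^ 2) y) := by
      have e1 : Real.exp (-(∑ p ∈ PZ ((A : ℝ) ^ 2) y, 1 / (p : ℝ)) -
          Tc (fun p => XX (-h) p) ((A : ℝ) ^ 2) y) =
          ∏ p ∈ PZ ((A : ℝ) ^ 2) y, Real.exp (-((rho (Qd (0, h)) p : ℝ) / (p : ℝ))) := by
        rw [← Real.exp_sum]
        congr 1
        unfold Tc
        rw [← Finset.sum_neg_distrib, ← Finset.sum_sub_distrib]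
        refine Finset.sum_congr rfl fun p hp => ?_
        rw [rho_Qd (0, h) (hprime p hp).1 (hprime p hp).2]
        ring
      rw [e1]
      apply Finset.prod_le_prod
      · intro p hp; exact fac_nn _ (hprime p hp).1
      · intro p _
        have := Real.add_one_le_exp (-((rho (Qd (0, h)) p : ℝ) / (p : ℝ)))
        linarith
    refine h1.trans ?_
    -- Mertens
    have hy3 : 3 ≤ ⌊y⌋₊ := Nat.le_floor (by push_cast; linarith)
    have hA4 : 3 ≤ A ^ 2 := by nlinarith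
    have m1 := (abs_le.1 (hM₀ ⌊y⌋₊ hy3)).1
    have m2 := (abs_le.1 (hM₀ (A ^ 2) hA4)).2
    have m3 : ∑ p ∈ (Finset.Icc 1 ⌊y⌋₊).filter Nat.Prime, (1 : ℝ) / p ≤
        ∑ p ∈ PZ ((A : ℝ) ^ 2) y, 1 / (p : ℝ) +
          ∑ p ∈ (Finset.Icc 1 (A ^ 2)).filter Nat.Prime, (1 : ℝ) / p := by
      rw [← Finset.sum_filter_add_sum_filter_not ((Finset.Icc 1 ⌊y⌋₊).filter Nat.Prime)
        (fun p : ℕ => (A : ℝ) ^ 2 < (p : ℝ))]
      apply add_le_add
      · apply le_of_eq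
        congr 1
        unfold PZ
        rw [Finset.filter_filter]
      · apply Finset.sum_le_sum_of_subset_of_nonneg
        · intro p hp
          rw [Finset.mem_filter, Finset.mem_filter, Finset.mem_Icc] at hp
          rw [Finset.mem_filter, Finset.mem_Icc]
          refine ⟨⟨hp.1.1.1, ?_⟩, hp.1.2⟩
          have := not_lt.1 hp.2
          exact_mod_cast this
        · intro p _ _
          positivity
    have m4 : Real.log (Real.log y) - Real.log 2 ≤ Real.log (Real.log (⌊y⌋₊ : ℝ)) := by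
      rw [← Real.log_div hly.ne' (by norm_num)]
      apply Real.log_le_log (by positivity)
      have h2 : y ≤ (⌊y⌋₊ : ℝ) ^ 2 := by
        have h3 := Nat.lt_floor_add_one y
        have h4 : (3 : ℝ) ≤ (⌊y⌋₊ : ℝ) := by exact_mod_cast hy3
        nlinarith
      have h3 := Real.log_le_log (by linarith) h2
      rw [Real.log_pow, Nat.cast_ofNat] at h3
      linarith
    have m5 : Real.log (Real.log ((A ^ 2 : ℕ) : ℝ)) = Real.log (2 * Real.log A) := by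
      push_cast
      rw [Real.log_pow, Nat.cast_ofNat]
    rw [m5] at m2
    have m6 : -(∑ p ∈ PZ ((A : ℝ) ^ 2) y, 1 / (p : ℝ)) - Tc (fun p => XX (-h) p) ((A : ℝ) ^ 2) y ≤
        2 * CM + Real.log 2 + Real.log (2 * Real.log A) - Real.log (Real.log y) + β := by
      linarith
    refine (Real.exp_le_exp.mpr m6).trans (le_of_eq ?_)
    rw [Real.exp_add, Real.exp_sub, Real.exp_add, Real.exp_add, Real.exp_log (by norm_num),
      Real.exp_log (by positivity), Real.exp_log hly]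
    ring

open Classical in
theorem avg_cost : ∃ C₁ : ℝ, 0 ≤ C₁ ∧ ∃ C₃ : ℝ, 0 < C₃ ∧ ∃ A₀ : ℕ, 2 ≤ A₀ ∧ ∀ A : ℕ, A₀ ≤ A →
    ∃ β : ℤ → ℝ, (∀ h, 0 ≤ β h ∧ β h ≤ C₁ + Real.log A / 20) ∧
    (∀ h : ℤ, |h| ≤ A → ¬ IsSquare (-h) → ∀ y w, (A : ℝ) ^ 2 ≤ y → y ≤ w →
      -(β h) ≤ Tc (fun p => XX (-h) p) y w) ∧
    ∀ y : ℝ, 3 ≤ y → (2 * A + 1 : ℝ) ≤ y ^ 8 →
    ∑ h ∈ (Finset.Icc (-(A : ℤ)) A).filter (fun h => ¬ IsSquare (-h)),
      (∏ p ∈ PR y, (1 - (rho (Qd (0, h)) p : ℝ) / (p : ℝ))) * Real.exp (β h) ≤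
      C₃ * (A / Real.log y) := by
  obtain ⟨C₁, hC₁, L₀, hTL⟩ := T_low
  obtain ⟨D₀, hD₀, htp⟩ := tail_prod
  obtain ⟨Cs, hCs, A₁, hsa⟩ := sieve_avg
  refine ⟨C₁, hC₁, 2 * D₀ * Real.exp (2 * C₁) * (Cs + 5), by positivity,
    max 2 (max A₁ ⌈L₀⌉₊), le_max_left _ _, fun A hA => ?_⟩
  have hA2 : 2 ≤ A := (le_max_left _ _).trans hA
  have hA1 : A₁ ≤ A := ((le_max_left _ _).trans (le_max_right _ _)).trans hA
  have hAL : L₀ ≤ A := by
    have h1 : ⌈L₀⌉₊ ≤ A := ((le_max_right _ _).trans (le_max_right _ _)).trans hA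
    exact (Nat.le_ceil L₀).trans (by exact_mod_cast h1)
  have hA2R : (2 : ℝ) ≤ A := by exact_mod_cast hA2
  have hlA : 0 < Real.log A := Real.log_pos (by linarith)
  obtain ⟨E, hE, hTD⟩ := hTL A hAL
  obtain ⟨β, hβ⟩ : ∃ β : ℤ → ℝ, β = fun h => if -h ∈ E then C₁ + Real.log A / 20 else C₁ := ⟨_, rfl⟩
  have hβd : ∀ h, β h = if -h ∈ E then C₁ + Real.log A / 20 else C₁ := fun h => by rw [hβ]
  have hβ0 : ∀ h, 0 ≤ β h ∧ β h ≤ C₁ + Real.log A / 20 := by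
    intro h
    rw [hβd]
    split_ifs
    · constructor <;> linarith
    · constructor <;> linarith
  have hβT : ∀ h : ℤ, |h| ≤ A → ¬ IsSquare (-h) → ∀ y w, (A : ℝ) ^ 2 ≤ y → y ≤ w →
      -(β h) ≤ Tc (fun p => XX (-h) p) y w := by
    intro h hh hsq y w hy hyw
    have h1 : |((-h : ℤ) : ℝ)| ≤ (A : ℝ) ^ (11 / 10 : ℝ) := by
      push_cast
      rw [abs_neg]
      have h2 : |(h : ℝ)| ≤ A := by exact_mod_cast hh
      refine h2.trans ?_
      conv_lhs => rw [← Real.rpow_one (A : ℝ)]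
      exact Real.rpow_le_rpow_of_exponent_le (by linarith) (by norm_num)
    obtain ⟨t1, t2⟩ := hTD (-h) hsq h1
    rw [hβd]
    split_ifs with hin
    · exact t1 y w hy hyw
    · exact t2 hin y w hy hyw
  refine ⟨β, hβ0, hβT, fun y hy hy8 => ?_⟩
  have hly : 0 < Real.log y := Real.log_pos (by linarith)
  have hy0 : 0 ≤ y := by linarith
  obtain ⟨F, hF⟩ : ∃ F, F = (Finset.Icc (-(A : ℤ)) A).filter (fun h => ¬ IsSquare (-h)) := ⟨_, rfl⟩
  have hFm : ∀ h ∈ F, |h| ≤ (A : ℤ) ∧ ¬ IsSquare (-h) := by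
    intro h hh
    rw [hF, Finset.mem_filter, Finset.mem_Icc] at hh
    exact ⟨abs_le.2 hh.1, hh.2⟩
  rw [← hF]
  obtain ⟨θ, hθ⟩ : ∃ θ, θ = D₀ * (2 * Real.log A / Real.log y) := ⟨_, rfl⟩
  have hθ0 : 0 < θ := by rw [hθ]; positivity
  obtain ⟨π, hπ⟩ : ∃ π : ℤ → ℝ, π = fun h => ∏ p ∈ QA A, (1 - (rho (Qd (0, h)) p : ℝ) / (p : ℝ)) :=
    ⟨_, rfl⟩
  have hπd : ∀ h, π h = ∏ p ∈ QA A, (1 - (rho (Qd (0, h)) p : ℝ) / (p : ℝ)) := fun h => by rw [hπ]
  have hπ0 : ∀ h, 0 ≤ π h := fun h => by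
    rw [hπd]
    exact Finset.prod_nonneg fun p hp => fac_nn _ (mem_QA.1 hp).1
  have hπ1 : ∀ h, π h ≤ 1 := fun h => by
    rw [hπd]
    exact Finset.prod_le_one (fun p hp => fac_nn _ (mem_QA.1 hp).1) (fun p _ => fac_le_one _ p)
  have hPRm : ∀ p, p ∈ PR y ↔ p.Prime ∧ (p : ℝ) ≤ y := by
    intro p
    unfold PR
    rw [Finset.mem_filter, Finset.mem_Icc]
    constructor
    · rintro ⟨⟨h1, h2⟩, h3⟩
      exact ⟨h3, (Nat.le_floor_iff hy0).1 h2⟩
    · rintro ⟨h3, h4⟩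
      exact ⟨⟨h3.one_le, (Nat.le_floor_iff hy0).2 h4⟩, h3⟩
  have hdisj : Disjoint (QA A) (PZ ((A : ℝ) ^ 2) y) := by
    rw [Finset.disjoint_left]
    intro p h1 h2
    have h3 := (mem_QA.1 h1).2
    have h4 := (PZ_prime h2).2
    have h5 : A ^ 2 < p := by exact_mod_cast h4
    have h6 : p ≤ p ^ 8 := Nat.le_self_pow (by norm_num) p
    have h7 : p ^ 2 ≤ p ^ 8 := Nat.pow_le_pow_right (mem_QA.1 h1).1.pos (by norm_num)
    nlinarith
  have hsub : QA A ∪ PZ ((A : ℝ) ^ 2) y ⊆ PR y := by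
    intro p hp
    rw [hPRm]
    rcases Finset.mem_union.1 hp with h1 | h1
    · have h2 := mem_QA.1 h1
      refine ⟨h2.1, ?_⟩
      have h3 : (p : ℝ) ^ 8 ≤ y ^ 8 := by
        refine le_trans ?_ hy8
        exact_mod_cast h2.2
      exact le_of_pow_le_pow_left₀ (by norm_num) hy0 h3
    · unfold PZ at h1
      rw [Finset.mem_filter, Finset.mem_Icc] at h1
      exact ⟨h1.2.1, (Nat.le_floor_iff hy0).1 h1.1.2⟩
  have hterm : ∀ h ∈ F, (∏ p ∈ PR y, (1 - (rho (Qd (0, h)) p : ℝ) / (p : ℝ))) * Real.exp (β h) ≤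
      θ * Real.exp (2 * C₁) * (π h + if -h ∈ E then (A : ℝ) ^ (1 / 10 : ℝ) else 0) := by
    intro h hh
    obtain ⟨h1, h2⟩ := hFm h hh
    have e1 : ∏ p ∈ PR y, (1 - (rho (Qd (0, h)) p : ℝ) / (p : ℝ)) ≤
        π h * (θ * Real.exp (β h)) := by
      have e2 := prod_sub_le hsub (fun p => 1 - (rho (Qd (0, h)) p : ℝ) / (p : ℝ))
        (fun p hp => fac_nn _ ((hPRm p).1 hp).1) (fun p _ => fac_le_one _ p)
      rw [Finset.prod_union hdisj, ← hπd] at e2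
      refine e2.trans ?_
      apply mul_le_mul_of_nonneg_left _ (hπ0 h)
      rw [hθ]
      exact htp A hA2 y hy h (β h) (hβ0 h).1 (fun h3 => hβT h h1 h2 _ _ le_rfl h3)
    have e3 : (∏ p ∈ PR y, (1 - (rho (Qd (0, h)) p : ℝ) / (p : ℝ))) * Real.exp (β h) ≤
        θ * π h * Real.exp (2 * β h) := by
      calc _ ≤ π h * (θ * Real.exp (β h)) * Real.exp (β h) :=
            mul_le_mul_of_nonneg_right e1 (Real.exp_pos _).le
        _ = θ * π h * (Real.exp (β h) * Real.exp (β h)) := by ring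
        _ = θ * π h * Real.exp (2 * β h) := by rw [← Real.exp_add]; congr 2; ring
    refine e3.trans ?_
    rw [hβd]
    split_ifs with hin
    · have e4 : Real.exp (2 * (C₁ + Real.log A / 20)) = Real.exp (2 * C₁) * (A : ℝ) ^ (1 / 10 : ℝ) := by
        rw [Real.rpow_def_of_pos (by linarith), ← Real.exp_add]
        congr 1
        ring
      rw [e4]
      have e5 : 0 ≤ (A : ℝ) ^ (1 / 10 : ℝ) := Real.rpow_nonneg (by linarith) _
      have e6 : π h * (A : ℝ) ^ (1 / 10 : ℝ) ≤ π h + (A : ℝ) ^ (1 / 10 : ℝ) := by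
        have := mul_le_mul_of_nonneg_right (hπ1 h) e5
        linarith [hπ0 h]
      calc θ * π h * (Real.exp (2 * C₁) * (A : ℝ) ^ (1 / 10 : ℝ))
          = θ * Real.exp (2 * C₁) * (π h * (A : ℝ) ^ (1 / 10 : ℝ)) := by ring
        _ ≤ _ := mul_le_mul_of_nonneg_left e6 (by positivity)
    · rw [add_zero]
      apply le_of_eq
      ring
  refine (Finset.sum_le_sum hterm).trans ?_
  rw [← Finset.mul_sum, Finset.sum_add_distrib]
  have s1 : ∑ h ∈ F, π h ≤ Cs * (A / Real.log A) := by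
    refine le_trans ?_ (hsa A hA1)
    rw [hF]
    refine (Finset.sum_le_sum_of_subset_of_nonneg (Finset.filter_subset _ _)
      (fun h _ _ => hπ0 h)).trans (le_of_eq ?_)
    exact Finset.sum_congr rfl fun h _ => hπd h
  have s2 : ∑ h ∈ F, (if -h ∈ E then (A : ℝ) ^ (1 / 10 : ℝ) else 0) ≤ 5 * (A / Real.log A) := by
    rw [← Finset.sum_filter, Finset.sum_const, nsmul_eq_mul]
    have c1 : ((F.filter (fun h => -h ∈ E)).card : ℝ) ≤ (E.card : ℝ) := by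
      have : (F.filter (fun h => -h ∈ E)).card ≤ E.card := by
        apply Finset.card_le_card_of_injOn (fun h => -h)
        · intro k hk
          rw [Finset.mem_coe, Finset.mem_filter] at hk
          exact hk.2
        · intro k _ k' _ hkk
          exact neg_injective hkk
      exact_mod_cast this
    have c2 : ((F.filter (fun h => -h ∈ E)).card : ℝ) * (A : ℝ) ^ (1 / 10 : ℝ) ≤
        (A : ℝ) ^ (7 / 10 : ℝ) * (A : ℝ) ^ (1 / 10 : ℝ) :=
      mul_le_mul_of_nonneg_right (c1.trans hE) (Real.rpow_nonneg (by linarith) _)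
    refine c2.trans ?_
    rw [← mul_div_assoc, le_div_iff₀ hlA]
    have c3 := Real.log_le_rpow_div (x := (A : ℝ)) (ε := 1 / 5) (by linarith) (by norm_num)
    have hApos : (0:ℝ) < A := by linarith
    calc (A : ℝ) ^ (7 / 10 : ℝ) * (A : ℝ) ^ (1 / 10 : ℝ) * Real.log A
        ≤ (A : ℝ) ^ (7 / 10 : ℝ) * (A : ℝ) ^ (1 / 10 : ℝ) * ((A : ℝ) ^ (1 / 5 : ℝ) / (1 / 5)) :=
          mul_le_mul_of_nonneg_left c3 (by positivity)
      _ = 5 * ((A : ℝ) ^ (7 / 10 : ℝ) * (A : ℝ) ^ (1 / 10 : ℝ) * (A : ℝ) ^ (1 / 5 : ℝ)) := by ring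
      _ = 5 * A := by
          rw [← Real.rpow_add hApos, ← Real.rpow_add hApos]
          norm_num
  calc θ * Real.exp (2 * C₁) * (∑ h ∈ F, π h + ∑ h ∈ F, (if -h ∈ E then (A : ℝ) ^ (1 / 10 : ℝ) else 0))
      ≤ θ * Real.exp (2 * C₁) * (Cs * (A / Real.log A) + 5 * (A / Real.log A)) :=
        mul_le_mul_of_nonneg_left (add_le_add s1 s2) (by positivity)
    _ = 2 * D₀ * Real.exp (2 * C₁) * (Cs + 5) * (A / Real.log y) := by
        rw [hθ]
        field_simp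

end Pool.Agent.N201.SQ
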