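import Pool.Agent.H378R2.QG.V
import Pool.Agent.H474R2.PG.Cover

set_option autoImplicit false
set_option linter.unusedSectionVars false

/-! # The covering sieve with one cost for each colour, for a hitting relation

Combination of `Pool.Agent.H378R2.QG.V` (helper378) and `Pool.Agent.H474R2.PG.Cover` (helper474). -/

namespace Pool.Agent.N201.SQ

open Finset Filter
open Pool.Agent.H378R2.QG
open Pool.Agent.H256R2.SC (Col supp qq emb emb_mem emb_surj mem_supp prod_nu1 nu1 Asum ev_facts)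
open Pool.Agent.H474R2.PG (colh colh_eq TT TT_mem TT_prod sT sT_eq event_iff' scales')

open scoped Classical

lemma TT_nu' {κ : Type} [Fintype κ] [DecidableEq κ] [Nonempty κ] (PP : Finset ℕ)
    (g : ℕ → κ → ℝ) (D : Col PP.card κ) :
    ∏ p ∈ TT PP D, g p (sT PP D p) = nu (fun i => g (emb PP i)) D := by
  unfold TT nu
  rw [Finset.prod_map]
  have h1 : ∀ i ∈ supp D, g (emb PP i) (sT PP D (emb PP i)) = nug (g (emb PP i)) (D i) := by
    intro i hi
    obtain ⟨k, hk⟩ := Option.ne_none_iff_exists'.mp (mem_supp.mp hi)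
    rw [sT_eq PP D i k hk, hk]
    rfl
  rw [Finset.prod_congr rfl h1]
  refine Finset.prod_subset (Finset.subset_univ _) fun i _ hi => ?_
  have h2 : D i = none := by
    by_contra h
    exact hi (mem_supp.mpr h)
  rw [h2]
  rfl

theorem num_fin' {L u z N : ℝ} {n J : ℕ} (hL : 1000 ≤ L) (hu0 : 0 ≤ u)
    (hu : u ≤ Real.exp (L / 100)) (hn1 : (n:ℝ) + 1 ≤ z) (hzJ : z ^ J ≤ Real.exp (45 * L / 1000))
    (hN : Real.exp (1 / 2 * L) ≤ N) :
    Real.exp (L / 10) * (9 * (Real.exp (L / 40)) ^ 4 * (1 + u * ((n:ℝ) + 1) ^ J)) < N / 8 := by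
  have hLpos : 0 < L := by linarith
  have hn0 : (0:ℝ) ≤ (n:ℝ) + 1 := add_nonneg (Nat.cast_nonneg n) zero_le_one
  have hnJ0 : (0:ℝ) ≤ ((n:ℝ) + 1) ^ J := pow_nonneg hn0 J
  have h1 : ((n:ℝ) + 1) ^ J ≤ Real.exp (45 * L / 1000) :=
    (pow_le_pow_left₀ hn0 hn1 J).trans hzJ
  have h2 : u * ((n:ℝ) + 1) ^ J ≤ Real.exp (L / 100) * Real.exp (45 * L / 1000) :=
    mul_le_mul hu h1 hnJ0 (Real.exp_pos _).le
  have h3 : (1:ℝ) ≤ Real.exp (55 * L / 1000) := Real.one_le_exp (by positivity)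
  have h4 : 1 + u * ((n:ℝ) + 1) ^ J ≤ 2 * Real.exp (55 * L / 1000) := by
    have : Real.exp (L / 100) * Real.exp (45 * L / 1000) = Real.exp (55 * L / 1000) := by
      rw [← Real.exp_add]; congr 1; ring
    linarith
  have h5 : (Real.exp (L / 40)) ^ 4 = Real.exp (L / 10) := by
    rw [← Real.exp_nat_mul]; congr 1; push_cast; ring
  have h6 : Real.exp (L / 10) * (9 * (Real.exp (L / 40)) ^ 4 * (1 + u * ((n:ℝ) + 1) ^ J)) ≤
      Real.exp (L / 10) * (9 * Real.exp (L / 10) * (2 * Real.exp (55 * L / 1000))) := by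
    rw [h5]
    have h50 : (0:ℝ) ≤ 9 * Real.exp (L / 10) :=
      mul_nonneg (by norm_num) (Real.exp_pos _).le
    exact mul_le_mul_of_nonneg_left (mul_le_mul_of_nonneg_left h4 h50) (Real.exp_pos _).le
  have h7 : Real.exp (L / 10) * (9 * Real.exp (L / 10) * (2 * Real.exp (55 * L / 1000))) =
      18 * Real.exp (255 * L / 1000) := by
    have : Real.exp (L / 10) * Real.exp (L / 10) * Real.exp (55 * L / 1000) =
        Real.exp (255 * L / 1000) := by
      rw [← Real.exp_add, ← Real.exp_add]; congr 1; ring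
    calc _ = 18 * (Real.exp (L / 10) * Real.exp (L / 10) * Real.exp (55 * L / 1000)) := by
          ring
      _ = _ := by rw [this]
  have h8 : 18 * Real.exp (255 * L / 1000) < Real.exp (1 / 2 * L) / 8 := by
    have e1 : Real.exp (1 / 2 * L) = Real.exp (255 * L / 1000) * Real.exp (245 * L / 1000) := by
      rw [← Real.exp_add]; congr 1; ring
    have e2 : (144:ℝ) < Real.exp (245 * L / 1000) := by
      have := Real.add_one_le_exp (245 * L / 1000)
      linarith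
    rw [e1]
    have := Real.exp_pos (255 * L / 1000)
    nlinarith
  have h9 : Real.exp (1 / 2 * L) / 8 ≤ N / 8 := by linarith
  linarith

lemma Hyp_mono {n : ℕ} {p g : Fin n → ℝ} {h : Finset (Fin n) → ℝ} {z K K' : ℝ}
    (H : Hyp p g h z K) (hK : K ≤ K') : Hyp p g h z K' :=
  ⟨H.p1, H.g0, H.z1, H.K0.trans hK, H.h0, H.h1, H.anti, H.supp, H.sum1, H.cost.trans hK⟩

/-- the profile of a colour whose sums over squarefree numbers are at least `lam log x / (b l) - 1` -/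
theorem prof {b L z lam : ℝ} {n : ℕ} (hb : 0 < b) (hL : 1 < L) (hlam : 0 < lam) (hlam1 : lam ≤ 1)
    (hz1 : 1 < z) (P g : Fin n → ℝ) (hP1 : ∀ i, 1 < P i) (hg0 : ∀ i, 0 ≤ g i)
    (hT : L ^ (7 / 10 : ℝ) * (2 * b * Real.log L / lam) ≤ Real.log z)
    (hA : ∀ x, 0 < x → b * Real.log L ≤ Real.log x → x ≤ z →
      lam * (Real.log x / (b * Real.log L)) - 1 ≤ Asum P g x) :
    ∃ h, Hyp P g h z (8 * b / lam) := by
  obtain ⟨l, hl⟩ : ∃ l, l = Real.log L := ⟨_, rfl⟩
  rw [← hl] at hT hA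
  have hl0 : 0 < l := by rw [hl]; exact Real.log_pos hL
  obtain ⟨T, hTd⟩ : ∃ T, T = 2 * b * l / lam := ⟨_, rfl⟩
  rw [← hTd] at hT
  have hT0 : 0 < T := by rw [hTd]; positivity
  have hTb : b * l ≤ T := by
    rw [hTd, le_div_iff₀ hlam]
    have h1 : b * l * lam ≤ b * l * 1 := mul_le_mul_of_nonneg_left hlam1 (by positivity)
    have h2 := mul_pos hb hl0
    linarith
  obtain ⟨m, hm1, hm2, hm3⟩ := scales' T (Real.log z) L hT0 hL hT
  rw [← hl] at hm3
  have h2m : (0:ℝ) < 2 ^ m := by positivity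
  have hlz : 0 < Real.log z := Real.log_pos hz1
  have hz0 : 0 < z := by linarith
  obtain ⟨z₀, hz₀⟩ : ∃ z₀, z₀ = Real.exp (Real.log z / 2 ^ m) := ⟨_, rfl⟩
  have hlz₀ : Real.log z₀ = Real.log z / 2 ^ m := by rw [hz₀, Real.log_exp]
  have hTz : T ≤ Real.log z₀ := by
    rw [hlz₀, le_div_iff₀ h2m]
    linarith
  have hz01 : 1 < z₀ := by rw [hz₀]; exact Real.one_lt_exp_iff.mpr (by positivity)
  have hzz : z₀ ^ (2 ^ m) = z := by
    rw [hz₀, ← Real.exp_nat_mul]
    push_cast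
    rw [mul_div_cancel₀ _ h2m.ne', Real.exp_log hz0]
  obtain ⟨lam', hlam'⟩ : ∃ lam', lam' = lam / (2 * (b * l)) := ⟨_, rfl⟩
  have hbl : 0 < b * l := mul_pos hb hl0
  have hlam'0 : 0 < lam' := by rw [hlam']; positivity
  have hA' : ∀ j < m + 1, 1 ≤ Asum P g (z₀ ^ (2 ^ j)) ∧
      lam' * (2 ^ j * Real.log z₀) ≤ Asum P g (z₀ ^ (2 ^ j)) := by
    intro j hj
    have hxl : Real.log (z₀ ^ (2 ^ j)) = 2 ^ j * Real.log z₀ := by
      rw [Real.log_pow]; push_cast; ring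
    have h2j : (1:ℝ) ≤ 2 ^ j := one_le_pow₀ (by norm_num)
    have hTj : T ≤ 2 ^ j * Real.log z₀ := by nlinarith
    have hxz : z₀ ^ (2 ^ j) ≤ z := by
      rw [← hzz]
      exact pow_le_pow_right₀ hz01.le (Nat.pow_le_pow_right (by norm_num) (by omega))
    have h2 := hA (z₀ ^ (2 ^ j)) (by positivity) (by rw [hxl]; linarith) hxz
    rw [hxl] at h2
    have h3 : 2 ≤ lam * (2 ^ j * Real.log z₀ / (b * l)) := by
      have h4 : T / (b * l) ≤ 2 ^ j * Real.log z₀ / (b * l) :=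
        div_le_div_of_nonneg_right hTj hbl.le
      have h5 : lam * (T / (b * l)) = 2 := by
        rw [hTd]
        field_simp
      calc (2:ℝ) = lam * (T / (b * l)) := h5.symm
        _ ≤ _ := mul_le_mul_of_nonneg_left h4 hlam.le
    refine ⟨by linarith, ?_⟩
    have h6 : lam' * (2 ^ j * Real.log z₀) = lam * (2 ^ j * Real.log z₀ / (b * l)) / 2 := by
      rw [hlam']
      field_simp
    rw [h6]
    linarith
  obtain ⟨h, H⟩ := exists_h P g hP1 hg0 (m + 1) (by omega) z₀ lam' hz01 hlam'0 hA'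
  rw [Nat.add_sub_cancel, hzz] at H
  refine ⟨h, Hyp_mono H ?_⟩
  rw [div_le_div_iff₀ (by positivity) hlam, hlam']
  push_cast
  have h7 : 8 * b * (lam / (2 * (b * l)) * ((m : ℝ) + 1)) = 4 * lam * (((m : ℝ) + 1) / l) := by
    field_simp
    ring
  rw [h7]
  have h8 : 1 ≤ ((m : ℝ) + 1) / l := by rw [le_div_iff₀ hl0]; linarith
  nlinarith

theorem cov_core (B : ℕ) (hB : 2 ≤ B) : ∃ L₀ : ℝ, ∀ L : ℝ, L₀ ≤ L → ∀ z : ℝ, 0 < z →
    L / (2000 * Real.log L) ≤ Real.log z → Real.log z ≤ L / (1000 * Real.log L) →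
    ∀ (κ : Type) [Fintype κ] [DecidableEq κ] [Nonempty κ] (g : ℕ → κ → ℝ) (K : κ → ℝ),
    (∀ p k, 0 ≤ g p k) → (∀ p ∈ PZ (L ^ B) z, ∀ k, g p k ≤ 2 / (p : ℝ)) →
    (∀ k, ∃ h, Hyp (fun i => ((emb (PZ (L ^ B) z) i : ℕ) : ℝ))
      (fun i => g (emb (PZ (L ^ B) z) i) k) h z (K k)) →
    ∑ k, K k ≤ L / 400 → (Fintype.card κ : ℝ) ≤ L / 8 →
    ∀ (hit : ℕ → ℤ → κ → Prop),
    (∀ p ∈ PZ (L ^ B) z, ∀ a k l, hit p a k → hit p a l → k = l) →
    ∀ (𝒜 : Finset ℤ) (N : ℝ), Real.exp (1 / 2 * L) ≤ N →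
    (∀ (T : Finset ℕ) (s : ℕ → κ), (∀ p ∈ T, p ∈ PZ (L ^ B) z) →
      (∏ p ∈ T, (p : ℝ)) ≤ Real.exp (L / 10) →
      |((𝒜.filter (fun a => ∀ p ∈ T, hit p a (s p))).card : ℝ) -
        N * ∏ p ∈ T, g p (s p)| ≤ Real.exp (L / 10)) →
    ∃ a ∈ 𝒜, ∀ k : κ, ∃ p ∈ PZ (L ^ B) z, hit p a k := by
  obtain ⟨CM₀, hM₀⟩ := Pool.Agent.Helper256.KM.mertens_inv
  obtain ⟨L₀, hL₀⟩ := ev_facts 1 (max CM₀ 0)
  refine ⟨L₀, ?_⟩
  intro L hLL z hzpos hlz2 hlz1 κ _ _ _ g K hg0' hg2 hprof hKsum huL hit huniq 𝒜 N hN hcount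
  obtain ⟨f1, f2, f3, f4, f5, f6⟩ := hL₀ L hLL
  have hCM0 : 0 ≤ max CM₀ 0 := le_max_right _ _
  obtain ⟨l, hl⟩ : ∃ l, l = Real.log L := ⟨_, rfl⟩
  rw [← hl] at f1 f2 f3 f6 hlz1 hlz2
  have hl0 : 0 < l := by linarith
  have hLpos : 0 < L := by linarith
  have hLexp : L = Real.exp l := by rw [hl]; exact (Real.exp_log hLpos).symm
  have hll : l ≤ L / (2000 * l) := by
    rw [le_div_iff₀ (by positivity)]
    have h1 : L ^ (3 / 10 : ℝ) ≤ L := by
      conv_rhs => rw [← Real.rpow_one L]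
      exact Real.rpow_le_rpow_of_exponent_le (by linarith) (by norm_num)
    nlinarith
  have hlzl : l ≤ Real.log z := hll.trans hlz2
  have hlzpos : 0 < Real.log z := by linarith
  have hzexp : z = Real.exp (Real.log z) := (Real.exp_log hzpos).symm
  have hz1 : 1 < z := by rw [hzexp]; exact Real.one_lt_exp_iff.mpr hlzpos
  have hlzL : Real.log z ≤ L / 10000 := by
    refine hlz1.trans ?_
    apply div_le_div_of_nonneg_left hLpos.le (by norm_num)
    linarith
  have hz3 : 3 ≤ z := by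
    rw [hzexp]
    have := Real.add_one_le_exp (Real.log z)
    linarith
  -- the sieving primes
  obtain ⟨PP, hPP⟩ : ∃ PP, PP = PZ (L ^ B) z := ⟨_, rfl⟩
  rw [← hPP] at hg2 hprof huniq hcount ⊢
  have hLB : L ^ 2 ≤ L ^ B := pow_le_pow_right₀ (by linarith) hB
  have hPPmem : ∀ p ∈ PP, p.Prime ∧ L ^ 2 < (p:ℝ) ∧ (p:ℝ) ≤ z := by
    intro p hp
    rw [hPP] at hp
    unfold PZ at hp
    rw [Finset.mem_filter, Finset.mem_Icc] at hp
    refine ⟨hp.2.1, lt_of_le_of_lt hLB hp.2.2, ?_⟩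
    calc (p:ℝ) ≤ (⌊z⌋₊ : ℝ) := by exact_mod_cast hp.1.2
      _ ≤ z := Nat.floor_le hzpos.le
  have hn1 : (PP.card:ℝ) + 1 ≤ z := by
    have h1 : PP ⊆ Finset.Icc 2 ⌊z⌋₊ := by
      intro p hp
      have hp' := hp
      rw [hPP] at hp'
      unfold PZ at hp'
      rw [Finset.mem_filter, Finset.mem_Icc] at hp'
      rw [Finset.mem_Icc]
      exact ⟨hp'.2.1.two_le, hp'.1.2⟩
    have h2 := Finset.card_le_card h1
    rw [Nat.card_Icc] at h2
    have h3 : 1 ≤ ⌊z⌋₊ := Nat.le_floor (by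
      push_cast
      exact hz1.le)
    have h4 : PP.card + 1 ≤ ⌊z⌋₊ := by omega
    calc (PP.card:ℝ) + 1 ≤ (⌊z⌋₊ : ℝ) := by exact_mod_cast h4
      _ ≤ z := Nat.floor_le hzpos.le
  obtain ⟨g', hg'⟩ : ∃ g' : Fin PP.card → κ → ℝ, g' = fun i => g (emb PP i) := ⟨_, rfl⟩
  have hg'i : ∀ i k, g' i k = g (emb PP i) k := fun i k => by rw [hg']
  have hPy : ∀ i : Fin PP.card, L ^ 2 < ((emb PP i : ℕ) : ℝ) :=
    fun i => (hPPmem _ (emb_mem PP i)).2.1
  have hPz : ∀ i : Fin PP.card, ((emb PP i : ℕ) : ℝ) ≤ z := fun i => (hPPmem _ (emb_mem PP i)).2.2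
  have hL2 : 1000000 ≤ L ^ 2 := by nlinarith
  have hP1 : ∀ i : Fin PP.card, 1 < ((emb PP i : ℕ) : ℝ) := fun i => by linarith [hPy i]
  have hP0 : ∀ i : Fin PP.card, 0 < ((emb PP i : ℕ) : ℝ) := fun i => by linarith [hPy i]
  have hg0 : ∀ (i : Fin PP.card) (k : κ), 0 ≤ g' i k := fun i k => by
    rw [hg'i]
    exact hg0' _ _
  have hgP : ∀ (i : Fin PP.card) (k : κ), g' i k ≤ 2 / ((emb PP i : ℕ) : ℝ) := fun i k => by
    rw [hg'i]
    exact hg2 _ (emb_mem PP i) k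
  have hgy : ∀ (i : Fin PP.card) (k : κ), g' i k ≤ 2 / L ^ 2 := fun i k => by
    refine (hgP i k).trans ?_
    exact div_le_div_of_nonneg_left (by norm_num) (by linarith) (hPy i).le
  choose h H using hprof
  have H' : ∀ k, Hyp (fun i => ((emb PP i : ℕ) : ℝ)) (fun i => g' i k) (h k) z (K k) := by
    intro k
    rw [hg']
    exact H k
  obtain ⟨u, hu⟩ : ∃ u, u = (Fintype.card κ : ℝ) := ⟨_, rfl⟩
  have hu0 : 0 ≤ u := by rw [hu]; exact Nat.cast_nonneg _
  rw [← hu] at huL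
  -- the sum of the densities
  have hmax : 20 * max CM₀ 0 ≤ l := f2
  have hsumP : ∑ i : Fin PP.card, 1 / ((emb PP i : ℕ) : ℝ) ≤ l + max CM₀ 0 := by
    have h1 : ∑ i : Fin PP.card, 1 / ((emb PP i : ℕ) : ℝ) = ∑ p ∈ PP, 1 / (p:ℝ) := by
      have : PP = univ.map (emb PP) := by
        ext p
        rw [Finset.mem_map]
        constructor
        · intro hp
          obtain ⟨i, hi⟩ := emb_surj PP hp
          exact ⟨i, Finset.mem_univ _, hi⟩
        · rintro ⟨i, _, rfl⟩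
          exact emb_mem PP i
      conv_rhs => rw [this]
      rw [Finset.sum_map]
    rw [h1, hPP, hl]
    exact sum_inv_PZ hM₀ hz3 (by linarith)
  have hGk : ∀ k : κ, ∑ i, g' i k ≤ 2 * (l + max CM₀ 0) := by
    intro k
    calc ∑ i, g' i k ≤ ∑ i : Fin PP.card, 2 * (1 / ((emb PP i : ℕ) : ℝ)) := by
          apply Finset.sum_le_sum
          intro i _
          have := hgP i k
          have e : 2 * (1 / ((emb PP i : ℕ) : ℝ)) = 2 / ((emb PP i : ℕ) : ℝ) := by ring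
          rw [e]
          exact this
      _ = 2 * ∑ i : Fin PP.card, 1 / ((emb PP i : ℕ) : ℝ) := by rw [Finset.mul_sum]
      _ ≤ 2 * (l + max CM₀ 0) := by linarith
  -- parameters
  obtain ⟨J, hJ⟩ : ∃ J : ℕ, J = 2 * ⌈22 * l⌉₊ := ⟨_, rfl⟩
  have hJ1 : 44 * l ≤ (J:ℝ) := by
    have := Nat.le_ceil (22 * l)
    rw [hJ]; push_cast; linarith
  have hJ2 : (J:ℝ) ≤ 45 * l := by
    have := Nat.ceil_lt_add_one (show 0 ≤ 22 * l by positivity)
    rw [hJ]; push_cast; linarith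
  have hJe : Even J := ⟨⌈22 * l⌉₊, by rw [hJ]; ring⟩
  have hQ1 : 1 ≤ Real.exp (L / 40) := Real.one_le_exp (by positivity)
  have hzJ : z ^ J ≤ Real.exp (45 * L / 1000) := by
    rw [hzexp, ← Real.exp_nat_mul]
    apply Real.exp_le_exp.mpr
    calc (J:ℝ) * Real.log z ≤ (45 * l) * (L / (1000 * l)) :=
          mul_le_mul hJ2 hlz1 hlzpos.le (by positivity)
      _ = 45 * L / 1000 := by field_simp
  -- sizes of supports
  have hL1 : 1 ≤ L := by linarith
  have hδ : ∀ D : Col PP.card κ, qq (fun i => ((emb PP i : ℕ) : ℝ)) D ≤ Real.exp (L / 40) →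
      ∀ k, 2 * ∑ i with D i ≠ none, g' i k ≤ 2 / L := by
    intro D hD k
    have h1 : ∑ i with D i ≠ none, g' i k ≤ (supp D).card * (2 / L ^ 2) := by
      have : ∑ i ∈ supp D, g' i k ≤ ∑ i ∈ supp D, (2 / L ^ 2) :=
        Finset.sum_le_sum (fun i _ => hgy i k)
      rw [Finset.sum_const, nsmul_eq_mul] at this
      exact this
    have h2 := supp_card_le (fun i => ((emb PP i : ℕ) : ℝ)) hLexp hL1 hPy D (L / 40) hD
    have h2' : ((supp D).card : ℝ) ≤ L / 40 := by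
      have h2 : 0 ≤ ((supp D).card : ℝ) := Nat.cast_nonneg _
      nlinarith
    have h3 : ((supp D).card : ℝ) * (2 / L ^ 2) ≤ L / 40 * (2 / L ^ 2) :=
      mul_le_mul_of_nonneg_right h2' (by positivity)
    have h4 : L / 40 * (2 / L ^ 2) = 1 / (20 * L) := by field_simp; norm_num
    have h5 : 1 / (20 * L) ≤ 1 / L := by
      apply one_div_le_one_div_of_le hLpos
      linarith
    have h6 : 2 / L = 2 * (1 / L) := by ring
    rw [h6]
    linarith
  -- the count
  have hevent : ∀ D : Col PP.card κ,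
      qq (fun i => ((emb PP i : ℕ) : ℝ)) D ≤ Real.exp (L / 40) ^ 2 * z ^ J →
      |((𝒜.filter (fun a => ∀ i, D i ≠ none → colh PP hit a i = D i)).card : ℝ) -
        N * nu g' D| ≤ Real.exp (L / 10) := by
    intro D hD
    have hD1 : qq (fun i => ((emb PP i : ℕ) : ℝ)) D ≤ Real.exp (L / 10) := by
      refine hD.trans ?_
      calc Real.exp (L / 40) ^ 2 * z ^ J ≤ Real.exp (L / 40) ^ 2 * Real.exp (45 * L / 1000) :=
            mul_le_mul_of_nonneg_left hzJ (by positivity)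
        _ = Real.exp (L / 20 + 45 * L / 1000) := by
            rw [← Real.exp_nat_mul, ← Real.exp_add]
            congr 1
            push_cast
            ring
        _ ≤ Real.exp (L / 10) := Real.exp_le_exp.mpr (by linarith)
    have h1 : (𝒜.filter (fun a => ∀ i, D i ≠ none → colh PP hit a i = D i)) =
        𝒜.filter (fun a => ∀ p ∈ TT PP D, hit p a (sT PP D p)) := by
      apply Finset.filter_congr
      intro a _
      exact event_iff' huniq D a
    rw [h1]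
    have h2 : ∏ p ∈ TT PP D, g p (sT PP D p) = nu g' D := by
      rw [hg']
      exact TT_nu' PP g D
    rw [← h2]
    apply hcount (TT PP D) (sT PP D) (fun p hp => TT_mem hp)
    rw [TT_prod]
    exact hD1
  have hNpos : 0 < N := lt_of_lt_of_le (Real.exp_pos _) hN
  -- apply the core theorem
  obtain ⟨a, ha, hcov⟩ := core (κ := κ) 𝒜 (colh PP hit) H' (Real.exp (L / 40)) (2 / L) 3 N
    (Real.exp (L / 10)) (2 * (l + max CM₀ 0)) J
    hJe (by norm_num) hNpos (Real.exp_pos _).le hQ1 hz1 (fun i => (hP1 i).le) hg0 hPz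
    (fun i k => by
      have h1 : (2:ℝ) / L ^ 2 ≤ 1 := by rw [div_le_one (by linarith)]; linarith
      exact (hgy i k).trans h1)
    (fun i k => by
      have h1 : (2:ℝ) / L ^ 2 ≤ 1 / 9 := by
        rw [div_le_div_iff₀ (by linarith) (by norm_num)]
        linarith
      have := hgy i k
      linarith)
    (fun i => by
      have h0 : ∑ k, g' i k ≤ ∑ k : κ, 2 / L ^ 2 := Finset.sum_le_sum (fun k _ => hgy i k)
      rw [Finset.sum_const, Finset.card_univ, nsmul_eq_mul, ← hu] at h0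
      have h1 : u * (2 / L ^ 2) ≤ (L / 8) * (2 / L ^ 2) :=
        mul_le_mul_of_nonneg_right huL (by positivity)
      have h2 : (L / 8) * (2 / L ^ 2) = 1 / (4 * L) := by field_simp; norm_num
      have h3 : 1 / (4 * L) ≤ 1 := by rw [div_le_one (by positivity)]; linarith
      linarith)
    (by positivity) hGk hδ
    (by
      rw [← hu]
      have : u * (2 / L) ≤ (L / 8) * (2 / L) := mul_le_mul_of_nonneg_right huL (by positivity)
      have e : (L / 8) * (2 / L) = 1 / 4 := by field_simp; norm_num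
      linarith)
    (by
      rw [← hu]
      have h1 : ∑ i : Fin PP.card, 1 / ((emb PP i : ℕ) : ℝ) ^ 2 ≤
          (1 / L ^ 2) * ∑ i : Fin PP.card, 1 / ((emb PP i : ℕ) : ℝ) := by
        rw [Finset.mul_sum]
        apply Finset.sum_le_sum
        intro i _
        have e1 : 1 / ((emb PP i : ℕ) : ℝ) ^ 2 =
            (1 / ((emb PP i : ℕ) : ℝ)) * (1 / ((emb PP i : ℕ) : ℝ)) := by
          have := (hP0 i).ne'
          field_simp
        rw [e1]
        apply mul_le_mul_of_nonneg_right _ (one_div_nonneg.mpr (hP0 i).le)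
        exact one_div_le_one_div_of_le (by linarith) (hPy i).le
      have h2 : (1 / L ^ 2) * ∑ i : Fin PP.card, 1 / ((emb PP i : ℕ) : ℝ) ≤ (1 / L ^ 2) * (2 * L) := by
        apply mul_le_mul_of_nonneg_left _ (by positivity)
        linarith
      have h3 : (1 / L ^ 2) * (2 * L) = 2 / L := by field_simp
      have h4 : 2 * u * ∑ i : Fin PP.card, 1 / ((emb PP i : ℕ) : ℝ) ^ 2 ≤ 2 * (L / 8) * (2 / L) := by
        apply mul_le_mul _ (by linarith) (Finset.sum_nonneg (fun i _ => by positivity))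
          (by positivity)
        linarith
      have e : 2 * (L / 8) * (2 / L) = 1 / 2 := by field_simp; norm_num
      linarith)
    (by
      rw [← hu]
      exact num_tail hLexp f1 f5 hu0 huL hzpos hlzpos hlz1 hlz2 hKsum)
    (by
      rw [← hu]
      exact num_mom hLexp f1 f5 hu0 huL hJ1 (by linarith))
    hevent
    (by
      rw [← hu]
      exact num_fin' f5 hu0 (by linarith) hn1 hzJ hN)
  refine ⟨a, ha, fun k => ?_⟩
  obtain ⟨i, hi⟩ := hcov k
  exact ⟨emb PP i, emb_mem PP i, (colh_eq huniq a i k).mp hi⟩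

end Pool.Agent.N201.SQ
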