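import Pool.Agent.N201.SP.Base
import Pool.Agent.Helper919.Char

set_option autoImplicit false

/-! # The polynomials `(X + k)² + h` -/

namespace Pool.Agent.N201.SQ

open Polynomial Finset
open Pool.Agent.H474R2.PG (rho)
open Pool.Agent.Helper919 (XX XX_apply XX_abs_le)

/-- the polynomial `(X + k)² + h` -/
noncomputable def Qd (s : ℤ × ℤ) : ℤ[X] := (X + C s.1) ^ 2 + C s.2

lemma eval_Qd (s : ℤ × ℤ) (a : ℤ) : (Qd s).eval a = (a + s.1) ^ 2 + s.2 := by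
  simp [Qd]

lemma rho_Qd (s : ℤ × ℤ) {p : ℕ} (hp : p.Prime) (hp2 : p ≠ 2) :
    (rho (Qd s) p : ℝ) = 1 + XX (-s.2) p := by
  have : Fact p.Prime := ⟨hp⟩
  have hX : XX (-s.2) p = ((legendreSym p (-s.2) : ℤ) : ℝ) := by
    rw [XX_apply, if_pos (hp.odd_of_ne_two hp2), jacobiSym.legendreSym.to_jacobiSym]
  have h1 := legendreSym.card_sqrts p hp2 (-s.2)
  have h2 : Qd s = ((X : ℤ[X]) ^ 2 + C s.2).comp (X + C s.1) := by
    simp [Qd]
  have h3 : rho (Qd s) p = rho ((X : ℤ[X]) ^ 2 + C s.2) p := by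
    rw [h2, Pool.Agent.N201.SP.rho_comp _ _ hp]
  have h4 : rho ((X : ℤ[X]) ^ 2 + C s.2) p =
      ({x : ZMod p | x ^ 2 = ((-s.2 : ℤ) : ZMod p)}.toFinset).card := by
    unfold rho
    refine Finset.card_bij (fun a _ => (a : ZMod p)) ?_ ?_ ?_
    · intro a ha
      rw [Finset.mem_filter] at ha
      have h5 := (ZMod.intCast_zmod_eq_zero_iff_dvd _ p).2 ha.2
      rw [Set.mem_toFinset, Set.mem_setOf_eq]
      simp only [eval_add, eval_pow, eval_X, eval_C] at h5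
      push_cast at h5 ⊢
      linear_combination h5
    · intro a ha a' ha' h
      rw [Finset.mem_filter, Finset.mem_range] at ha ha'
      have h5 := (ZMod.natCast_eq_natCast_iff' a a' p).1 h
      rwa [Nat.mod_eq_of_lt ha.1, Nat.mod_eq_of_lt ha'.1] at h5
    · intro x hx
      rw [Set.mem_toFinset, Set.mem_setOf_eq] at hx
      refine ⟨x.val, ?_, ZMod.natCast_zmod_val x⟩
      rw [Finset.mem_filter, Finset.mem_range]
      refine ⟨ZMod.val_lt x, ?_⟩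
      rw [← ZMod.intCast_zmod_eq_zero_iff_dvd]
      simp only [eval_add, eval_pow, eval_X, eval_C]
      push_cast at hx ⊢
      rw [ZMod.natCast_zmod_val, hx]
      ring
  rw [h3, h4, hX]
  have h6 := congrArg (fun z : ℤ => (z : ℝ)) h1
  simp only [Int.cast_natCast, Int.cast_add, Int.cast_one] at h6
  rw [h6]
  ring

lemma rho_Qd_le (s : ℤ × ℤ) {p : ℕ} (hp : p.Prime) (hp2 : p ≠ 2) : (rho (Qd s) p : ℝ) ≤ 2 := by
  rw [rho_Qd s hp hp2]
  have := (abs_le.mp (XX_abs_le (-s.2) p)).2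
  linarith

/-- different colours are not hit by the same large prime -/
theorem coll {p : ℕ} {k k' h h' x : ℤ} (hsq : ¬ IsSquare (-h))
    (h1 : (p : ℤ) ∣ (x + k) ^ 2 + h) (h2 : (p : ℤ) ∣ (x + k') ^ 2 + h')
    (hbig : |(((k' - k) ^ 2 + h' - h) ^ 2 + 4 * (k' - k) ^ 2 * h)| < (p : ℤ)) : k = k' ∧ h = h' := by
  have hd : (p : ℤ) ∣ (((k' - k) ^ 2 + h' - h) ^ 2 + 4 * (k' - k) ^ 2 * h) := by
    have h3 := dvd_sub h2 h1
    have h4 := dvd_add (h3.mul_right (((x + k') ^ 2 + h' - ((x + k) ^ 2 + h)) -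
      4 * (x + k) * (k' - k))) (h1.mul_left (4 * (k' - k) ^ 2))
    have e : ((x + k') ^ 2 + h' - ((x + k) ^ 2 + h)) * (((x + k') ^ 2 + h' - ((x + k) ^ 2 + h)) -
      4 * (x + k) * (k' - k)) + 4 * (k' - k) ^ 2 * ((x + k) ^ 2 + h) =
      (((k' - k) ^ 2 + h' - h) ^ 2 + 4 * (k' - k) ^ 2 * h) := by ring
    rwa [e] at h4
  have h0 := Int.eq_zero_of_abs_lt_dvd hd hbig
  rcases eq_or_ne k' k with hk | hk
  · rw [hk] at h0
    refine ⟨hk.symm, ?_⟩
    have h5 : (h' - h) ^ 2 = 0 := by linear_combination h0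
    have h6 := pow_eq_zero_iff (two_ne_zero) |>.1 h5
    linarith
  · exfalso
    apply hsq
    have ht : (2 * (k' - k)) ≠ 0 := by
      intro h5
      apply hk
      linarith
    have h5 : (2 * (k' - k)) ^ 2 * (-h) = ((k' - k) ^ 2 + h' - h) ^ 2 := by linear_combination -h0
    have h6 : (2 * (k' - k)) ^ 2 ∣ ((k' - k) ^ 2 + h' - h) ^ 2 := ⟨-h, h5.symm⟩
    have h7 : 2 * (k' - k) ∣ (k' - k) ^ 2 + h' - h := (Int.pow_dvd_pow_iff two_ne_zero).1 h6
    obtain ⟨m, hm⟩ := h7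
    refine ⟨m, ?_⟩
    rw [hm] at h5
    have h8 : (2 * (k' - k)) ^ 2 * (-h) = (2 * (k' - k)) ^ 2 * (m * m) := by
      rw [h5]; ring
    exact mul_left_cancel₀ (pow_ne_zero 2 ht) h8

end Pool.Agent.N201.SQ
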