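import Pool.Agent.N201.SQ.Cov
import Pool.Agent.N201.SQ.Quad

set_option autoImplicit false
set_option linter.unusedSectionVars false

/-! # The covering theorem for the polynomials `(X + k)² + h`, with one cost for each colour -/

namespace Pool.Agent.N201.SQ

open Finset Filter Polynomial
open Pool.Agent.H378R2.QG
open Pool.Agent.H256R2.SC (emb emb_mem Asum)
open Pool.Agent.H474R2.PG (rho)
open Pool.Agent.Helper919 (XX XX_apply XX_abs_le)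

open scoped Classical

lemma ev_cov (B c₂ C₀ : ℝ) (hB : 0 < B) (hc₂ : 0 < c₂) : ∃ L₀ : ℝ, ∀ L : ℝ, L₀ ≤ L →
    1000 ≤ L ∧ 10 ≤ Real.log L ∧
    L ^ (7 / 10 : ℝ) * (2 * B * Real.log L / (c₂ * Real.exp (-(C₀ + Real.log L / 10)))) ≤
      L / (1500 * Real.log L) := by
  have h1 := (isLittleO_pow_exp_pos_mul_atTop (k := 2) (b := (1 / 10 : ℝ)) (by norm_num)).def
    (show (0:ℝ) < c₂ * Real.exp (-C₀) / (3000 * B) by positivity)
  have key : ∀ᶠ l : ℝ in atTop, 3000 * B * l ^ 2 ≤ c₂ * Real.exp (-C₀) * Real.exp (1 / 10 * l) ∧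
      10 ≤ l := by
    filter_upwards [h1, eventually_ge_atTop (10:ℝ)] with l h2 h4
    rw [Real.norm_eq_abs, Real.norm_eq_abs, abs_of_nonneg (Real.exp_pos _).le,
      abs_of_nonneg (by positivity)] at h2
    refine ⟨?_, h4⟩
    have h3 : c₂ * Real.exp (-C₀) / (3000 * B) * Real.exp (1 / 10 * l) =
        c₂ * Real.exp (-C₀) * Real.exp (1 / 10 * l) / (3000 * B) := by ring
    rw [h3, le_div_iff₀ (by positivity)] at h2
    linarith
  obtain ⟨L₀, hL₀⟩ := Filter.eventually_atTop.mp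
    ((Real.tendsto_log_atTop.eventually key).and (eventually_ge_atTop (1000:ℝ)))
  refine ⟨L₀, fun L hL => ?_⟩
  obtain ⟨⟨e1, e2⟩, e4⟩ := hL₀ L hL
  refine ⟨e4, e2, ?_⟩
  obtain ⟨l, hl⟩ : ∃ l, l = Real.log L := ⟨_, rfl⟩
  rw [← hl] at e1 e2 ⊢
  have hL0 : 0 < L := by linarith
  have hLe : L = Real.exp l := by rw [hl]; exact (Real.exp_log hL0).symm
  have hr : L ^ (7 / 10 : ℝ) = Real.exp (7 / 10 * l) := by
    rw [Real.rpow_def_of_pos hL0, ← hl, mul_comm]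
  have hexp : Real.exp (-(C₀ + l / 10)) = Real.exp (-C₀) * Real.exp (-(l / 10)) := by
    rw [← Real.exp_add]; congr 1; ring
  rw [hr, hexp]
  have hl0 : 0 < l := by linarith
  rw [← mul_div_assoc, div_le_div_iff₀ (by positivity) (by positivity)]
  have h5 : L * (c₂ * (Real.exp (-C₀) * Real.exp (-(l / 10)))) =
      c₂ * Real.exp (-C₀) * Real.exp (1 / 10 * l) * Real.exp (4 / 5 * l) := by
    have : L = Real.exp (1 / 10 * l) * Real.exp (4 / 5 * l) * Real.exp (l / 10) := by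
      rw [← Real.exp_add, ← Real.exp_add]
      conv_lhs => rw [hLe]
      congr 1
      ring
    have h6 : Real.exp (l / 10) * Real.exp (-(l / 10)) = 1 := by rw [← Real.exp_add]; simp
    calc L * (c₂ * (Real.exp (-C₀) * Real.exp (-(l / 10))))
        = (Real.exp (1 / 10 * l) * Real.exp (4 / 5 * l) * Real.exp (l / 10)) *
          (c₂ * (Real.exp (-C₀) * Real.exp (-(l / 10)))) := by rw [← this]
      _ = c₂ * Real.exp (-C₀) * Real.exp (1 / 10 * l) * Real.exp (4 / 5 * l) *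
          (Real.exp (l / 10) * Real.exp (-(l / 10))) := by ring
      _ = _ := by rw [h6, mul_one]
  rw [h5]
  have h7 : Real.exp (7 / 10 * l) * (2 * B * l) * (1500 * l) = 3000 * B * l ^ 2 * Real.exp (7 / 10 * l) := by
    ring
  rw [h7]
  have h8 : Real.exp (7 / 10 * l) ≤ Real.exp (4 / 5 * l) := Real.exp_le_exp.mpr (by linarith)
  exact mul_le_mul e1 h8 (Real.exp_pos _).le (by positivity)

/-- size of the resultant -/
lemma res_lt {L : ℝ} {b : ℕ} (hL : 1000 ≤ L) {k k' h h' : ℤ} (h1 : |(k : ℝ)| ≤ L ^ b)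
    (h2 : |(k' : ℝ)| ≤ L ^ b) (h3 : |(h : ℝ)| ≤ L ^ 2) (h4 : |(h' : ℝ)| ≤ L ^ 2) :
    ((|(((k' - k) ^ 2 + h' - h) ^ 2 + 4 * (k' - k) ^ 2 * h)| : ℤ) : ℝ) < L ^ (4 * b + 5) := by
  have hL0 : 0 < L := by linarith
  have hL1 : 1 ≤ L := by linarith
  obtain ⟨Q, hQ⟩ : ∃ Q, Q = L ^ (2 * b + 2) := ⟨_, rfl⟩
  have hLb : 1 ≤ L ^ b := one_le_pow₀ hL1
  have hQ1 : (L ^ b) ^ 2 * L ^ 2 = Q := by rw [hQ, ← pow_mul, ← pow_add]; congr 1; ring
  have hL2 : 1 ≤ L ^ 2 := one_le_pow₀ hL1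
  have hb2 : 1 ≤ (L ^ b) ^ 2 := one_le_pow₀ hLb
  have hbQ : (L ^ b) ^ 2 ≤ Q := by rw [← hQ1]; exact le_mul_of_one_le_right (by positivity) hL2
  have h2Q : L ^ 2 ≤ Q := by rw [← hQ1]; exact le_mul_of_one_le_left (by positivity) hb2
  have ht : |(k' : ℝ) - k| ≤ 2 * L ^ b := by
    calc |(k' : ℝ) - k| ≤ |(k' : ℝ)| + |(k : ℝ)| := abs_sub _ _
      _ ≤ 2 * L ^ b := by linarith
  have ht2 : ((k' : ℝ) - k) ^ 2 ≤ 4 * (L ^ b) ^ 2 := by
    rw [← sq_abs]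
    calc |(k' : ℝ) - k| ^ 2 ≤ (2 * L ^ b) ^ 2 := pow_le_pow_left₀ (abs_nonneg _) ht 2
      _ = 4 * (L ^ b) ^ 2 := by ring
  have ht0 : 0 ≤ ((k' : ℝ) - k) ^ 2 := sq_nonneg _
  have e1 : |((k' : ℝ) - k) ^ 2 + h' - h| ≤ 6 * Q := by
    have a1 := abs_le.1 h3
    have a2 := abs_le.1 h4
    rw [abs_le]
    constructor <;> linarith
  have e2 : (((k' : ℝ) - k) ^ 2 + h' - h) ^ 2 ≤ 36 * Q ^ 2 := by
    rw [← sq_abs]
    calc |((k' : ℝ) - k) ^ 2 + h' - h| ^ 2 ≤ (6 * Q) ^ 2 := pow_le_pow_left₀ (abs_nonneg _) e1 2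
      _ = 36 * Q ^ 2 := by ring
  have e3 : |4 * ((k' : ℝ) - k) ^ 2 * h| ≤ 16 * Q := by
    rw [abs_mul, abs_mul, abs_of_nonneg ht0, abs_of_nonneg (by norm_num : (0:ℝ) ≤ 4), ← hQ1]
    calc 4 * ((k' : ℝ) - k) ^ 2 * |(h : ℝ)| ≤ 4 * (4 * (L ^ b) ^ 2) * L ^ 2 := by gcongr
      _ = 16 * ((L ^ b) ^ 2 * L ^ 2) := by ring
  have hQ11 : 1 ≤ Q := hL2.trans h2Q
  have e4 : |(((k' : ℝ) - k) ^ 2 + h' - h) ^ 2 + 4 * ((k' : ℝ) - k) ^ 2 * h| ≤ 52 * Q ^ 2 := by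
    have a1 := abs_le.1 e3
    have a2 : 0 ≤ (((k' : ℝ) - k) ^ 2 + h' - h) ^ 2 := sq_nonneg _
    rw [abs_le]
    constructor <;> nlinarith
  have e5 : 52 * Q ^ 2 < L ^ (4 * b + 5) := by
    have : L ^ (4 * b + 5) = Q ^ 2 * L := by
      rw [hQ, ← pow_mul, ← pow_succ]
      congr 1
      ring
    rw [this]
    have : 0 < Q ^ 2 := by positivity
    nlinarith
  push_cast
  exact lt_of_le_of_lt e4 e5

theorem cov_sq (b : ℕ) (C₀ : ℝ) (hC₀ : 0 ≤ C₀) : ∃ c : ℝ, 0 < c ∧ ∃ L₀ : ℝ, ∀ L : ℝ, L₀ ≤ L →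
    ∀ (𝒮 : Finset (ℤ × ℤ)) (β : ℤ × ℤ → ℝ),
    (∀ s ∈ 𝒮, |(s.1 : ℝ)| ≤ L ^ b ∧ |(s.2 : ℝ)| ≤ L ^ 2 ∧ ¬ IsSquare (-s.2)) →
    (∀ s ∈ 𝒮, 0 ≤ β s ∧ β s ≤ C₀ + Real.log L / 10 ∧
      ∀ w, L ^ (4 * b + 5) ≤ w → -(β s) ≤ Tc (fun p => XX (-s.2) p) (L ^ (4 * b + 5)) w) →
    ∑ s ∈ 𝒮, Real.exp (β s) ≤ c * L →
    ∀ (M M' : ℤ) (W : ℕ) (r : ℤ), M ≤ M' → 1 ≤ W →
    (∀ p : ℕ, p.Prime → L ^ (4 * b + 5) < p → ¬ p ∣ W) →
    Real.exp (1 / 2 * L) ≤ ((M' : ℝ) - M) / W →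
    ∃ x : ℤ, M < x ∧ x ≤ M' ∧ (W : ℤ) ∣ x - r ∧ ∀ s ∈ 𝒮, ∃ p : ℕ, p.Prime ∧
      L ^ (4 * b + 5) < (p : ℝ) ∧ (p : ℝ) ≤ Real.exp (L / 10) ∧ (p : ℤ) ∣ (x + s.1) ^ 2 + s.2 := by
  obtain ⟨B, hB⟩ : ∃ B : ℕ, B = 4 * b + 5 := ⟨_, rfl⟩
  have hB5 : 5 ≤ B := by omega
  obtain ⟨c₂', hc₂', hAl'⟩ := A_lower
  obtain ⟨c₂, hc₂d⟩ : ∃ c₂, c₂ = min c₂' 1 := ⟨_, rfl⟩
  have hc₂ : 0 < c₂ := by rw [hc₂d]; exact lt_min hc₂' one_pos
  have hc₂1 : c₂ ≤ 1 := by rw [hc₂d]; exact min_le_right _ _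
  have hc₂le : c₂ ≤ c₂' := by rw [hc₂d]; exact min_le_left _ _
  have hBR : (0 : ℝ) < B := by exact_mod_cast (by omega : 0 < B)
  obtain ⟨L₁, hL₁⟩ := ev_cov B c₂ C₀ hBR hc₂
  obtain ⟨L₂, hcore⟩ := cov_core B (by omega)
  obtain ⟨c, hc⟩ : ∃ c : ℝ, c = min (1 / 8) (c₂ / (3200 * B)) := ⟨_, rfl⟩
  have hc0 : 0 < c := by rw [hc]; exact lt_min (by norm_num) (by positivity)
  have hc8 : c ≤ 1 / 8 := by rw [hc]; exact min_le_left _ _
  have hcc : c ≤ c₂ / (3200 * B) := by rw [hc]; exact min_le_right _ _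
  refine ⟨c, hc0, max L₁ L₂, ?_⟩
  rw [← hB]
  intro L hL 𝒮 β h𝒮 hβ hcost M M' W r hMM hW hWp hN
  obtain ⟨f1, f2, f3⟩ := hL₁ L ((le_max_left _ _).trans hL)
  have hcore' := hcore L ((le_max_right _ _).trans hL)
  obtain ⟨l, hl⟩ : ∃ l, l = Real.log L := ⟨_, rfl⟩
  rw [← hl] at f2 f3 hβ hcore'
  have hL0 : 0 < L := by linarith
  have hl0 : 0 < l := by linarith
  have hNe := Pool.Agent.H256R2.SC.count_ap M M' hMM W hW r
  have hWR : (0 : ℝ) < W := by exact_mod_cast hW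
  rcases 𝒮.eq_empty_or_nonempty with he | hne
  · have h1 : (1 : ℝ) < ((M' : ℝ) - M) / W := by
      refine lt_of_lt_of_le ?_ hN
      exact Real.one_lt_exp_iff.mpr (by linarith)
    have h3 := (abs_le.mp hNe).1
    have h4 : (0:ℝ) < (((Finset.Ioc M M').filter (fun a : ℤ => (W : ℤ) ∣ a - r)).card : ℝ) := by
      linarith
    have h5 : 0 < ((Finset.Ioc M M').filter (fun a : ℤ => (W : ℤ) ∣ a - r)).card := by
      exact_mod_cast h4
    obtain ⟨a, ha⟩ := Finset.card_pos.1 h5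
    rw [Finset.mem_filter, Finset.mem_Ioc] at ha
    exact ⟨a, ha.1.1, ha.1.2, ha.2, fun s hs => by rw [he] at hs; exact absurd hs (Finset.notMem_empty s)⟩
  obtain ⟨z, hz⟩ : ∃ z, z = Real.exp (L / (1500 * l)) := ⟨_, rfl⟩
  have hz0 : 0 < z := by rw [hz]; exact Real.exp_pos _
  have hlz : Real.log z = L / (1500 * l) := by rw [hz, Real.log_exp]
  have hz1 : 1 < z := by rw [hz]; exact Real.one_lt_exp_iff.mpr (by positivity)
  have hlz2 : L / (2000 * l) ≤ Real.log z := by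
    rw [hlz]
    apply div_le_div_of_nonneg_left hL0.le (by positivity)
    linarith
  have hlz1 : Real.log z ≤ L / (1000 * l) := by
    rw [hlz]
    apply div_le_div_of_nonneg_left hL0.le (by positivity)
    linarith
  have hzL : z ≤ Real.exp (L / 10) := by
    rw [hz]
    apply Real.exp_le_exp.mpr
    apply div_le_div_of_nonneg_left hL0.le (by norm_num)
    linarith
  rw [← hlz] at f3
  obtain ⟨PP, hPP⟩ : ∃ PP, PP = PZ (L ^ B) z := ⟨_, rfl⟩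
  have hLB : L ^ 2 ≤ L ^ B := pow_le_pow_right₀ (by linarith) (by omega)
  have hL2 : 1000 ≤ L ^ 2 := by nlinarith
  have hPPmem : ∀ p ∈ PP, p.Prime ∧ L ^ B < (p:ℝ) ∧ (p:ℝ) ≤ z ∧ p ≠ 2 := by
    intro p hp
    rw [hPP] at hp
    unfold PZ at hp
    rw [Finset.mem_filter, Finset.mem_Icc] at hp
    refine ⟨hp.2.1, hp.2.2, ?_, ?_⟩
    · calc (p:ℝ) ≤ (⌊z⌋₊ : ℝ) := by exact_mod_cast hp.1.2
        _ ≤ z := Nat.floor_le hz0.le
    · rintro rfl
      have := hp.2.2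
      push_cast at this
      linarith
  -- the colours
  have : Nonempty (↥𝒮) := hne.to_subtype
  obtain ⟨g, hg⟩ : ∃ g : ℕ → (↥𝒮) → ℝ, g = fun (p : ℕ) (k : ↥𝒮) => (rho (Qd (k : ℤ × ℤ)) p : ℝ) / (p : ℝ) := ⟨_, rfl⟩
  have hgd : ∀ p k, g p k = (rho (Qd (k : ℤ × ℤ)) p : ℝ) / (p : ℝ) := fun p k => by rw [hg]
  obtain ⟨K, hK⟩ : ∃ K : (↥𝒮) → ℝ, K = fun (k : ↥𝒮) => 8 * B / (c₂ * Real.exp (-(β (k : ℤ × ℤ)))) := ⟨_, rfl⟩
  have hKd : ∀ k, K k = 8 * B / (c₂ * Real.exp (-(β (k : ℤ × ℤ)))) := fun k => by rw [hK]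
  have hKe : ∀ k, K k = 8 * B / c₂ * Real.exp (β (k : ℤ × ℤ)) := by
    intro k
    rw [hKd, Real.exp_neg]
    have := (Real.exp_pos (β (k : ℤ × ℤ))).ne'
    field_simp
  have hP1 : ∀ i : Fin PP.card, 1 < ((emb PP i : ℕ) : ℝ) := fun i => by
    have := (hPPmem _ (emb_mem PP i)).2.1
    linarith
  have hlogy : Real.log (L ^ B) = B * l := by rw [Real.log_pow, ← hl]
  have hsum1 : ∑ k : (↥𝒮), Real.exp (β (k : ℤ × ℤ)) ≤ c * L := by
    refine le_trans (le_of_eq ?_) hcost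
    exact Finset.sum_coe_sort 𝒮 (fun s => Real.exp (β s))
  obtain ⟨a, ha, hcov⟩ := hcore' z hz0 hlz2 hlz1 (↥𝒮) g K
    (fun p k => by rw [hgd]; exact div_nonneg (Nat.cast_nonneg _) (Nat.cast_nonneg _))
    (by
      rw [← hPP]
      intro p hp k
      rw [hgd]
      exact div_le_div_of_nonneg_right (rho_Qd_le _ (hPPmem p hp).1 (hPPmem p hp).2.2.2)
        (Nat.cast_nonneg _))
    (by
      rw [← hPP]
      intro k
      obtain ⟨b1, b2, b3⟩ := hβ k k.2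
      have hex : Real.exp (-(β (k : ℤ × ℤ))) ≤ 1 := by
        rw [Real.exp_le_one_iff]; linarith
      have hlam : 0 < c₂ * Real.exp (-(β (k : ℤ × ℤ))) := mul_pos hc₂ (Real.exp_pos _)
      rw [hKd]
      apply prof hBR (show 1 < L by linarith) hlam (by
        calc c₂ * Real.exp (-(β (k : ℤ × ℤ))) ≤ 1 * 1 :=
              mul_le_mul hc₂1 hex (Real.exp_pos _).le zero_le_one
          _ = 1 := by norm_num) hz1 _ _ hP1
        (fun i => by rw [hgd]; exact div_nonneg (Nat.cast_nonneg _) (Nat.cast_nonneg _))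
      · refine le_trans ?_ f3
        apply mul_le_mul_of_nonneg_left _ (Real.rpow_nonneg hL0.le _)
        rw [← hl]
        apply div_le_div_of_nonneg_left (by positivity) (mul_pos hc₂ (Real.exp_pos _))
        apply mul_le_mul_of_nonneg_left _ hc₂.le
        exact Real.exp_le_exp.mpr (by linarith)
      · intro x hx0 hx1 hx2
        rw [← hl] at hx1 ⊢
        have hy1x : L ^ B ≤ x := by
          rw [← Real.log_le_log_iff (by positivity) hx0, hlogy]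
          exact hx1
        have h1 := hAl' (L ^ B) z x (β (k : ℤ × ℤ)) (fun p => XX (-(k : ℤ × ℤ).2) p)
          (fun p => XX_abs_le _ _) (by linarith) hy1x hx2 b1 (fun w hw1 _ => b3 w hw1)
        rw [hlogy, ← hPP] at h1
        have h2 : Asum (fun i => ((emb PP i : ℕ) : ℝ)) (fun i => g (emb PP i) k) x =
            ∑ s ∈ (PP.powerset.filter (fun s : Finset ℕ => s.Nonempty ∧ ∏ p ∈ s, (p : ℝ) ≤ x)),
              ∏ p ∈ s, g p k := Asum_enum PP (fun p => g p k) x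
        rw [h2]
        refine le_trans ?_ (h1.trans (le_of_eq ?_))
        · have h3 : 0 ≤ Real.log x / (B * l) := by
            apply div_nonneg _ (by positivity)
            linarith [mul_pos hBR hl0]
          have h4 : c₂ * Real.exp (-(β (k : ℤ × ℤ))) ≤ c₂' * Real.exp (-(β (k : ℤ × ℤ))) :=
            mul_le_mul_of_nonneg_right hc₂le (Real.exp_pos _).le
          have h5 := mul_le_mul_of_nonneg_right h4 h3
          linarith
        · refine Finset.sum_congr rfl fun s hs => ?_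
          rw [Finset.mem_filter, Finset.mem_powerset] at hs
          refine Finset.prod_congr rfl fun p hp => ?_
          rw [hgd, rho_Qd _ (hPPmem p (hs.1 hp)).1 (hPPmem p (hs.1 hp)).2.2.2])
    (by
      have h1 : ∑ k, K k = 8 * B / c₂ * ∑ k : (↥𝒮), Real.exp (β (k : ℤ × ℤ)) := by
        rw [Finset.mul_sum]
        exact Finset.sum_congr rfl fun k _ => hKe k
      rw [h1]
      calc 8 * B / c₂ * ∑ k : (↥𝒮), Real.exp (β (k : ℤ × ℤ)) ≤ 8 * B / c₂ * (c * L) :=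
            mul_le_mul_of_nonneg_left hsum1 (by positivity)
        _ ≤ 8 * B / c₂ * (c₂ / (3200 * B) * L) := by
            apply mul_le_mul_of_nonneg_left _ (by positivity)
            exact mul_le_mul_of_nonneg_right hcc hL0.le
        _ = L / 400 := by field_simp; ring)
    (by
      have h1 : (Fintype.card (↥𝒮) : ℝ) ≤ ∑ k : (↥𝒮), Real.exp (β (k : ℤ × ℤ)) := by
        have : (Fintype.card (↥𝒮) : ℝ) = ∑ k : (↥𝒮), (1:ℝ) := by
          rw [Finset.sum_const, Finset.card_univ, nsmul_eq_mul, mul_one]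
        rw [this]
        exact Finset.sum_le_sum fun k _ => Real.one_le_exp (hβ k k.2).1
      calc (Fintype.card (↥𝒮) : ℝ) ≤ c * L := h1.trans hsum1
        _ ≤ 1 / 8 * L := mul_le_mul_of_nonneg_right hc8 hL0.le
        _ = L / 8 := by ring)
    (fun p a k => (p : ℤ) ∣ (a + (k : ℤ × ℤ).1) ^ 2 + (k : ℤ × ℤ).2)
    (by
      rw [← hPP]
      intro p hp a k k' h1 h2
      obtain ⟨p1, p2, p3, p4⟩ := hPPmem p hp
      have q1 := h𝒮 k k.2
      have q2 := h𝒮 k' k'.2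
      have h3 := res_lt f1 q1.1 q2.1 q1.2.1 q2.2.1
      rw [← hB] at h3
      have h4 := coll q1.2.2 h1 h2 (by
        have h5 := h3.trans p2
        exact_mod_cast h5)
      exact Subtype.ext (Prod.ext h4.1 h4.2))
    ((Finset.Ioc M M').filter (fun a : ℤ => (W : ℤ) ∣ a - r)) (((M' : ℝ) - M) / W) hN
    (by
      rw [← hPP]
      intro T s hT hTX
      have h1 := Pool.Agent.N201.SP.count_poly (fun p => Qd ((s p : ↥𝒮) : ℤ × ℤ)) M M' hMM W hW r T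
        (fun p hp => ⟨(hPPmem p (hT p hp)).1, hWp p (hPPmem p (hT p hp)).1 (hPPmem p (hT p hp)).2.1⟩)
      have h3 : ∏ p ∈ T, g p (s p) = ∏ p ∈ T, (rho (Qd ((s p : ↥𝒮) : ℤ × ℤ)) p : ℝ) / (p : ℝ) :=
        Finset.prod_congr rfl fun p _ => hgd _ _
      rw [h3]
      refine le_trans (le_of_eq ?_) (h1.trans (le_trans ?_ hTX))
      · congr 4
        ext a
        simp only [Finset.mem_filter, eval_Qd, and_assoc]
      apply Finset.prod_le_prod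
      · intro p _; exact Nat.cast_nonneg _
      · intro p hp
        have q1 := rho_Qd_le ((s p : ↥𝒮) : ℤ × ℤ) (hPPmem p (hT p hp)).1 (hPPmem p (hT p hp)).2.2.2
        have q2 : (2:ℝ) ≤ p := by exact_mod_cast (hPPmem p (hT p hp)).1.two_le
        linarith)
  rw [Finset.mem_filter, Finset.mem_Ioc] at ha
  refine ⟨a, ha.1.1, ha.1.2, ha.2, fun s hs => ?_⟩
  obtain ⟨p, hp, hpd⟩ := hcov ⟨s, hs⟩
  rw [← hPP] at hp
  obtain ⟨p1, p2, p3, p4⟩ := hPPmem p hp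
  exact ⟨p, p1, p2, p3.trans hzL, hpd⟩

end Pool.Agent.N201.SQ
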