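import Pool.Agent.N201.SQ.Main3
import Pool.Agent.N201.SP.Omega

set_option autoImplicit false

/-! # Rectangles without primes near squares, and error terms -/

namespace Pool.Agent.N201.SQ

open Finset Filter MeasureTheory
open Pool.Agent.H256R2.SC (ff)
open Pool.Agent.N201.SP (li_int li_sub)

/-- all values `(x+k)² + a` are composite for all `k ∈ K`, `|a| ≤ A` -/
theorem rect (b : ℕ) : ∃ c : ℝ, 0 < c ∧ c ≤ 1 ∧ ∃ Y₀ : ℝ, ∀ Y : ℝ, Y₀ ≤ Y → ∀ M : ℤ, Y ≤ M →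
    ∀ (A H : ℕ) (K : Finset ℤ), 1 ≤ A → 1 ≤ H →
    ((K.card = H ∧ (∀ k ∈ K, |(k : ℝ)| ≤ (Real.log Y) ^ b) ∧
        (A : ℝ) * H ≤ c * Real.log Y * Real.log (Real.log Y)) ∨
      (K = Finset.Ico (0 : ℤ) H ∧ 16 * (H : ℝ) ^ 2 ≤ Real.log Y ∧
        (2 * (A : ℝ) ≤ Real.log Y ∨ (A : ℝ) * H ≤ c * ff Y))) →
    ∃ x : ℤ, M < x ∧ (x : ℝ) ≤ M + Y ∧ ∀ k ∈ K, ∀ a : ℤ, |a| ≤ A →
      ¬ ((x + k) ^ 2 + a).natAbs.Prime := by
  obtain ⟨c₁, hc₁, Y₁, h1⟩ := part1 b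
  obtain ⟨Y₂, h2⟩ := part2
  obtain ⟨c₃, hc₃, Y₃, h3⟩ := part3
  obtain ⟨L₀, hev⟩ := ev_main b 1
  obtain ⟨c, hc⟩ : ∃ c : ℝ, c = min 1 (min c₁ c₃) := ⟨_, rfl⟩
  have hc0 : 0 < c := by rw [hc]; exact lt_min one_pos (lt_min hc₁ hc₃)
  have hc1 : c ≤ 1 := by rw [hc]; exact min_le_left _ _
  have hcc₁ : c ≤ c₁ := by rw [hc]; exact (min_le_right _ _).trans (min_le_left _ _)
  have hcc₃ : c ≤ c₃ := by rw [hc]; exact (min_le_right _ _).trans (min_le_right _ _)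
  refine ⟨c, hc0, hc1, max (max Y₁ (max Y₂ Y₃)) (Real.exp (max L₀ 10000)), ?_⟩
  intro Y hY M hMY A H K hA hH hadm
  have hYY := (le_max_left _ _).trans hY
  have hYe := (le_max_right _ _).trans hY
  have hY1 : Y₁ ≤ Y := (le_max_left _ _).trans hYY
  have hY2 : Y₂ ≤ Y := ((le_max_left _ _).trans (le_max_right _ _)).trans hYY
  have hY3 : Y₃ ≤ Y := ((le_max_right _ _).trans (le_max_right _ _)).trans hYY
  have hY0 : 0 < Y := lt_of_lt_of_le (Real.exp_pos _) hYe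
  obtain ⟨L, hL⟩ : ∃ L, L = Real.log Y := ⟨_, rfl⟩
  have hLmax : max L₀ 10000 ≤ L := by
    rw [hL, ← Real.log_exp (max L₀ 10000)]
    exact Real.log_le_log (Real.exp_pos _) hYe
  have hYexp : Y = Real.exp L := by rw [hL]; exact (Real.exp_log hY0).symm
  obtain ⟨f1, f2, f3, f4, f5, f6, f7⟩ := hev L ((le_max_left _ _).trans hLmax)
  have hL0 : 0 < L := by linarith
  have hl0 : 0 < Real.log L := Real.log_pos (by linarith)
  have hlL : Real.log L ≤ L := (Real.log_le_sub_one_of_pos hL0).trans (by linarith)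
  have hLL : L ≤ L ^ 2 := le_self_pow₀ (by linarith) (by norm_num)
  have hLb0 : 0 ≤ L ^ b := by positivity
  have hA1 : (1 : ℝ) ≤ A := by exact_mod_cast hA
  have hH1 : (1 : ℝ) ≤ H := by exact_mod_cast hH
  have hYr : Y ^ (1 / 10 : ℝ) = Real.exp (L / 10) := by
    rw [hYexp, ← Real.exp_mul]
    congr 1
    ring
  -- the three cases
  have key : (A : ℝ) ≤ L ^ 2 ∧ (∀ k ∈ K, |(k : ℝ)| ≤ L ^ b + L ^ 2) ∧
      ∃ x : ℤ, M < x ∧ (x : ℝ) ≤ M + Y ∧ ∀ k ∈ K, ∀ a : ℤ, |a| ≤ A → ¬ IsSquare (-a) →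
        ∃ p : ℕ, p.Prime ∧ (p : ℝ) ≤ Y ^ (1 / 10 : ℝ) ∧ (p : ℤ) ∣ (x + k) ^ 2 + a := by
    rcases hadm with ⟨hKc, hKb, hAH⟩ | ⟨hKI, hH16, hAor⟩
    · rw [← hL] at hKb hAH
      have hAH2 : (A : ℝ) * H ≤ L ^ 2 := by
        calc (A : ℝ) * H ≤ c * L * Real.log L := hAH
          _ ≤ 1 * L * L := by gcongr
          _ = L ^ 2 := by ring
      refine ⟨?_, ?_, ?_⟩
      · calc (A : ℝ) = A * 1 := by ring
          _ ≤ A * H := mul_le_mul_of_nonneg_left hH1 (by linarith)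
          _ ≤ L ^ 2 := hAH2
      · intro k hk
        have := hKb k hk
        have h4 : 0 ≤ L ^ 2 := by positivity
        linarith
      · apply h1 Y hY1 M hMY K (fun _ => A)
        · rw [← hL]; exact hKb
        · rw [Finset.sum_const, nsmul_eq_mul, hKc, ← hL]
          calc (H : ℝ) * A = A * H := by ring
            _ ≤ c * L * Real.log L := hAH
            _ ≤ c₁ * L * Real.log L := by gcongr
    · rw [← hL] at hH16
      have hK : ∀ k ∈ K, 0 ≤ k ∧ k < H := by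
        intro k hk
        rw [hKI, Finset.mem_Ico] at hk
        exact hk
      have hHL : (H : ℝ) ≤ L := by nlinarith
      have hKb : ∀ k ∈ K, |(k : ℝ)| ≤ H := by
        intro k hk
        obtain ⟨k1, k2⟩ := hK k hk
        have k1' : (0 : ℝ) ≤ k := by exact_mod_cast k1
        have k2' : (k : ℝ) ≤ H := by exact_mod_cast k2.le
        rw [abs_of_nonneg k1']
        exact k2'
      have hK2 : ∀ k ∈ K, |(k : ℝ)| ≤ L ^ b + L ^ 2 := by
        intro k hk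
        have := hKb k hk
        linarith
      have small : 2 * (A : ℝ) ≤ L → (A : ℝ) ≤ L ^ 2 ∧ (∀ k ∈ K, |(k : ℝ)| ≤ L ^ b + L ^ 2) ∧
          ∃ x : ℤ, M < x ∧ (x : ℝ) ≤ M + Y ∧ ∀ k ∈ K, ∀ a : ℤ, |a| ≤ A → ¬ IsSquare (-a) →
          ∃ p : ℕ, p.Prime ∧ (p : ℝ) ≤ Y ^ (1 / 10 : ℝ) ∧ (p : ℤ) ∣ (x + k) ^ 2 + a := by
        intro h2A
        refine ⟨by linarith, hK2, ?_⟩
        obtain ⟨x, hx1, hx2, hx3⟩ := h2 Y hY2 M hMY
        refine ⟨x, hx1, hx2, fun k hk a ha hsq => hx3 k a ?_ ?_ hsq⟩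
        · rw [← hL]
          have h4 := hKb k hk
          have h5 : (k : ℝ) ^ 2 ≤ (H : ℝ) ^ 2 := by
            rw [← sq_abs]
            exact pow_le_pow_left₀ (abs_nonneg _) h4 2
          linarith
        · rw [← hL]
          have h4 : |(a : ℝ)| ≤ A := by exact_mod_cast ha
          linarith
      rcases hAor with hAor | hAor
      · rw [← hL] at hAor
        exact small hAor
      · rcases lt_or_ge (A : ℝ) (L / 10) with h10 | h10
        · exact small (by linarith)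
        · have hff : (A : ℝ) * H ≤ c₃ * ff Y := by
            have hAH0 : 0 < (A : ℝ) * H := by positivity
            have hff0 : 0 < ff Y := by
              by_contra hcon
              push Not at hcon
              have := mul_nonpos_of_nonneg_of_nonpos hc0.le hcon
              linarith
            calc (A : ℝ) * H ≤ c * ff Y := hAor
              _ ≤ c₃ * ff Y := mul_le_mul_of_nonneg_right hcc₃ hff0.le
          obtain ⟨g1, x, hx1, hx2, hx3⟩ := h3 Y hY3 M hMY A H hH (by rw [← hL]; exact h10) hff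
          rw [← hL] at g1
          refine ⟨g1, hK2, x, hx1, hx2, fun k hk a ha hsq => ?_⟩
          obtain ⟨k1, k2⟩ := hK k hk
          obtain ⟨j, rfl⟩ := Int.eq_ofNat_of_zero_le k1
          exact hx3 j (by exact_mod_cast k2) a ha hsq
  obtain ⟨g1, g2, x, hx1, hx2, hx3⟩ := key
  refine ⟨x, hx1, hx2, fun k hk a ha => ?_⟩
  have hxM : (M : ℝ) < x := by exact_mod_cast hx1
  have hkb := g2 k hk
  have hkl := (abs_le.1 hkb).1
  have ha' : |(a : ℝ)| ≤ L ^ 2 := by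
    have : |(a : ℝ)| ≤ A := by exact_mod_cast ha
    linarith
  rw [← hYexp] at f3 f6
  have hu : Y / 2 ≤ ((x + k : ℤ) : ℝ) := by
    push_cast
    linarith
  have hu2 : L ^ 2 + 2 ≤ ((x + k : ℤ) : ℝ) := by
    push_cast
    linarith
  have hu3 : |a| + 2 ≤ x + k := by
    have : |(a : ℝ)| + 2 ≤ ((x + k : ℤ) : ℝ) := by linarith
    exact_mod_cast this
  by_cases hsq : IsSquare (-a)
  · exact not_prime_sq hsq hu3
  · obtain ⟨p, p1, p2, p3⟩ := hx3 k hk a ha hsq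
    apply not_prime_natAbs p1 p3
    rw [hYr] at p2
    have h4 : |a| + (x + k) ≤ (x + k) ^ 2 := by nlinarith [abs_nonneg a]
    have h5 := (abs_le.1 (le_refl |a|)).1
    have h6 : x + k ≤ (x + k) ^ 2 + a := by linarith
    have h7 : (p : ℝ) < ((x + k : ℤ) : ℝ) := by linarith
    have h8 : (p : ℤ) < x + k := by exact_mod_cast h7
    exact lt_of_lt_of_le h8 (h6.trans (le_abs_self _))

/-- the number of `1 ≤ n ≤ N` for which `|n² + a|` is prime -/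
noncomputable def P (a : ℤ) (N : ℕ) : ℕ :=
  ((Finset.Icc 1 N).filter (fun n : ℕ => ((n : ℤ) ^ 2 + a).natAbs.Prime)).card

lemma P_eq (a : ℤ) {m n : ℕ} (hmn : m ≤ n)
    (h : ∀ j : ℕ, m < j → j ≤ n → ¬ ((j : ℤ) ^ 2 + a).natAbs.Prime) : P a n = P a m := by
  unfold P
  congr 1
  ext j
  simp only [mem_filter, mem_Icc]
  constructor
  · rintro ⟨⟨h1, h2⟩, h3⟩
    refine ⟨⟨h1, ?_⟩, h3⟩
    by_contra h4
    exact h j (by omega) (by omega) h3
  · rintro ⟨⟨h1, h2⟩, h3⟩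
    exact ⟨⟨h1, by omega⟩, h3⟩

/-- error terms -/
theorem err (S : ℕ → Finset ℤ) (hS : ∀ A, ∀ a ∈ S A, |a| ≤ (A : ℤ)) :
    ∃ c : ℝ, 0 < c ∧ c ≤ 1 ∧ ∃ Y₀ : ℝ, ∀ Y : ℝ, Y₀ ≤ Y → ∀ M : ℕ, Y ≤ M →
    ∀ A H : ℕ, 1 ≤ A → 1 ≤ H →
    ((A : ℝ) * H ≤ c * Real.log Y * Real.log (Real.log Y) ∨
      (16 * (H : ℝ) ^ 2 ≤ Real.log Y ∧ (2 * (A : ℝ) ≤ Real.log Y ∨ (A : ℝ) * H ≤ c * ff Y))) →
    ∀ κ : ℤ → ℝ, (∀ a, 0 ≤ κ a) → ∃ N : ℕ, M ≤ N ∧ (N : ℝ) ≤ M + 2 * Y ∧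
      (1 / 4) * (∑ a ∈ S A, κ a) * (H / Real.log M) ≤
        |∑ a ∈ S A, ((P a N : ℝ) - κ a * ∫ t in (2 : ℝ)..N, 1 / Real.log t)| := by
  obtain ⟨c, hc, hc1, Y₁, hrect⟩ := rect 2
  obtain ⟨L₀, hev⟩ := ev_main 2 1
  refine ⟨c, hc, hc1, max Y₁ (Real.exp (max L₀ 10000)), fun Y hY M hMY A H hA hH hadm κ hκ => ?_⟩
  have hYe := (le_max_right _ _).trans hY
  have hY0 : 0 < Y := lt_of_lt_of_le (Real.exp_pos _) hYe
  obtain ⟨L, hL⟩ : ∃ L, L = Real.log Y := ⟨_, rfl⟩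
  have hLmax : max L₀ 10000 ≤ L := by
    rw [hL, ← Real.log_exp (max L₀ 10000)]
    exact Real.log_le_log (Real.exp_pos _) hYe
  have hYexp : Y = Real.exp L := by rw [hL]; exact (Real.exp_log hY0).symm
  obtain ⟨f1, f2, f3, f4, f5, f6, f7⟩ := hev L ((le_max_left _ _).trans hLmax)
  have hL0 : 0 < L := by linarith
  have hl0 : 0 < Real.log L := Real.log_pos (by linarith)
  have hlL : Real.log L ≤ L := (Real.log_le_sub_one_of_pos hL0).trans (by linarith)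
  have hA1 : (1 : ℝ) ≤ A := by exact_mod_cast hA
  have hH1 : (1 : ℝ) ≤ H := by exact_mod_cast hH
  have hHL2 : (H : ℝ) ≤ L ^ 2 := by
    rcases hadm with h1 | ⟨h1, -⟩
    · rw [← hL] at h1
      calc (H : ℝ) = 1 * H := by ring
        _ ≤ A * H := mul_le_mul_of_nonneg_right hA1 (by linarith)
        _ ≤ c * L * Real.log L := h1
        _ ≤ 1 * L * L := by gcongr
        _ = L ^ 2 := by ring
    · rw [← hL] at h1
      nlinarith
  rw [← hYexp] at f3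
  have hHY : (H : ℝ) ≤ Y := by
    have : 0 ≤ L ^ 2 := by positivity
    linarith
  obtain ⟨x, hx1, hx2, hx3⟩ := hrect Y ((le_max_left _ _).trans hY) (M : ℤ) (by exact_mod_cast hMY)
    A H (Finset.Ico (0 : ℤ) H) hA hH (by
      rcases hadm with h1 | h1
      · left
        refine ⟨by simp, ?_, h1⟩
        intro k hk
        rw [Finset.mem_Ico] at hk
        have k1' : (0 : ℝ) ≤ k := by exact_mod_cast hk.1
        have k2' : (k : ℝ) ≤ H := by exact_mod_cast hk.2.le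
        rw [abs_of_nonneg k1', ← hL]
        linarith
      · right
        exact ⟨rfl, h1⟩)
  have hx0 : 0 ≤ x := by
    have : (0 : ℤ) ≤ (M : ℤ) := Int.natCast_nonneg M
    linarith
  obtain ⟨X, rfl⟩ := Int.eq_ofNat_of_zero_le hx0
  have hMX : M < X := by exact_mod_cast hx1
  have hXle : (X : ℝ) ≤ M + Y := by exact_mod_cast hx2
  obtain ⟨m, hm⟩ : ∃ m, m = X - 1 := ⟨_, rfl⟩
  have hmM : M ≤ m := by omega
  have hmX : m + 1 = X := by omega
  have hPeq : ∀ a ∈ S A, P a (m + H) = P a m := by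
    intro a ha
    apply P_eq a (Nat.le_add_right _ _)
    intro j hj1 hj2
    have h4 := hx3 ((j : ℤ) - X) (by
      rw [Finset.mem_Ico]
      constructor <;> omega) a (hS A a ha)
    have e : (X : ℤ) + ((j : ℤ) - X) = j := by ring
    rw [e] at h4
    exact h4
  have hMR : Y ≤ (M : ℝ) := hMY
  have hY4 : 4 ≤ Y := by
    have := Real.add_one_le_exp L
    rw [← hYexp] at this
    linarith
  have hM4 : (4 : ℝ) ≤ M := by linarith
  have hmR : (M : ℝ) ≤ m := by exact_mod_cast hmM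
  have hm2 : (2 : ℝ) ≤ m := by linarith
  have hmle : (m : ℝ) + 1 ≤ M + Y := by
    have : ((m + 1 : ℕ) : ℝ) ≤ M + Y := by rw [hmX]; exact hXle
    push_cast at this
    exact this
  have hmH : ((m + H : ℕ) : ℝ) ≤ M + 2 * Y := by
    push_cast
    linarith
  have hlogM : 0 < Real.log M := Real.log_pos (by linarith)
  have hlog : Real.log ((m + H : ℕ) : ℝ) ≤ 2 * Real.log M := by
    have h5 : ((m + H : ℕ) : ℝ) ≤ (M : ℝ) ^ 2 := by nlinarith
    have h6 := Real.log_le_log (by push_cast; linarith) h5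
    rw [Real.log_pow, Nat.cast_ofNat] at h6
    exact h6
  have hlog0 : 0 < Real.log ((m + H : ℕ) : ℝ) := Real.log_pos (by push_cast; linarith)
  -- the difference of the error terms
  have hli := li_sub hm2 (show (m : ℝ) ≤ ((m + H : ℕ) : ℝ) by push_cast; linarith)
  have hli' : (H : ℝ) / (2 * Real.log M) ≤ (∫ t in (2 : ℝ)..((m + H : ℕ) : ℝ), 1 / Real.log t) -
      ∫ t in (2 : ℝ)..m, 1 / Real.log t := by
    refine le_trans ?_ hli
    have e : ((m + H : ℕ) : ℝ) - m = H := by push_cast; ring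
    rw [e]
    exact div_le_div_of_nonneg_left (Nat.cast_nonneg _) hlog0 hlog
  obtain ⟨I₁, hI₁⟩ : ∃ I₁, I₁ = ∫ t in (2 : ℝ)..m, 1 / Real.log t := ⟨_, rfl⟩
  obtain ⟨I₂, hI₂⟩ : ∃ I₂, I₂ = ∫ t in (2 : ℝ)..((m + H : ℕ) : ℝ), 1 / Real.log t := ⟨_, rfl⟩
  rw [← hI₁, ← hI₂] at hli'
  have hsum : (∑ a ∈ S A, ((P a m : ℝ) - κ a * I₁)) - ∑ a ∈ S A, ((P a (m + H) : ℝ) - κ a * I₂) =
      (∑ a ∈ S A, κ a) * (I₂ - I₁) := by
    rw [← Finset.sum_sub_distrib, Finset.sum_mul]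
    refine Finset.sum_congr rfl fun a ha => ?_
    rw [hPeq a ha]
    ring
  have hκ0 : 0 ≤ ∑ a ∈ S A, κ a := Finset.sum_nonneg fun a _ => hκ a
  have hbig : (∑ a ∈ S A, κ a) * ((H : ℝ) / (2 * Real.log M)) ≤
      |∑ a ∈ S A, ((P a m : ℝ) - κ a * I₁)| + |∑ a ∈ S A, ((P a (m + H) : ℝ) - κ a * I₂)| := by
    calc (∑ a ∈ S A, κ a) * ((H : ℝ) / (2 * Real.log M)) ≤ (∑ a ∈ S A, κ a) * (I₂ - I₁) :=
          mul_le_mul_of_nonneg_left hli' hκ0
      _ = (∑ a ∈ S A, ((P a m : ℝ) - κ a * I₁)) - ∑ a ∈ S A, ((P a (m + H) : ℝ) - κ a * I₂) :=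
          hsum.symm
      _ ≤ _ := by
          have g1 := le_abs_self (∑ a ∈ S A, ((P a m : ℝ) - κ a * I₁))
          have g2 := neg_abs_le (∑ a ∈ S A, ((P a (m + H) : ℝ) - κ a * I₂))
          linarith
  have e4 : (1 / 4) * (∑ a ∈ S A, κ a) * (H / Real.log M) =
      (∑ a ∈ S A, κ a) * ((H : ℝ) / (2 * Real.log M)) / 2 := by
    ring
  rcases le_total (|∑ a ∈ S A, ((P a (m + H) : ℝ) - κ a * I₂)|)
    (|∑ a ∈ S A, ((P a m : ℝ) - κ a * I₁)|) with hle | hle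
  · refine ⟨m, hmM, by linarith, ?_⟩
    rw [← hI₁, e4]
    linarith
  · refine ⟨m + H, by omega, hmH, ?_⟩
    rw [← hI₂, e4]
    linarith

end Pool.Agent.N201.SQ
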