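import Pool.Agent.N201.SQ.CovSq
import Pool.Agent.N201.SQ.Avg2
import Pool.Agent.H474R2.PG.Final

set_option autoImplicit false

/-! # Neighbourhoods of many squares without primes -/

namespace Pool.Agent.N201.SQ

open Polynomial Finset Filter
open Pool.Agent.H378R2.QG (PZ Tc)
open Pool.Agent.H474R2.PG (rho eval_dvd_congr PR WW WW_eq WW_pos WW_le PR_prime PR_le PR_not_dvd)
open Pool.Agent.Helper919 (XX)

/-- pairs `(k, h)` with `k ∈ K`, `h ∈ F k` -/
def pairs (K : Finset ℤ) (F : ℤ → Finset ℤ) : Finset (ℤ × ℤ) :=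
  (K.sigma F).map (Equiv.sigmaEquivProd ℤ ℤ).toEmbedding

lemma mem_pairs {K : Finset ℤ} {F : ℤ → Finset ℤ} {s : ℤ × ℤ} :
    s ∈ pairs K F ↔ s.1 ∈ K ∧ s.2 ∈ F s.1 := by
  unfold pairs
  rw [Finset.mem_map_equiv, Finset.mem_sigma]
  rfl

lemma sum_pairs (K : Finset ℤ) (F : ℤ → Finset ℤ) (f : ℤ × ℤ → ℝ) :
    ∑ s ∈ pairs K F, f s = ∑ k ∈ K, ∑ h ∈ F k, f (k, h) := by
  unfold pairs
  rw [Finset.sum_map, Finset.sum_sigma]
  rfl

/-- a proper divisor bigger than one -/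
lemma not_prime_natAbs {z : ℤ} {p : ℕ} (hp : p.Prime) (h1 : (p : ℤ) ∣ z) (h2 : (p : ℤ) < |z|) :
    ¬ z.natAbs.Prime := by
  intro h
  have h3 : p ∣ z.natAbs := Int.natCast_dvd.1 h1
  rcases (Nat.dvd_prime h).1 h3 with h4 | h4
  · exact hp.one_lt.ne' h4
  · rw [Int.abs_eq_natAbs, ← h4] at h2
    exact lt_irrefl _ h2

/-- the trivial shifts -/
lemma not_prime_sq {u a : ℤ} (hsq : IsSquare (-a)) (h : |a| + 2 ≤ u) :
    ¬ (u ^ 2 + a).natAbs.Prime := by
  obtain ⟨m, hm⟩ := hsq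
  have h1 : |m| ≤ |a| := by
    rw [← abs_neg a, hm, abs_mul]
    rcases eq_or_ne m 0 with h0 | h0
    · rw [h0]; simp
    · have : 1 ≤ |m| := Int.one_le_abs h0
      nlinarith
  have h2 := abs_le.1 h1
  have e : u ^ 2 + a = (u - m) * (u + m) := by linear_combination -hm
  rw [e, Int.natAbs_mul]
  apply Nat.not_prime_mul
  · omega
  · omega

/-- the facts used for large `L` -/
lemma ev_main (b A₀ : ℕ) : ∃ L₀ : ℝ, ∀ L : ℝ, L₀ ≤ L → 10000 ≤ L ∧ (A₀ : ℝ) ≤ L ^ 2 ∧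
    2 * L ^ b + 2 * L ^ 2 + 4 ≤ Real.exp L ∧ 3 ≤ L / 100 ∧ 2 * L ^ 2 + 1 ≤ (L / 100) ^ 8 ∧
    Real.exp (L / 10) < Real.exp L / 2 ∧
    Real.exp (1 / 2 * L) * Real.exp (L / 50) ≤ Real.exp L - 1 := by
  have h1 := (isLittleO_pow_exp_pos_mul_atTop (k := b) (b := (1 : ℝ)) (by norm_num)).def
    (show (0:ℝ) < 1 / 10 by norm_num)
  have h2 := (isLittleO_pow_exp_pos_mul_atTop (k := 2) (b := (1 : ℝ)) (by norm_num)).def
    (show (0:ℝ) < 1 / 10 by norm_num)
  obtain ⟨L₀, hL₀⟩ := Filter.eventually_atTop.mp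
    (h1.and (h2.and ((eventually_ge_atTop ((100:ℝ) ^ 3)).and (eventually_ge_atTop (A₀:ℝ)))))
  refine ⟨L₀, fun L hL => ?_⟩
  obtain ⟨e1, e2, e3, e4⟩ := hL₀ L hL
  have hL0 : 0 < L := by
    have : (0:ℝ) < 100 ^ 3 := by norm_num
    linarith
  have hL6 : (1000000:ℝ) ≤ L := by
    have : ((100:ℝ) ^ 3) = 1000000 := by norm_num
    linarith
  rw [Real.norm_eq_abs, Real.norm_eq_abs, abs_of_nonneg (Real.exp_pos _).le,
    abs_of_nonneg (by positivity), one_mul] at e1 e2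
  have hexp := Real.add_one_le_exp L
  refine ⟨by linarith, ?_, by linarith, by linarith, ?_, ?_, ?_⟩
  · nlinarith
  · have h5 : L ≤ (L / 100) ^ 2 := by nlinarith
    have h6 : (10000 : ℝ) ≤ L / 100 := by linarith
    have h7 : (1 : ℝ) ≤ (L / 100) ^ 4 := one_le_pow₀ (by linarith)
    have h8 : L ^ 2 ≤ (L / 100) ^ 4 := by
      calc L ^ 2 ≤ ((L / 100) ^ 2) ^ 2 := pow_le_pow_left₀ hL0.le h5 2
        _ = (L / 100) ^ 4 := by ring
    have h9 : (10000 : ℝ) ≤ (L / 100) ^ 4 := by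
      calc (10000 : ℝ) ≤ L / 100 := h6
        _ ≤ (L / 100) ^ 4 := le_self_pow₀ (by linarith) (by norm_num)
    have h10 : (L / 100) ^ 8 = (L / 100) ^ 4 * (L / 100) ^ 4 := by ring
    rw [h10]
    nlinarith
  · have h5 : Real.exp L = Real.exp (L / 10) * Real.exp (9 / 10 * L) := by
      rw [← Real.exp_add]; congr 1; ring
    have h6 := Real.add_one_le_exp (9 / 10 * L)
    have h7 := Real.exp_pos (L / 10)
    rw [h5]
    nlinarith
  · have h5 : Real.exp (1 / 2 * L) * Real.exp (L / 50) = Real.exp (26 / 50 * L) := by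
      rw [← Real.exp_add]; congr 1; ring
    have h6 : Real.exp L = Real.exp (26 / 50 * L) * Real.exp (24 / 50 * L) := by
      rw [← Real.exp_add]; congr 1; ring
    have h7 := Real.add_one_le_exp (24 / 50 * L)
    have h8 : 1 ≤ Real.exp (26 / 50 * L) := Real.one_le_exp (by positivity)
    rw [h5, h6]
    nlinarith

open Classical in
/-- **Many squares at the same time, general shapes.** -/
theorem part1 (b : ℕ) : ∃ c : ℝ, 0 < c ∧ ∃ Y₀ : ℝ, ∀ Y : ℝ, Y₀ ≤ Y → ∀ M : ℤ, Y ≤ M →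
    ∀ (K : Finset ℤ) (A : ℤ → ℕ), (∀ k ∈ K, |(k : ℝ)| ≤ (Real.log Y) ^ b) →
    (∑ k ∈ K, (A k : ℝ)) ≤ c * Real.log Y * Real.log (Real.log Y) →
    ∃ x : ℤ, M < x ∧ (x : ℝ) ≤ M + Y ∧ ∀ k ∈ K, ∀ a : ℤ, |a| ≤ A k → ¬ IsSquare (-a) →
      ∃ p : ℕ, p.Prime ∧ (p : ℝ) ≤ Y ^ (1 / 10 : ℝ) ∧ (p : ℤ) ∣ (x + k) ^ 2 + a := by
  obtain ⟨C₁, hC₁, C₃, hC₃, A₀, hA₀, havg⟩ := avg_cost
  obtain ⟨c₀, hc₀, L₁, hcov⟩ := cov_sq b C₁ hC₁
  obtain ⟨L₂, hev⟩ := ev_main b A₀
  have hA₀R : (2 : ℝ) ≤ A₀ := by exact_mod_cast hA₀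
  obtain ⟨c, hc⟩ : ∃ c : ℝ, c = min 1 (c₀ / (2 * C₃ * A₀)) := ⟨_, rfl⟩
  have hc0 : 0 < c := by rw [hc]; exact lt_min one_pos (by positivity)
  have hc1 : c ≤ 1 := by rw [hc]; exact min_le_left _ _
  have hcc : c ≤ c₀ / (2 * C₃ * A₀) := by rw [hc]; exact min_le_right _ _
  refine ⟨c, hc0, Real.exp (max L₁ (max L₂ 1)), fun Y hY M hMY K A hK hA => ?_⟩
  have hY0 : 0 < Y := lt_of_lt_of_le (Real.exp_pos _) hY
  obtain ⟨L, hL⟩ : ∃ L, L = Real.log Y := ⟨_, rfl⟩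
  have hLmax : max L₁ (max L₂ 1) ≤ L := by
    rw [hL, ← Real.log_exp (max L₁ (max L₂ 1))]
    exact Real.log_le_log (Real.exp_pos _) hY
  rw [← hL] at hK hA
  have hYexp : Y = Real.exp L := by rw [hL]; exact (Real.exp_log hY0).symm
  obtain ⟨f1, f2, f3, f4, f5, f6, f7⟩ := hev L ((le_max_left _ _).trans ((le_max_right _ _).trans hLmax))
  have hcovL := hcov L ((le_max_left _ _).trans hLmax)
  obtain ⟨l, hl⟩ : ∃ l, l = Real.log L := ⟨_, rfl⟩
  rw [← hl] at hA hcovL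
  have hL0 : 0 < L := by linarith
  have hl0 : 0 < l := by rw [hl]; exact Real.log_pos (by linarith)
  have hlL : l ≤ L := by rw [hl]; exact (Real.log_le_sub_one_of_pos hL0).trans (by linarith)
  -- small primes
  obtain ⟨y, hy⟩ : ∃ y, y = L / 100 := ⟨_, rfl⟩
  have hy0 : 0 ≤ y := by rw [hy]; positivity
  have hlw : l / 2 ≤ Real.log y := by
    have h1 : Real.log y = l - Real.log 100 := by
      rw [hy, Real.log_div (by linarith) (by norm_num), hl]
    have h2 : Real.log 100 = Real.log 10000 / 2 := by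
      have : (10000 : ℝ) = 100 ^ 2 := by norm_num
      rw [this, Real.log_pow]
      push_cast
      ring
    have h3 : Real.log 10000 ≤ l := by rw [hl]; exact Real.log_le_log (by norm_num) f1
    rw [h1, h2]
    linarith
  have hly0 : 0 < Real.log y := by linarith
  -- the shifts
  obtain ⟨K', hK'⟩ : ∃ K', K' = K.filter (fun k => 1 ≤ A k) := ⟨_, rfl⟩
  have hK'm : ∀ k ∈ K', k ∈ K ∧ 1 ≤ A k := fun k hk => by
    rw [hK', Finset.mem_filter] at hk; exact hk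
  obtain ⟨A', hA'⟩ : ∃ A' : ℤ → ℕ, A' = fun k => max (A k) A₀ := ⟨_, rfl⟩
  have hA'd : ∀ k, A' k = max (A k) A₀ := fun k => by rw [hA']
  have hA'A : ∀ k, A k ≤ A' k := fun k => by rw [hA'd]; exact le_max_left _ _
  have hA'0 : ∀ k, A₀ ≤ A' k := fun k => by rw [hA'd]; exact le_max_right _ _
  have hAk : ∀ k ∈ K, (A k : ℝ) ≤ L ^ 2 := by
    intro k hk
    have h1 : (A k : ℝ) ≤ ∑ k ∈ K, (A k : ℝ) :=
      Finset.single_le_sum (f := fun k => (A k : ℝ)) (fun _ _ => Nat.cast_nonneg _) hk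
    have h2 : c * L * l ≤ L ^ 2 := by
      calc c * L * l ≤ 1 * L * L := by gcongr
        _ = L ^ 2 := by ring
    linarith
  have hA'k : ∀ k ∈ K, (A' k : ℝ) ≤ L ^ 2 := by
    intro k hk
    rw [hA'd]
    push_cast
    exact max_le (hAk k hk) f2
  have hA'le : ∀ k ∈ K', (A' k : ℝ) ≤ A₀ * A k := by
    intro k hk
    have h1 : (1 : ℝ) ≤ A k := by exact_mod_cast (hK'm k hk).2
    rw [hA'd]
    push_cast
    apply max_le
    · nlinarith
    · nlinarith
  choose βk hβ1 hβ2 hβ3 using fun k => havg (A' k) (hA'0 k)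
  obtain ⟨F, hF⟩ : ∃ F : ℤ → Finset ℤ,
      F = fun k => (Finset.Icc (-(A' k : ℤ)) (A' k)).filter (fun h => ¬ IsSquare (-h)) := ⟨_, rfl⟩
  have hFd : ∀ k, F k = (Finset.Icc (-(A' k : ℤ)) (A' k)).filter (fun h => ¬ IsSquare (-h)) :=
    fun k => by rw [hF]
  have hFm : ∀ k h, h ∈ F k ↔ |h| ≤ (A' k : ℤ) ∧ ¬ IsSquare (-h) := by
    intro k h
    rw [hFd, Finset.mem_filter, Finset.mem_Icc, abs_le]
  obtain ⟨β, hβ⟩ : ∃ β : ℤ × ℤ → ℝ, β = fun s => βk s.1 s.2 := ⟨_, rfl⟩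
  have hβd : ∀ s, β s = βk s.1 s.2 := fun s => by rw [hβ]
  obtain ⟨r, hr⟩ := greedy_i Qd (PR y) (fun p hp => PR_prime hp) (pairs K' F)
    (fun s => Real.exp (β s))
  obtain ⟨𝒮, h𝒮⟩ : ∃ 𝒮, 𝒮 = (pairs K' F).filter (fun s => ∀ p ∈ PR y, ¬ (p : ℤ) ∣ (Qd s).eval r) :=
    ⟨_, rfl⟩
  have hcost : ∑ s ∈ 𝒮, Real.exp (β s) ≤ c₀ * L := by
    rw [h𝒮]
    refine le_trans (le_of_eq ?_) (hr.trans ?_)
    · congr!
    rw [sum_pairs]
    have h1 : ∀ k ∈ K', ∑ h ∈ F k, (∏ p ∈ PR y, (1 - (rho (Qd (k, h)) p : ℝ) / (p : ℝ))) *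
        Real.exp (β (k, h)) ≤ C₃ * (A₀ * A k / (l / 2)) := by
      intro k hk
      have h2 := hβ3 k y (by rw [hy]; exact f4) (by
        have h3 := hA'k k (hK'm k hk).1
        rw [hy]
        linarith)
      rw [← hFd] at h2
      have h4 : ∑ h ∈ F k, (∏ p ∈ PR y, (1 - (rho (Qd (k, h)) p : ℝ) / (p : ℝ))) *
          Real.exp (β (k, h)) = ∑ h ∈ F k, (∏ p ∈ PR y, (1 - (rho (Qd (0, h)) p : ℝ) / (p : ℝ))) *
            Real.exp (βk k h) := by
        refine Finset.sum_congr rfl fun h _ => ?_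
        rw [hβd]
        congr 1
        refine Finset.prod_congr rfl fun p hp => ?_
        rw [rho_shift_Qd (k, h) (PR_prime hp)]
      rw [h4]
      refine h2.trans ?_
      apply mul_le_mul_of_nonneg_left _ hC₃.le
      apply div_le_div₀ (by positivity) (hA'le k hk) (by positivity) hlw
    refine (Finset.sum_le_sum h1).trans ?_
    rw [← Finset.mul_sum, ← Finset.sum_div, ← Finset.mul_sum]
    have h5 : ∑ k ∈ K', (A k : ℝ) ≤ c * L * l := by
      refine le_trans ?_ hA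
      rw [hK']
      exact Finset.sum_le_sum_of_subset_of_nonneg (Finset.filter_subset _ _)
        (fun _ _ _ => Nat.cast_nonneg _)
    calc C₃ * ((A₀ * ∑ k ∈ K', (A k : ℝ)) / (l / 2))
        ≤ C₃ * (A₀ * (c * L * l) / (l / 2)) := by
          apply mul_le_mul_of_nonneg_left _ hC₃.le
          apply div_le_div_of_nonneg_right _ (by positivity)
          exact mul_le_mul_of_nonneg_left h5 (by positivity)
      _ = 2 * C₃ * A₀ * c * L := by field_simp
      _ ≤ c₀ * L := by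
          apply mul_le_mul_of_nonneg_right _ hL0.le
          rw [le_div_iff₀ (by positivity)] at hcc
          linarith
  -- the interval
  obtain ⟨M', hM'⟩ : ∃ M' : ℤ, M' = M + ⌊Y⌋ := ⟨_, rfl⟩
  have hfl1 : Y - 1 < (⌊Y⌋ : ℝ) := Int.sub_one_lt_floor _
  have hfl2 : (⌊Y⌋ : ℝ) ≤ Y := Int.floor_le _
  have hMM : M ≤ M' := by
    rw [hM']
    have : (0:ℤ) ≤ ⌊Y⌋ := Int.floor_nonneg.mpr hY0.le
    linarith
  have hWle : (WW y : ℝ) ≤ Real.exp (L / 50) := by rw [hy]; exact WW_le hL0.le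
  have hWR : (0:ℝ) < WW y := by exact_mod_cast WW_pos y
  obtain ⟨x, hx1, hx2, hx3, hx4⟩ := hcovL 𝒮 β
    (by
      intro s hs
      rw [h𝒮, Finset.mem_filter, mem_pairs, hFm] at hs
      obtain ⟨⟨h1, h2, h3⟩, -⟩ := hs
      refine ⟨hK _ (hK'm _ h1).1, ?_, h3⟩
      have h4 : |(s.2 : ℝ)| ≤ A' s.1 := by exact_mod_cast h2
      exact h4.trans (hA'k _ (hK'm _ h1).1))
    (by
      intro s hs
      rw [h𝒮, Finset.mem_filter, mem_pairs, hFm] at hs
      obtain ⟨⟨h1, h2, h3⟩, -⟩ := hs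
      obtain ⟨g1, g2⟩ := hβ1 s.1 s.2
      have hk2 := hA'k _ (hK'm _ h1).1
      have hA'pos : (0 : ℝ) < A' s.1 := by
        have : (A₀ : ℝ) ≤ A' s.1 := by exact_mod_cast hA'0 s.1
        linarith
      refine ⟨by rw [hβd]; exact g1, ?_, ?_⟩
      · rw [hβd]
        refine g2.trans ?_
        have h5 := Real.log_le_log hA'pos hk2
        rw [Real.log_pow, Nat.cast_ofNat, ← hl] at h5
        linarith
      · intro w hw
        rw [hβd]
        apply hβ2 s.1 s.2 h2 h3 _ _ _ hw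
        calc (A' s.1 : ℝ) ^ 2 ≤ (L ^ 2) ^ 2 := pow_le_pow_left₀ hA'pos.le hk2 2
          _ = L ^ 4 := by ring
          _ ≤ L ^ (4 * b + 5) := pow_le_pow_right₀ (by linarith) (by omega))
    hcost M M' (WW y) r hMM (WW_pos y)
    (by
      intro p hp hpL
      apply PR_not_dvd hy0 hp
      have h1 : L ≤ L ^ (4 * b + 5) := le_self_pow₀ (by linarith) (by omega)
      rw [hy]
      linarith)
    (by
      rw [le_div_iff₀ hWR, hM']
      push_cast
      rw [hYexp] at hfl1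
      rw [hYexp]
      have h1 : Real.exp (1 / 2 * L) * (WW y : ℝ) ≤ Real.exp (1 / 2 * L) * Real.exp (L / 50) :=
        mul_le_mul_of_nonneg_left hWle (Real.exp_pos _).le
      linarith)
  have hYr : Y ^ (1 / 10 : ℝ) = Real.exp (L / 10) := by
    rw [hYexp, ← Real.exp_mul]
    congr 1
    ring
  refine ⟨x, hx1, ?_, ?_⟩
  · have : (x : ℝ) ≤ M' := by exact_mod_cast hx2
    rw [hM'] at this
    push_cast at this
    linarith
  · intro k hk a ha hsq
    rw [hYr]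
    by_cases hs : (k, a) ∈ 𝒮
    · obtain ⟨p, p1, p2, p3, p4⟩ := hx4 _ hs
      exact ⟨p, p1, p3, p4⟩
    · have hkA : 1 ≤ A k := by
        by_contra hcon
        have h0 : A k = 0 := by omega
        rw [h0] at ha
        have h1 : a = 0 := by
          have := abs_nonneg a
          have h2 : |a| = 0 := by
            push_cast at ha
            omega
          exact abs_eq_zero.1 h2
        apply hsq
        rw [h1]
        exact ⟨0, by simp⟩
      have hmem : (k, a) ∈ pairs K' F := by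
        rw [mem_pairs, hFm]
        refine ⟨by rw [hK', Finset.mem_filter]; exact ⟨hk, hkA⟩, ?_, hsq⟩
        exact ha.trans (by exact_mod_cast hA'A k)
      rw [h𝒮, Finset.mem_filter, not_and] at hs
      have h1 := hs hmem
      push Not at h1
      obtain ⟨p, hp, hpd⟩ := h1
      refine ⟨p, PR_prime hp, ?_, ?_⟩
      · have h2 := PR_le hy0 hp
        have h3 := Real.add_one_le_exp (L / 10)
        rw [hy] at h2
        linarith
      · have h2 : (p : ℤ) ∣ x - r := by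
          refine dvd_trans ?_ hx3
          have : p ∣ WW y := Finset.dvd_prod_of_mem _ hp
          exact_mod_cast this
        have h3 := (eval_dvd_congr (Qd (k, a)) p _ _ h2).2 hpd
        rwa [eval_Qd] at h3

end Pool.Agent.N201.SQ
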