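import Pool.Agent.N201.SQ.Main

set_option autoImplicit false

/-! # About `√(log Y)` consecutive squares, neighbourhoods of length `log Y` -/

namespace Pool.Agent.N201.SQ

open Polynomial Finset Filter
open Pool.Agent.H378R2.QG (PZ Tc)
open Pool.Agent.H474R2.PG (rho eval_dvd_congr PR WW WW_eq WW_pos WW_le PR_prime PR_le PR_not_dvd)
open Pool.Agent.Helper919 (XX)

lemma WW_le' {L : ℝ} (hL : 0 ≤ L) : (WW (3 / 5 * L) : ℝ) ≤ Real.exp (21 / 25 * L) := by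
  rw [WW_eq]
  have h1 : (primorial ⌊3 / 5 * L⌋₊ : ℝ) ≤ (4 : ℝ) ^ ⌊3 / 5 * L⌋₊ := by
    exact_mod_cast primorial_le_four_pow _
  refine h1.trans ?_
  have h2 : (4 : ℝ) ^ ⌊3 / 5 * L⌋₊ = Real.exp (⌊3 / 5 * L⌋₊ * Real.log 4) := by
    rw [Real.exp_nat_mul, Real.exp_log (by norm_num)]
  rw [h2]
  apply Real.exp_le_exp.mpr
  have h3 : (⌊3 / 5 * L⌋₊ : ℝ) ≤ 3 / 5 * L := Nat.floor_le (by positivity)
  have h4 : Real.log 4 ≤ 7 / 5 := by
    have : (4 : ℝ) = 2 ^ 2 := by norm_num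
    rw [this, Real.log_pow]
    have := Real.log_two_lt_d9
    push_cast
    linarith
  have h5 : 0 ≤ Real.log 4 := Real.log_nonneg (by norm_num)
  calc (⌊3 / 5 * L⌋₊ : ℝ) * Real.log 4 ≤ (3 / 5 * L) * (7 / 5) :=
        mul_le_mul h3 h4 h5 (by positivity)
    _ = 21 / 25 * L := by ring

lemma ev_main2 (A₀ : ℕ) (C₁ c₀ L₁ : ℝ) (hc₀ : 0 < c₀) : ∃ L₀ : ℝ, ∀ L : ℝ, L₀ ≤ L →
    10000 ≤ L ∧ (A₀ : ℝ) ≤ L ∧ L₁ ≤ L / 10 ∧
    4 * Real.exp (C₁ + 3 / 5 * Real.log L) ≤ c₀ * (L / 10) := by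
  have key : ∀ᶠ l : ℝ in atTop, 40 * Real.exp C₁ / c₀ ≤ Real.exp (2 / 5 * l) := by
    have : Tendsto (fun l : ℝ => Real.exp (2 / 5 * l)) atTop atTop :=
      Real.tendsto_exp_atTop.comp (Filter.tendsto_id.const_mul_atTop (by norm_num))
    exact this.eventually_ge_atTop _
  obtain ⟨L₀, hL₀⟩ := Filter.eventually_atTop.mp
    ((Real.tendsto_log_atTop.eventually key).and ((eventually_ge_atTop (10000:ℝ)).and
      ((eventually_ge_atTop (A₀:ℝ)).and (eventually_ge_atTop (10 * L₁)))))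
  refine ⟨L₀, fun L hL => ?_⟩
  obtain ⟨e1, e2, e3, e4⟩ := hL₀ L hL
  refine ⟨e2, e3, by linarith, ?_⟩
  have hL0 : 0 < L := by linarith
  rw [div_le_iff₀ hc₀] at e1
  have h1 : L = Real.exp (2 / 5 * Real.log L) * Real.exp (3 / 5 * Real.log L) := by
    rw [← Real.exp_add]
    conv_lhs => rw [← Real.exp_log hL0]
    congr 1
    ring
  rw [Real.exp_add]
  have h2 : c₀ * (L / 10) = (Real.exp (2 / 5 * Real.log L) * c₀) * Real.exp (3 / 5 * Real.log L) / 10 := by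
    conv_lhs => rw [h1]
    ring
  rw [h2]
  have h3 := mul_le_mul_of_nonneg_right e1 (Real.exp_pos (3 / 5 * Real.log L)).le
  linarith

open Classical in
/-- **The neighbourhoods of about `√(log Y)` consecutive squares.** -/
theorem part2 : ∃ Y₀ : ℝ, ∀ Y : ℝ, Y₀ ≤ Y → ∀ M : ℤ, Y ≤ M →
    ∃ x : ℤ, M < x ∧ (x : ℝ) ≤ M + Y ∧ ∀ k a : ℤ, 16 * (k : ℝ) ^ 2 ≤ Real.log Y →
      2 * |(a : ℝ)| ≤ Real.log Y → ¬ IsSquare (-a) →
      ∃ p : ℕ, p.Prime ∧ (p : ℝ) ≤ Y ^ (1 / 10 : ℝ) ∧ (p : ℤ) ∣ (x + k) ^ 2 + a := by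
  obtain ⟨C₁, hC₁, C₃, hC₃, A₀, hA₀, havg⟩ := avg_cost
  obtain ⟨c₀, hc₀, L₁, hcov⟩ := cov_sq 1 C₁ hC₁
  obtain ⟨L₂, hev⟩ := ev_main2 A₀ C₁ c₀ L₁ hc₀
  refine ⟨Real.exp (max L₂ 1), fun Y hY M hMY => ?_⟩
  have hY0 : 0 < Y := lt_of_lt_of_le (Real.exp_pos _) hY
  obtain ⟨L, hL⟩ : ∃ L, L = Real.log Y := ⟨_, rfl⟩
  have hLmax : max L₂ 1 ≤ L := by
    rw [hL, ← Real.log_exp (max L₂ 1)]
    exact Real.log_le_log (Real.exp_pos _) hY
  rw [← hL]
  have hYexp : Y = Real.exp L := by rw [hL]; exact (Real.exp_log hY0).symm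
  obtain ⟨f1, f2, f3, f4⟩ := hev L ((le_max_left _ _).trans hLmax)
  obtain ⟨L', hL'⟩ : ∃ L', L' = L / 10 := ⟨_, rfl⟩
  rw [← hL'] at f3 f4
  have hcovL := hcov L' f3
  have hL0 : 0 < L := by linarith
  have hL'1 : 1000 ≤ L' := by rw [hL']; linarith
  obtain ⟨l, hl⟩ : ∃ l, l = Real.log L := ⟨_, rfl⟩
  rw [← hl] at f4
  -- the level of the costs
  obtain ⟨A, hA⟩ : ∃ A : ℕ, A = ⌈L⌉₊ := ⟨_, rfl⟩
  have hAL : L ≤ A := by rw [hA]; exact Nat.le_ceil L
  have hAL' : (A : ℝ) ≤ L + 1 := by rw [hA]; exact (Nat.ceil_lt_add_one hL0.le).le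
  have hAA : A₀ ≤ A := by
    have : (A₀ : ℝ) ≤ A := f2.trans hAL
    exact_mod_cast this
  obtain ⟨βh, hβ1, hβ2, -⟩ := havg A hAA
  have hA0 : (0 : ℝ) < A := by linarith
  have hlA : Real.log A ≤ 2 * l := by
    have h1 : (A : ℝ) ≤ L ^ 2 := by nlinarith
    have h2 := Real.log_le_log hA0 h1
    rw [Real.log_pow, Nat.cast_ofNat, ← hl] at h2
    exact h2
  have hlA' : Real.log A ≤ 2 * Real.log L' := by
    have h1 : (A : ℝ) ≤ L' ^ 2 := by rw [hL']; nlinarith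
    have h2 := Real.log_le_log hA0 h1
    rw [Real.log_pow, Nat.cast_ofNat] at h2
    exact h2
  -- the colours
  obtain ⟨k₀, hk₀⟩ : ∃ k₀ : ℕ, k₀ = ⌊Real.sqrt L / 4⌋₊ := ⟨_, rfl⟩
  have hsq0 : 0 ≤ Real.sqrt L := Real.sqrt_nonneg L
  have hsqL : Real.sqrt L ^ 2 = L := Real.sq_sqrt hL0.le
  have hsq100 : 100 ≤ Real.sqrt L := by
    rw [show (100 : ℝ) = Real.sqrt (100 ^ 2) by rw [Real.sqrt_sq (by norm_num)]]
    apply Real.sqrt_le_sqrt
    linarith
  have hk₀le : (k₀ : ℝ) ≤ Real.sqrt L / 4 := by rw [hk₀]; exact Nat.floor_le (by positivity)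
  have hkk : ∀ k : ℤ, 16 * (k : ℝ) ^ 2 ≤ L → |k| ≤ (k₀ : ℤ) := by
    intro k hk
    have h1 : |(k : ℝ)| ≤ Real.sqrt L / 4 := by
      rw [le_div_iff₀ (by norm_num)]
      apply Real.le_sqrt_of_sq_le
      rw [mul_pow, sq_abs]
      linarith
    have h2 : ((k.natAbs : ℕ) : ℝ) ≤ Real.sqrt L / 4 := by
      rw [Nat.cast_natAbs, Int.cast_abs]
      exact h1
    have h3 : k.natAbs ≤ k₀ := by rw [hk₀]; exact Nat.le_floor h2
    rw [Int.abs_eq_natAbs]
    exact_mod_cast h3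
  obtain ⟨𝒮, h𝒮⟩ : ∃ 𝒮 : Finset (ℤ × ℤ), 𝒮 = (((Finset.Icc (-(k₀ : ℤ)) k₀).image
      (fun k : ℤ => (k, 1 - k ^ 2))) ∪ ((Finset.Icc (-(k₀ : ℤ)) k₀).image
      (fun k : ℤ => (k, -1 - k ^ 2)))).filter (fun s => ¬ IsSquare (-s.2)) := ⟨_, rfl⟩
  have h𝒮m : ∀ s : ℤ × ℤ, s ∈ 𝒮 → |s.1| ≤ (k₀ : ℤ) ∧ |s.2| ≤ s.1 ^ 2 + 1 ∧ ¬ IsSquare (-s.2) := by
    intro s hs
    rw [h𝒮, Finset.mem_filter, Finset.mem_union, Finset.mem_image, Finset.mem_image] at hs
    obtain ⟨hs1, hs2⟩ := hs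
    rcases hs1 with ⟨k, hk, rfl⟩ | ⟨k, hk, rfl⟩
    · rw [Finset.mem_Icc] at hk
      refine ⟨abs_le.2 hk, ?_, hs2⟩
      show |1 - k ^ 2| ≤ k ^ 2 + 1
      have := sq_nonneg k
      rw [abs_le]
      constructor <;> linarith
    · rw [Finset.mem_Icc] at hk
      refine ⟨abs_le.2 hk, ?_, hs2⟩
      show |-1 - k ^ 2| ≤ k ^ 2 + 1
      have := sq_nonneg k
      rw [abs_le]
      constructor <;> linarith
  have h𝒮r : ∀ s : ℤ × ℤ, s ∈ 𝒮 → |(s.1 : ℝ)| ≤ Real.sqrt L / 4 ∧ |(s.2 : ℝ)| ≤ L := by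
    intro s hs
    obtain ⟨h1, h2, -⟩ := h𝒮m s hs
    have h3 : |(s.1 : ℝ)| ≤ k₀ := by exact_mod_cast h1
    have h4 : |(s.1 : ℝ)| ≤ Real.sqrt L / 4 := h3.trans hk₀le
    refine ⟨h4, ?_⟩
    have h5 : |(s.2 : ℝ)| ≤ (s.1 : ℝ) ^ 2 + 1 := by exact_mod_cast h2
    have h6 : (s.1 : ℝ) ^ 2 ≤ L / 16 := by
      rw [← sq_abs]
      calc |(s.1 : ℝ)| ^ 2 ≤ (Real.sqrt L / 4) ^ 2 := pow_le_pow_left₀ (abs_nonneg _) h4 2
        _ = L / 16 := by rw [div_pow, hsqL]; norm_num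
    linarith
  have hcard : (𝒮.card : ℝ) ≤ 2 * Real.sqrt L := by
    have h1 : 𝒮.card ≤ 2 * (2 * k₀ + 1) := by
      rw [h𝒮]
      refine (Finset.card_filter_le _ _).trans ((Finset.card_union_le _ _).trans ?_)
      have h2 : ∀ f : ℤ → ℤ × ℤ, ((Finset.Icc (-(k₀ : ℤ)) k₀).image f).card ≤ 2 * k₀ + 1 := by
        intro f
        refine Finset.card_image_le.trans ?_
        rw [Int.card_Icc]
        omega
      have h3 := h2 (fun k : ℤ => (k, 1 - k ^ 2))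
      have h4 := h2 (fun k : ℤ => (k, -1 - k ^ 2))
      omega
    have h2 : (𝒮.card : ℝ) ≤ 2 * (2 * k₀ + 1) := by exact_mod_cast h1
    linarith
  have hcost : ∑ s ∈ 𝒮, Real.exp ((fun s : ℤ × ℤ => βh s.2) s) ≤ c₀ * L' := by
    have h1 : ∀ s ∈ 𝒮, Real.exp ((fun s : ℤ × ℤ => βh s.2) s) ≤ Real.exp (C₁ + l / 10) := by
      intro s _
      apply Real.exp_le_exp.mpr
      have := (hβ1 s.2).2
      show βh s.2 ≤ C₁ + l / 10
      linarith
    refine (Finset.sum_le_sum h1).trans ?_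
    rw [Finset.sum_const, nsmul_eq_mul]
    refine le_trans ?_ f4
    have h2 : Real.sqrt L = Real.exp (l / 2) := by
      rw [Real.sqrt_eq_rpow, Real.rpow_def_of_pos hL0, ← hl]
      congr 1
      ring
    calc (𝒮.card : ℝ) * Real.exp (C₁ + l / 10) ≤ 2 * Real.sqrt L * Real.exp (C₁ + l / 10) :=
          mul_le_mul_of_nonneg_right hcard (Real.exp_pos _).le
      _ = 2 * Real.exp (C₁ + 3 / 5 * l) := by
          rw [h2, mul_assoc, ← Real.exp_add]
          congr 2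
          ring
      _ ≤ 4 * Real.exp (C₁ + 3 / 5 * l) := by
          have := Real.exp_pos (C₁ + 3 / 5 * l)
          linarith
  -- the interval
  obtain ⟨y, hy⟩ : ∃ y, y = 3 / 5 * L := ⟨_, rfl⟩
  have hy0 : 0 ≤ y := by rw [hy]; positivity
  obtain ⟨M', hM'⟩ : ∃ M' : ℤ, M' = M + ⌊Y⌋ := ⟨_, rfl⟩
  have hfl1 : Y - 1 < (⌊Y⌋ : ℝ) := Int.sub_one_lt_floor _
  have hfl2 : (⌊Y⌋ : ℝ) ≤ Y := Int.floor_le _
  have hMM : M ≤ M' := by
    rw [hM']
    have : (0:ℤ) ≤ ⌊Y⌋ := Int.floor_nonneg.mpr hY0.le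
    linarith
  have hWle : (WW y : ℝ) ≤ Real.exp (21 / 25 * L) := by rw [hy]; exact WW_le' hL0.le
  have hWR : (0:ℝ) < WW y := by exact_mod_cast WW_pos y
  obtain ⟨x, hx1, hx2, hx3, hx4⟩ := hcovL 𝒮 (fun s => βh s.2)
    (by
      intro s hs
      obtain ⟨h1, h2⟩ := h𝒮r s hs
      refine ⟨?_, ?_, (h𝒮m s hs).2.2⟩
      · rw [pow_one]
        refine h1.trans ?_
        rw [hL']
        have h3 : Real.sqrt L * 100 ≤ L := by nlinarith
        linarith
      · refine h2.trans ?_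
        rw [hL']
        nlinarith)
    (by
      intro s hs
      obtain ⟨h1, h2⟩ := h𝒮r s hs
      obtain ⟨g1, g2⟩ := hβ1 s.2
      refine ⟨g1, ?_, ?_⟩
      · show βh s.2 ≤ C₁ + Real.log L' / 10
        linarith
      · intro w hw
        apply hβ2 s.2 _ (h𝒮m s hs).2.2 _ _ _ hw
        · have h3 : |(s.2 : ℝ)| ≤ A := h2.trans hAL
          exact_mod_cast h3
        · calc (A : ℝ) ^ 2 ≤ (L' ^ 2) ^ 2 := by
                apply pow_le_pow_left₀ hA0.le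
                rw [hL']
                nlinarith
            _ = L' ^ 4 := by ring
            _ ≤ L' ^ (4 * 1 + 5) := pow_le_pow_right₀ (by linarith) (by omega))
    hcost M M' (WW y) 0 hMM (WW_pos y)
    (by
      intro p hp hpL
      apply PR_not_dvd hy0 hp
      have h1 : L' ^ 2 ≤ L' ^ (4 * 1 + 5) := pow_le_pow_right₀ (by linarith) (by omega)
      have h2 : y ≤ L' ^ 2 := by
        rw [hy, hL']
        nlinarith
      linarith)
    (by
      rw [le_div_iff₀ hWR, hM']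
      push_cast
      rw [hYexp] at hfl1
      rw [hYexp]
      have h1 : Real.exp (1 / 2 * L') * (WW y : ℝ) ≤ Real.exp (1 / 2 * L') * Real.exp (21 / 25 * L) :=
        mul_le_mul_of_nonneg_left hWle (Real.exp_pos _).le
      have h2 : Real.exp (1 / 2 * L') * Real.exp (21 / 25 * L) = Real.exp (89 / 100 * L) := by
        rw [← Real.exp_add, hL']
        congr 1
        ring
      have h3 : Real.exp L = Real.exp (89 / 100 * L) * Real.exp (11 / 100 * L) := by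
        rw [← Real.exp_add]
        congr 1
        ring
      have h4 := Real.add_one_le_exp (11 / 100 * L)
      have h5 : 1 ≤ Real.exp (89 / 100 * L) := Real.one_le_exp (by positivity)
      have h6 : Real.exp (89 / 100 * L) + 1 ≤ Real.exp L := by
        rw [h3]
        nlinarith
      linarith)
  have hYr : Y ^ (1 / 10 : ℝ) = Real.exp (L / 10) := by
    rw [hYexp, ← Real.exp_mul]
    congr 1
    ring
  refine ⟨x, hx1, ?_, ?_⟩
  · have : (x : ℝ) ≤ M' := by exact_mod_cast hx2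
    rw [hM'] at this
    push_cast at this
    linarith
  · intro k a hk ha hsq
    rw [hYr]
    have hkabs := hkk k hk
    rw [sub_zero] at hx3
    by_cases hbig : 2 ≤ |k ^ 2 + a|
    · -- a small prime factor of `k² + a`
      obtain ⟨p, hp, hpd⟩ := Nat.exists_prime_and_dvd (n := (k ^ 2 + a).natAbs) (by
        rw [Int.abs_eq_natAbs] at hbig
        omega)
      have hpd' : (p : ℤ) ∣ k ^ 2 + a := Int.natCast_dvd.2 hpd
      have hple : (p : ℝ) ≤ y := by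
        have h1 : p ≤ (k ^ 2 + a).natAbs := Nat.le_of_dvd (by
          rw [Int.abs_eq_natAbs] at hbig
          omega) hpd
        have h2 : (p : ℝ) ≤ |(k : ℝ) ^ 2 + a| := by
          have h3 : (p : ℤ) ≤ |k ^ 2 + a| := by
            rw [Int.abs_eq_natAbs]
            exact_mod_cast h1
          exact_mod_cast h3
        have h4 : |(k : ℝ) ^ 2 + a| ≤ (k : ℝ) ^ 2 + |(a : ℝ)| := by
          refine (abs_add_le _ _).trans ?_
          rw [abs_of_nonneg (sq_nonneg _)]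
        rw [hy]
        linarith
      have hpW : (p : ℤ) ∣ (WW y : ℤ) := by
        have : p ∈ PR y := by
          unfold PR
          rw [Finset.mem_filter, Finset.mem_Icc]
          exact ⟨⟨hp.one_le, (Nat.le_floor_iff hy0).2 hple⟩, hp⟩
        exact_mod_cast Finset.dvd_prod_of_mem _ this
      refine ⟨p, hp, ?_, ?_⟩
      · have h5 : L + 1 ≤ Real.exp (L / 10) := by
          have h6 := Real.quadratic_le_exp_of_nonneg (x := L / 10) (by positivity)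
          nlinarith
        rw [hy] at hple
        linarith
      · have h7 : (p : ℤ) ∣ x := hpW.trans hx3
        have e : (x + k) ^ 2 + a = x * (x + 2 * k) + (k ^ 2 + a) := by ring
        rw [e]
        exact dvd_add (h7.mul_right _) hpd'
    · -- the colours
      push Not at hbig
      have h1 : k ^ 2 + a = 0 ∨ k ^ 2 + a = 1 ∨ k ^ 2 + a = -1 := by
        have h2 := abs_lt.1 hbig
        omega
      rcases h1 with h1 | h1 | h1
      · exfalso
        apply hsq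
        exact ⟨k, by linear_combination -h1⟩
      · have hmem : (k, a) ∈ 𝒮 := by
          rw [h𝒮, Finset.mem_filter, Finset.mem_union]
          refine ⟨Or.inl ?_, hsq⟩
          rw [Finset.mem_image]
          refine ⟨k, Finset.mem_Icc.2 (abs_le.1 hkabs), ?_⟩
          rw [Prod.mk.injEq]
          exact ⟨rfl, by linarith⟩
        obtain ⟨p, p1, p2, p3, p4⟩ := hx4 _ hmem
        refine ⟨p, p1, ?_, p4⟩
        refine p3.trans (Real.exp_le_exp.mpr ?_)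
        rw [hL']
        linarith
      · have hmem : (k, a) ∈ 𝒮 := by
          rw [h𝒮, Finset.mem_filter, Finset.mem_union]
          refine ⟨Or.inr ?_, hsq⟩
          rw [Finset.mem_image]
          refine ⟨k, Finset.mem_Icc.2 (abs_le.1 hkabs), ?_⟩
          rw [Prod.mk.injEq]
          exact ⟨rfl, by linarith⟩
        obtain ⟨p, p1, p2, p3, p4⟩ := hx4 _ hmem
        refine ⟨p, p1, ?_, p4⟩
        refine p3.trans (Real.exp_le_exp.mpr ?_)
        rw [hL']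
        linarith

end Pool.Agent.N201.SQ
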