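import Pool.Agent.N201.SQ.Mix
import Pool.Agent.H378R2.QG.Defs
import Pool.Agent.H398R2.RK.Surv2
import Pool.Agent.H944R2.QG.QR1
import Pool.Agent.Erdos456.Mertens

set_option autoImplicit false
set_option exponentiation.threshold 600

/-! # Survivors near several squares (the argument follows `Pool.Agent.H74R2.QG.QRaux`, helper74) -/

namespace Pool.Agent.N201.SQ

open Finset Filter
open Pool.Agent.H378R2.QG (cl w0)

lemma ev_sv : ∃ t₀ : ℝ, ∀ t : ℝ, t₀ ≤ t → 512 * Real.log t ≤ 10 * t := by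
  have h := (Real.isLittleO_log_id_atTop).def (show (0:ℝ) < 10 / 512 by norm_num)
  obtain ⟨t₀, ht₀⟩ := eventually_atTop.1 (h.and (eventually_ge_atTop (1:ℝ)))
  refine ⟨t₀, fun t ht => ?_⟩
  obtain ⟨h1, h2⟩ := ht₀ t ht
  simp only [id, Real.norm_eq_abs] at h1
  rw [abs_of_nonneg (Real.log_nonneg h2), abs_of_nonneg (by linarith)] at h1
  linarith

open Classical in
/-- the count for one sign and one shift -/
theorem one_sign' (s : ℤ) (hs : s = 1 ∨ s = -1) :
    ∃ C : ℝ, 0 < C ∧ ∃ y₀ : ℝ, ∀ y : ℝ, y₀ ≤ y → ∀ R : ℕ, y ≤ R →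
    (R : ℝ) ≤ y * (Real.log y) ^ 2 → ∀ τ : ℕ, 0 < τ →
    (((Finset.Icc 1 R).filter (fun k : ℕ => ∀ p : ℕ, p.Prime → (p : ℝ) ≤ y →
        ¬ ((p : ℤ) ∣ (cl y p : ℤ) * τ + s * k))).card : ℝ) ≤
      C * ((τ : ℝ) / τ.totient) * (R * (Real.log (Real.log y)) ^ 2 /
        ((Real.log y) ^ 2 * Real.log (Real.log (Real.log y)))) := by
  obtain ⟨C₁, hC₁, N₀, hSM⟩ := mix
  obtain ⟨C₂, hC₂, hSR⟩ := Pool.Agent.H378R2.QG.sum_ratio
  obtain ⟨y₁, hsm⟩ := Pool.Agent.H398R2.RK.smooth_count
  obtain ⟨t₀, hev⟩ := Pool.Agent.H398R2.RK.ev_surv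
  obtain ⟨t₁, hev1⟩ := ev_sv
  refine ⟨40 * C₁ * C₂ + 1, by positivity,
    max (max y₁ N₀) (Real.exp (Real.exp (max t₀ t₁))), fun y hy R hyR hRy τ hτ => ?_⟩
  have hsm' := hsm y (((le_max_left _ _).trans (le_max_left _ _)).trans hy) R hyR
  have hyN : (N₀ : ℝ) ≤ y := ((le_max_right _ _).trans (le_max_left _ _)).trans hy
  have hy' := (le_max_right _ _).trans hy
  have hy0 : 0 < y := (Real.exp_pos _).trans_le hy'
  have hL1' : Real.exp (max t₀ t₁) ≤ Real.log y := by
    rw [← Real.log_exp (Real.exp (max t₀ t₁))]; exact Real.log_le_log (Real.exp_pos _) hy'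
  have hly : 0 < Real.log y := (Real.exp_pos _).trans_le hL1'
  set t := Real.log (Real.log y) with ht
  have httm : max t₀ t₁ ≤ t := by
    rw [← Real.log_exp (max t₀ t₁)]; exact Real.log_le_log (Real.exp_pos _) hL1'
  have htt : t₀ ≤ t := (le_max_left _ _).trans httm
  obtain ⟨h1, h2, h3, h4, h5, h6⟩ := hev t htt
  have h512 := hev1 t ((le_max_right _ _).trans httm)
  have hLe : Real.log y = Real.exp t := by rw [ht, Real.exp_log hly]
  have hye : y = Real.exp (Real.exp t) := by rw [← hLe, Real.exp_log hy0]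
  have hw0 : w0 y = Real.exp (Real.log y * Real.log t / (10 * t)) := rfl
  set V0 := Real.log y * Real.log t / (10 * t) with hV0
  have ht0 : 0 < t := by linarith
  have hlt0 : 0 < Real.log t := by linarith
  have hV1 : 2 * t ≤ V0 := by
    rw [hV0, le_div_iff₀ (by positivity), hLe]
    nlinarith [Real.exp_pos t]
  have hV512 : 512 * V0 ≤ Real.log y := by
    have e : 512 * V0 = Real.log y * (512 * Real.log t) / (10 * t) := by rw [hV0]; ring
    rw [e, div_le_iff₀ (by positivity)]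
    exact mul_le_mul_of_nonneg_left h512 hly.le
  have hV0pos : 0 < V0 := by linarith
  have hV16 : V0 ≤ Real.log y / 16 := by linarith
  -- the sieving level
  set w : ℕ := ⌊w0 y⌋₊ with hw
  have hwle : (w : ℝ) ≤ Real.exp V0 := by rw [hw, hw0]; exact Nat.floor_le (Real.exp_pos _).le
  have hw2 : 2 ≤ w := by
    rw [hw, hw0, Nat.le_floor_iff (Real.exp_pos _).le]
    have := Real.add_one_le_exp V0
    push_cast; linarith
  have hw0' : (0 : ℝ) < w := by exact_mod_cast (by omega : 0 < w)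
  have hlw : V0 / 2 ≤ Real.log w := by
    have h7 : Real.exp V0 < w + 1 := by rw [hw, hw0]; exact Nat.lt_floor_add_one _
    have h8 : (2 : ℝ) ≤ w := by exact_mod_cast hw2
    have h9 : Real.exp V0 ≤ (w : ℝ) ^ 2 := by nlinarith
    have h10 := Real.log_le_log (Real.exp_pos _) h9
    rw [Real.log_exp, Real.log_pow] at h10
    push_cast at h10; linarith
  have hw512 : (w : ℝ) ^ 512 ≤ y := by
    calc (w : ℝ) ^ 512 ≤ (Real.exp V0) ^ 512 := pow_le_pow_left₀ hw0'.le hwle 512
      _ = Real.exp (512 * V0) := by rw [← Real.exp_nat_mul]; norm_num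
      _ ≤ Real.exp (Real.log y) := Real.exp_le_exp.2 hV512
      _ = y := Real.exp_log hy0
  have hlw0 : 0 < Real.log w := by linarith
  have hR0 : (0 : ℝ) < R := by linarith
  have hτt : (0 : ℝ) < τ.totient := by exact_mod_cast Nat.totient_pos.2 hτ
  obtain ⟨G, hG⟩ : ∃ G, G = (τ : ℝ) / τ.totient := ⟨_, rfl⟩
  have hG1 : 1 ≤ G := by
    rw [hG, one_le_div hτt]
    exact_mod_cast Nat.totient_le τ
  rw [← hG]
  -- the cofactors
  set M : ℕ := ⌊(Real.log y) ^ 2⌋₊ with hM
  have hMle : (M : ℝ) ≤ (Real.log y) ^ 2 := Nat.floor_le (by positivity)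
  have hM2 : 2 ≤ M := by
    rw [hM, Nat.le_floor_iff (by positivity), hLe]
    push_cast; nlinarith
  have hM0 : (0 : ℝ) < M := by exact_mod_cast (by omega : 0 < M)
  have hlM : Real.log M ≤ 2 * t := by
    have := Real.log_le_log hM0 hMle
    rw [Real.log_pow, ← ht] at this
    push_cast at this; exact this
  -- the classes
  have hcls : ∀ p : ℕ, (p : ℝ) ≤ w0 y → cl y p = 1 := fun p hp => by unfold cl; rw [if_pos hp]
  have hcll : ∀ p : ℕ, ¬ (p : ℝ) ≤ w0 y → cl y p = 0 := fun p hp => by unfold cl; rw [if_neg hp]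
  have hw0y : w0 y ≤ y := by
    rw [hw0]
    calc Real.exp V0 ≤ Real.exp (Real.log y) := by apply Real.exp_le_exp.2; linarith
      _ = y := Real.exp_log hy0
  have hss : s * s = 1 := by rcases hs with rfl | rfl <;> norm_num
  -- the set for one cofactor
  set T : ℕ → Finset ℕ := fun m => (Finset.Icc 1 (R / m)).filter (fun q : ℕ => (q.Prime ∧
      ∀ p : ℕ, p.Prime → p ≤ w → ¬ ((p : ℤ) ∣ (m : ℤ) * (q : ℤ) + s * τ)) ∧ y < q) with hT
  have hsub : (Finset.Icc 1 R).filter (fun k : ℕ => ∀ p : ℕ, p.Prime → (p : ℝ) ≤ y →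
        ¬ ((p : ℤ) ∣ (cl y p : ℤ) * τ + s * k)) ⊆
      ((Finset.Icc 1 R).filter (fun m => ∀ p : ℕ, p.Prime → p ∣ m → Real.log p ≤ V0)) ∪
      (Finset.Icc 1 M).biUnion (fun m => (T m).image (fun q => m * q)) := by
    intro k hk
    rw [mem_filter, mem_Icc] at hk
    obtain ⟨⟨hk1, hkR⟩, hk2⟩ := hk
    rw [mem_union]
    by_cases hall : ∀ p : ℕ, p.Prime → p ∣ k → Real.log p ≤ V0
    · left
      rw [mem_filter, mem_Icc]
      exact ⟨⟨hk1, hkR⟩, hall⟩
    · right
      push Not at hall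
      obtain ⟨q, hq, hd, hlq⟩ := hall
      have hq0 : (0 : ℝ) < q := by exact_mod_cast hq.pos
      have hqw : ¬ (q : ℝ) ≤ w0 y := by
        rw [hw0, ← Real.log_le_iff_le_exp hq0]; exact not_le.2 hlq
      have hqy : y < q := by
        by_contra hcon
        push Not at hcon
        have := hk2 q hq hcon
        rw [hcll q hqw] at this
        apply this
        have h7 : (q : ℤ) ∣ (k : ℤ) := by exact_mod_cast hd
        simpa using h7.mul_left s
      obtain ⟨m, rfl⟩ := hd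
      have hm1 : 1 ≤ m := by
        rcases Nat.eq_zero_or_pos m with rfl | h
        · simp at hk1
        · exact h
      have hm0 : (0 : ℝ) < m := by exact_mod_cast hm1
      have hmM : m ≤ M := by
        rw [hM, Nat.le_floor_iff (by positivity)]
        have h7 : (q : ℝ) * m ≤ R := by exact_mod_cast hkR
        have h8 : y * m ≤ y * (Real.log y) ^ 2 := by
          calc y * m ≤ q * m := by gcongr
            _ ≤ R := h7
            _ ≤ _ := hRy
        exact le_of_mul_le_mul_left h8 hy0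
      rw [mem_biUnion]
      refine ⟨m, mem_Icc.2 ⟨hm1, hmM⟩, ?_⟩
      rw [mem_image]
      refine ⟨q, ?_, mul_comm _ _⟩
      rw [hT]
      simp only
      rw [mem_filter, mem_Icc]
      refine ⟨⟨hq.pos, ?_⟩, ⟨hq, fun p hp hpw hdvd => ?_⟩, hqy⟩
      · rw [Nat.le_div_iff_mul_le hm1]; exact hkR
      · have hpw0 : (p : ℝ) ≤ w0 y := by
          have : (p : ℝ) ≤ w := by exact_mod_cast hpw
          rw [hw0]; exact this.trans hwle
        have := hk2 p hp (hpw0.trans hw0y)
        rw [hcls p hpw0] at this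
        apply this
        have e : ((1 : ℕ) : ℤ) * τ + s * ((q * m : ℕ) : ℤ) = s * ((m : ℤ) * q + s * τ) := by
          push_cast
          linear_combination (-(τ : ℤ)) * hss
        rw [e]
        exact hdvd.mul_left s
  -- the count for one cofactor
  have hTm : ∀ m ∈ Finset.Icc 1 M, ((T m).card : ℝ) ≤
      C₁ * G * R / (Real.log y * (V0 / 2)) * (((m : ℝ) / (Nat.totient m : ℝ)) ^ 2 / m) := by
    intro m hm
    rw [mem_Icc] at hm
    have hm0 : (0 : ℝ) < m := by exact_mod_cast hm.1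
    have hmt : (0 : ℝ) < m.totient := by exact_mod_cast Nat.totient_pos.2 hm.1
    have hrhs0 : 0 ≤ C₁ * G * R / (Real.log y * (V0 / 2)) *
        (((m : ℝ) / (Nat.totient m : ℝ)) ^ 2 / m) := by
      positivity
    rcases (T m).eq_empty_or_nonempty with he | ⟨q, hq⟩
    · rw [he]; simpa using hrhs0
    · have hNy : y < ((R / m : ℕ) : ℝ) := by
        rw [hT] at hq
        simp only at hq
        rw [mem_filter, mem_Icc] at hq
        have h7 : (q : ℝ) ≤ ((R / m : ℕ) : ℝ) := by exact_mod_cast hq.1.2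
        linarith [hq.2.2]
      have hN0 : (0 : ℝ) < ((R / m : ℕ) : ℝ) := hy0.trans hNy
      have hlN : Real.log y ≤ Real.log ((R / m : ℕ) : ℝ) := Real.log_le_log hy0 hNy.le
      have hwN : w ^ 512 ≤ R / m := by
        have : ((w ^ 512 : ℕ) : ℝ) ≤ ((R / m : ℕ) : ℝ) := by
          push_cast
          push_cast at hNy
          linarith
        exact_mod_cast this
      have hNN : N₀ ≤ R / m := by
        have : (N₀ : ℝ) ≤ ((R / m : ℕ) : ℝ) := by linarith
        exact_mod_cast this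
      have h8 := hSM m τ (R / m) w (s * τ) (by
          rcases hs with rfl | rfl
          · simp
          · simp) hτ hm.1 hw2 hwN hNN (T m)
          (by rw [hT]; exact Finset.filter_subset _ _)
          (by
            intro q hq
            rw [hT] at hq
            simp only at hq
            rw [mem_filter] at hq
            exact hq.2.1)
      rw [← hG] at h8
      refine h8.trans ?_
      have h10 : ((R / m : ℕ) : ℝ) ≤ R / m := Nat.cast_div_le
      have h11 : (m : ℝ) / m.totient ≤ ((m : ℝ) / m.totient) ^ 2 := by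
        have h12 : 1 ≤ (m : ℝ) / m.totient := by
          rw [one_le_div hmt]
          exact_mod_cast Nat.totient_le m
        nlinarith
      calc C₁ * ((m : ℝ) / m.totient * G) * ((R / m : ℕ) : ℝ) /
            (Real.log ((R / m : ℕ) : ℝ) * Real.log w)
          ≤ C₁ * (((m : ℝ) / m.totient) ^ 2 * G) * (R / m) / (Real.log y * (V0 / 2)) := by
            gcongr
        _ = _ := by field_simp
  have hcard : (((Finset.Icc 1 R).filter (fun k : ℕ => ∀ p : ℕ, p.Prime → (p : ℝ) ≤ y →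
        ¬ ((p : ℤ) ∣ (cl y p : ℤ) * τ + s * k))).card : ℝ) ≤
      R / (Real.log y) ^ 3 + C₁ * G * R / (Real.log y * (V0 / 2)) * (C₂ * (2 * t)) := by
    calc (((Finset.Icc 1 R).filter (fun k : ℕ => ∀ p : ℕ, p.Prime → (p : ℝ) ≤ y →
        ¬ ((p : ℤ) ∣ (cl y p : ℤ) * τ + s * k))).card : ℝ)
        ≤ (((Finset.Icc 1 R).filter (fun m => ∀ p : ℕ, p.Prime → p ∣ m → Real.log p ≤ V0)).card : ℝ)
          + ((∑ m ∈ Finset.Icc 1 M, (T m).card : ℕ) : ℝ) := by
          rw [← Nat.cast_add]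
          apply Nat.cast_le.2
          refine (card_le_card hsub).trans ((card_union_le _ _).trans ?_)
          gcongr
          exact card_biUnion_le.trans (sum_le_sum fun m _ => card_image_le)
      _ ≤ R / (Real.log y) ^ 3 + ∑ m ∈ Finset.Icc 1 M, C₁ * G * R / (Real.log y * (V0 / 2)) *
            (((m : ℝ) / (Nat.totient m : ℝ)) ^ 2 / m) := by
          push_cast
          gcongr with m hm
          exact hTm m hm
      _ = R / (Real.log y) ^ 3 + C₁ * G * R / (Real.log y * (V0 / 2)) *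
            ∑ m ∈ Finset.Icc 1 M, (((m : ℝ) / (Nat.totient m : ℝ)) ^ 2 / m) := by rw [mul_sum]
      _ ≤ R / (Real.log y) ^ 3 + C₁ * G * R / (Real.log y * (V0 / 2)) * (C₂ * (2 * t)) := by
          gcongr
          exact (hSR M hM2).trans (by gcongr)
  refine hcard.trans ?_
  have e1 : C₁ * G * R / (Real.log y * (V0 / 2)) * (C₂ * (2 * t)) =
      40 * C₁ * C₂ * G * (R * t ^ 2 / ((Real.log y) ^ 2 * Real.log t)) := by
    rw [hV0]; field_simp; ring
  have e2 : (R : ℝ) / (Real.log y) ^ 3 ≤ R * t ^ 2 / ((Real.log y) ^ 2 * Real.log t) := by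
    rw [div_le_div_iff₀ (by positivity) (by positivity)]
    have h7 : Real.log t ≤ Real.log y * t ^ 2 := by
      rw [hLe]; nlinarith [sq_nonneg t]
    calc (R : ℝ) * ((Real.log y) ^ 2 * Real.log t) ≤ R * ((Real.log y) ^ 2 * (Real.log y * t ^ 2)) := by gcongr
      _ = R * t ^ 2 * (Real.log y) ^ 3 := by ring
  rw [e1]
  obtain ⟨Z, hZ⟩ : ∃ Z, Z = R * t ^ 2 / ((Real.log y) ^ 2 * Real.log t) := ⟨_, rfl⟩
  have hZ0 : 0 ≤ Z := by rw [hZ]; positivity
  rw [← hZ] at e2 ⊢
  have e3 : Z ≤ G * Z := le_mul_of_one_le_left hZ0 hG1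
  calc (R : ℝ) / (Real.log y) ^ 3 + 40 * C₁ * C₂ * G * Z ≤ G * Z + 40 * C₁ * C₂ * G * Z := by
        linarith
    _ = (40 * C₁ * C₂ + 1) * G * Z := by ring

/-- average of `(2k+1)/φ(2k+1)` -/
theorem ratio_avg : ∃ C : ℝ, 0 < C ∧ ∀ H : ℕ,
    ∑ k ∈ Finset.range H, (((2 * k + 1 : ℕ) : ℝ) / ((2 * k + 1).totient : ℝ)) ≤ C * H := by
  obtain ⟨C, hC⟩ := Pool.Agent.Erdos456.Mert.totRatio_moment
  refine ⟨2 * |C| + 1, by positivity, fun H => ?_⟩
  have h1 : ∑ k ∈ Finset.range H, (((2 * k + 1 : ℕ) : ℝ) / ((2 * k + 1).totient : ℝ)) ≤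
      ∑ k ∈ Finset.range H, (((2 * k + 1 : ℕ) : ℝ) / ((2 * k + 1).totient : ℝ)) ^ 6 := by
    apply Finset.sum_le_sum
    intro k _
    have ht : (0 : ℝ) < (2 * k + 1).totient := by exact_mod_cast Nat.totient_pos.2 (by omega)
    apply le_self_pow₀ _ (by norm_num)
    rw [one_le_div ht]
    exact_mod_cast Nat.totient_le _
  have h2 : ∑ k ∈ Finset.range H, (((2 * k + 1 : ℕ) : ℝ) / ((2 * k + 1).totient : ℝ)) ^ 6 =
      ∑ n ∈ (Finset.range H).image (fun k : ℕ => (2 * k + 1 : ℕ)), ((n : ℝ) / (Nat.totient n : ℝ)) ^ 6 := by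
    rw [Finset.sum_image]
    intro a _ b _ hab
    simp only at hab
    omega
  have h3 : ∑ n ∈ (Finset.range H).image (fun k : ℕ => (2 * k + 1 : ℕ)), ((n : ℝ) / (Nat.totient n : ℝ)) ^ 6 ≤
      ∑ n ∈ Finset.Icc 1 (2 * H), ((n : ℝ) / (Nat.totient n : ℝ)) ^ 6 := by
    apply Finset.sum_le_sum_of_subset_of_nonneg
    · intro n hn
      rw [Finset.mem_image] at hn
      obtain ⟨k, hk, rfl⟩ := hn
      rw [Finset.mem_range] at hk
      rw [Finset.mem_Icc]
      omega
    · intro n _ _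
      positivity
  have h4 := hC (2 * H)
  push_cast at h4
  have h5 : C * (2 * H) ≤ (2 * |C| + 1) * H := by
    have h6 := le_abs_self C
    have h7 : (0 : ℝ) ≤ H := Nat.cast_nonneg _
    nlinarith
  linarith

end Pool.Agent.N201.SQ
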