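import Pool.Agent.N201.SQ.Main2
import Pool.Agent.N201.SQ.Surv
import Pool.Agent.N201.SQ.Ana

set_option autoImplicit false

/-! # Neighbourhoods of record length of several consecutive squares -/

namespace Pool.Agent.N201.SQ

open Polynomial Finset Filter
open Pool.Agent.H378R2.QG (PZ Tc cl w0)
open Pool.Agent.H474R2.PG (rho eval_dvd_congr PR WW WW_eq WW_pos WW_le PR_prime PR_le PR_not_dvd)
open Pool.Agent.Helper919 (XX)
open Pool.Agent.H256R2.SC (ff)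
open Pool.Agent.N201.SQ.An (ana exists_crt)

lemma cl_sq (y : ℝ) (p : ℕ) : (cl y p : ℤ) ^ 2 = cl y p := by
  unfold cl
  split_ifs <;> norm_num

open Classical in
/-- the survivors for the shift `k` -/
theorem surv_k : ∃ C : ℝ, 0 < C ∧ ∃ y₀ : ℝ, ∀ y : ℝ, y₀ ≤ y → ∀ R : ℕ, y ≤ R →
    (R : ℝ) ≤ y * (Real.log y) ^ 2 → ∀ A k : ℕ, A + k ^ 2 ≤ R →
    (((Finset.Icc (-(A : ℤ)) A).filter (fun h => ¬ IsSquare (-h) ∧ ∀ p : ℕ, p.Prime → (p : ℝ) ≤ y →
        ¬ ((p : ℤ) ∣ ((cl y p : ℤ) + k) ^ 2 + h))).card : ℝ) ≤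
      C * (((2 * k + 1 : ℕ) : ℝ) / (2 * k + 1).totient) * (R * (Real.log (Real.log y)) ^ 2 /
        ((Real.log y) ^ 2 * Real.log (Real.log (Real.log y)))) := by
  obtain ⟨Ca, hCa, ya, ha⟩ := one_sign' 1 (Or.inl rfl)
  obtain ⟨Cb, hCb, yb, hb⟩ := one_sign' (-1) (Or.inr rfl)
  refine ⟨Ca + Cb, by positivity, max ya yb, fun y hy R hyR hRy A k hAk => ?_⟩
  have h1 := ha y ((le_max_left _ _).trans hy) R hyR hRy (2 * k + 1) (by omega)
  have h2 := hb y ((le_max_right _ _).trans hy) R hyR hRy (2 * k + 1) (by omega)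
  obtain ⟨S1, hS1⟩ : ∃ S1, S1 = (Finset.Icc 1 R).filter (fun j : ℕ => ∀ p : ℕ, p.Prime → (p : ℝ) ≤ y →
        ¬ ((p : ℤ) ∣ (cl y p : ℤ) * ((2 * k + 1 : ℕ) : ℤ) + 1 * j)) := ⟨_, rfl⟩
  obtain ⟨S2, hS2⟩ : ∃ S2, S2 = (Finset.Icc 1 R).filter (fun j : ℕ => ∀ p : ℕ, p.Prime → (p : ℝ) ≤ y →
        ¬ ((p : ℤ) ∣ (cl y p : ℤ) * ((2 * k + 1 : ℕ) : ℤ) + (-1) * j)) := ⟨_, rfl⟩
  rw [← hS1] at h1
  rw [← hS2] at h2
  have hsub : (Finset.Icc (-(A : ℤ)) A).filter (fun h => ¬ IsSquare (-h) ∧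
        ∀ p : ℕ, p.Prime → (p : ℝ) ≤ y → ¬ ((p : ℤ) ∣ ((cl y p : ℤ) + k) ^ 2 + h)) ⊆
      S1.image (fun j : ℕ => (j : ℤ) - (k : ℤ) ^ 2) ∪ S2.image (fun j : ℕ => -(j : ℤ) - (k : ℤ) ^ 2) := by
    intro h hh
    rw [mem_filter, mem_Icc] at hh
    obtain ⟨⟨hl, hr⟩, hsq, hp⟩ := hh
    have hAk' : (A : ℤ) + (k : ℤ) ^ 2 ≤ R := by exact_mod_cast hAk
    have hk0 : 0 ≤ (k : ℤ) ^ 2 := sq_nonneg _
    have hkey : ∀ p : ℕ, ((cl y p : ℤ) + k) ^ 2 + h =
        (cl y p : ℤ) * ((2 * k + 1 : ℕ) : ℤ) + (h + (k : ℤ) ^ 2) := by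
      intro p
      have := cl_sq y p
      push_cast
      linear_combination this
    have hne : h + (k : ℤ) ^ 2 ≠ 0 := by
      intro h0
      apply hsq
      exact ⟨k, by linear_combination -h0⟩
    rw [mem_union, mem_image, mem_image]
    rcases lt_or_gt_of_ne hne with hneg | hpos
    · right
      refine ⟨(h + (k : ℤ) ^ 2).natAbs, ?_, by omega⟩
      rw [hS2, mem_filter, mem_Icc]
      refine ⟨⟨by omega, by omega⟩, fun p hpp hpy => ?_⟩
      have e : (-1 : ℤ) * (((h + (k : ℤ) ^ 2).natAbs : ℕ) : ℤ) = h + (k : ℤ) ^ 2 := by omega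
      rw [e, ← hkey]
      exact hp p hpp hpy
    · left
      refine ⟨(h + (k : ℤ) ^ 2).natAbs, ?_, by omega⟩
      rw [hS1, mem_filter, mem_Icc]
      refine ⟨⟨by omega, by omega⟩, fun p hpp hpy => ?_⟩
      have e : (1 : ℤ) * (((h + (k : ℤ) ^ 2).natAbs : ℕ) : ℤ) = h + (k : ℤ) ^ 2 := by omega
      rw [e, ← hkey]
      exact hp p hpp hpy
  have h3 : (((Finset.Icc (-(A : ℤ)) A).filter (fun h => ¬ IsSquare (-h) ∧
        ∀ p : ℕ, p.Prime → (p : ℝ) ≤ y → ¬ ((p : ℤ) ∣ ((cl y p : ℤ) + k) ^ 2 + h))).card : ℝ) ≤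
      (S1.card : ℝ) + (S2.card : ℝ) := by
    rw [← Nat.cast_add]
    apply Nat.cast_le.2
    exact (card_le_card hsub).trans ((card_union_le _ _).trans
      (add_le_add card_image_le card_image_le))
  refine h3.trans ((add_le_add h1 h2).trans (le_of_eq ?_))
  ring

lemma ev_main3 (ε : ℝ) (hε : 0 < ε) : ∃ y₀ : ℝ, ∀ y : ℝ, y₀ ≤ y → 1000 ≤ y ∧
    (Real.log y) ^ 4 ≤ y ∧ y ^ (3 / 4 : ℝ) * (Real.log y) ^ 2 ≤ ε * y := by
  have h1 := (isLittleO_log_rpow_rpow_atTop (s := 1) 4 (by norm_num)).def one_pos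
  have h2 := (isLittleO_log_rpow_rpow_atTop (s := 1 / 4) 2 (by norm_num)).def hε
  obtain ⟨y₀, hy₀⟩ := eventually_atTop.1 (h1.and (h2.and (eventually_ge_atTop (1000:ℝ))))
  refine ⟨y₀, fun y hy => ?_⟩
  obtain ⟨e1, e2, e3⟩ := hy₀ y hy
  have hl0 : 0 ≤ Real.log y := Real.log_nonneg (by linarith)
  have hy0 : 0 < y := by linarith
  rw [Real.norm_eq_abs, Real.norm_eq_abs, abs_of_nonneg (Real.rpow_nonneg hl0 _),
    abs_of_nonneg (Real.rpow_nonneg (by linarith) _)] at e1 e2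
  have e4 : (Real.log y) ^ (4:ℝ) = (Real.log y) ^ 4 := by
    rw [← Real.rpow_natCast]; norm_num
  have e5 : (Real.log y) ^ (2:ℝ) = (Real.log y) ^ 2 := by
    rw [← Real.rpow_natCast]; norm_num
  rw [e4, Real.rpow_one, one_mul] at e1
  rw [e5] at e2
  refine ⟨e3, e1, ?_⟩
  calc y ^ (3 / 4 : ℝ) * (Real.log y) ^ 2 ≤ y ^ (3 / 4 : ℝ) * (ε * y ^ (1 / 4 : ℝ)) :=
        mul_le_mul_of_nonneg_left e2 (Real.rpow_nonneg hy0.le _)
    _ = ε * (y ^ (3 / 4 : ℝ) * y ^ (1 / 4 : ℝ)) := by ring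
    _ = ε * y := by
        rw [← Real.rpow_add hy0]
        norm_num

open Classical in
/-- **The neighbourhoods of record length.** -/
theorem part3 : ∃ c : ℝ, 0 < c ∧ ∃ Y₀ : ℝ, ∀ Y : ℝ, Y₀ ≤ Y → ∀ M : ℤ, Y ≤ M →
    ∀ A H : ℕ, 1 ≤ H → Real.log Y / 10 ≤ A → (A : ℝ) * H ≤ c * ff Y →
    (A : ℝ) ≤ (Real.log Y) ^ 2 ∧ ∃ x : ℤ, M < x ∧ (x : ℝ) ≤ M + Y ∧ ∀ k : ℕ, k < H → ∀ a : ℤ, |a| ≤ A → ¬ IsSquare (-a) →
      ∃ p : ℕ, p.Prime ∧ (p : ℝ) ≤ Y ^ (1 / 10 : ℝ) ∧ (p : ℤ) ∣ (x + k) ^ 2 + a := by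
  obtain ⟨C₁, hC₁, LT, hTL⟩ := T_low
  obtain ⟨c₀, hc₀, L₁, hcov⟩ := cov_sq 1 C₁ hC₁
  obtain ⟨Cs, hCs, y₀, hsv⟩ := surv_k
  obtain ⟨Cr, hCr, hra⟩ := ratio_avg
  obtain ⟨ε, hε⟩ : ∃ ε : ℝ, ε = 5 * c₀ / Real.exp C₁ := ⟨_, rfl⟩
  have hε0 : 0 < ε := by rw [hε]; positivity
  obtain ⟨y₁, hev⟩ := ev_main3 ε hε0
  obtain ⟨c, hc, X₂, hana⟩ := ana (c := c₀ / (2 * Real.exp C₁)) (C := 2 * Cs * Cr)
    (y₀ := max (max y₀ y₁) LT) (by positivity) (by positivity)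
  refine ⟨c, hc, max X₂ (Real.exp (max L₁ 1)), fun Y hY M hMY A H hH hA hAH => ?_⟩
  have hYe : Real.exp (max L₁ 1) ≤ Y := (le_max_right _ _).trans hY
  have hY0 : 0 < Y := lt_of_lt_of_le (Real.exp_pos _) hYe
  obtain ⟨L, hL⟩ : ∃ L, L = Real.log Y := ⟨_, rfl⟩
  have hLmax : max L₁ 1 ≤ L := by
    rw [hL, ← Real.log_exp (max L₁ 1)]
    exact Real.log_le_log (Real.exp_pos _) hYe
  have hYexp : Y = Real.exp L := by rw [hL]; exact (Real.exp_log hY0).symm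
  obtain ⟨R₀, hR₀⟩ : ∃ R₀ : ℕ, R₀ = ⌊c * ff Y⌋₊ := ⟨_, rfl⟩
  obtain ⟨y, hy⟩ : ∃ y : ℝ, y = Real.log Y / 10 := ⟨_, rfl⟩
  obtain ⟨a1, a2, a3, a4, a5, a6, a7, a8, a9, a10, a11, a12, a13, a14, a15, a16, a17⟩ :=
    hana Y ((le_max_left _ _).trans hY) y _ hy rfl R₀ hR₀
  have a3' : y₀ ≤ y := ((le_max_left _ _).trans (le_max_left _ _)).trans a3
  have a3'' : y₁ ≤ y := ((le_max_right _ _).trans (le_max_left _ _)).trans a3
  have a3''' : LT ≤ y := (le_max_right _ _).trans a3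
  obtain ⟨g1, g2, g3⟩ := hev y a3''
  rw [← hy] at hA
  rw [← hL] at hy a8 a9 a10
  have hcovL := hcov L ((le_max_left _ _).trans hLmax)
  have hL10 : L = 10 * y := by rw [hy]; ring
  have hL0 : 0 < L := by linarith
  obtain ⟨l, hl⟩ : ∃ l, l = Real.log L := ⟨_, rfl⟩
  rw [← hl] at hcovL
  have hy0 : 0 < y := by linarith
  have hly0 : 0 < Real.log y := Real.log_pos (by linarith)
  -- sizes
  have hAH' : A * H ≤ R₀ := by
    rw [hR₀]
    apply Nat.le_floor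
    push_cast
    exact hAH
  have hAHR : (A : ℝ) * H ≤ R₀ := by exact_mod_cast hAH'
  have hA0 : (0 : ℝ) < A := by linarith
  have hHR : (1 : ℝ) ≤ H := by exact_mod_cast hH
  have hHlog : (H : ℝ) ≤ (Real.log y) ^ 2 := by
    have h1 : y * H ≤ y * (Real.log y) ^ 2 := by
      calc y * H ≤ A * H := mul_le_mul_of_nonneg_right hA (Nat.cast_nonneg _)
        _ ≤ R₀ := hAHR
        _ ≤ _ := a7
    exact le_of_mul_le_mul_left h1 hy0
  have hHA : H ^ 2 ≤ A := by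
    have h1 : ((H ^ 2 : ℕ) : ℝ) ≤ A := by
      push_cast
      calc (H : ℝ) ^ 2 ≤ ((Real.log y) ^ 2) ^ 2 := pow_le_pow_left₀ (Nat.cast_nonneg _) hHlog 2
        _ = (Real.log y) ^ 4 := by ring
        _ ≤ y := g2
        _ ≤ A := hA
    exact_mod_cast h1
  obtain ⟨R, hR⟩ : ∃ R : ℕ, R = A + (H - 1) ^ 2 := ⟨_, rfl⟩
  have hRR₀ : R ≤ R₀ := by
    refine le_trans ?_ hAH'
    rw [hR]
    rcases Nat.lt_or_ge H 2 with h2 | h2
    · have : H = 1 := by omega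
      rw [this]
      simp
    · have h3 : (H - 1) ^ 2 ≤ H ^ 2 := Nat.pow_le_pow_left (by omega) 2
      nlinarith
  have hR2A : (R : ℝ) ≤ 2 * A := by
    have h3 : (H - 1) ^ 2 ≤ H ^ 2 := Nat.pow_le_pow_left (by omega) 2
    have h4 : R ≤ 2 * A := by omega
    exact_mod_cast h4
  have hRA : (A : ℝ) ≤ R := by
    have : A ≤ R := by rw [hR]; exact Nat.le_add_right _ _
    exact_mod_cast this
  have hRR₀' : (R : ℝ) ≤ R₀ := by exact_mod_cast hRR₀
  have hAR₀ : (A : ℝ) ≤ R₀ := hRA.trans hRR₀'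
  refine ⟨by rw [← hL]; exact hAR₀.trans a9, ?_⟩
  -- the costs
  obtain ⟨E, hE, hTD⟩ := hTL A (a3'''.trans hA)
  have hlA : 0 < Real.log A := Real.log_pos (by linarith)
  obtain ⟨βh, hβ⟩ : ∃ βh : ℤ → ℝ, βh = fun h => if -h ∈ E then C₁ + Real.log A / 20 else C₁ := ⟨_, rfl⟩
  have hβd : ∀ h, βh h = if -h ∈ E then C₁ + Real.log A / 20 else C₁ := fun h => by rw [hβ]
  -- the survivors
  obtain ⟨F, hF⟩ : ∃ F : ℤ → Finset ℤ, F = fun k => (Finset.Icc (-(A : ℤ)) A).filter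
      (fun h => ¬ IsSquare (-h) ∧ ∀ p : ℕ, p.Prime → (p : ℝ) ≤ y →
        ¬ ((p : ℤ) ∣ ((cl y p : ℤ) + k) ^ 2 + h)) := ⟨_, rfl⟩
  have hFm : ∀ k h, h ∈ F k ↔ |h| ≤ (A : ℤ) ∧ ¬ IsSquare (-h) ∧ ∀ p : ℕ, p.Prime → (p : ℝ) ≤ y →
        ¬ ((p : ℤ) ∣ ((cl y p : ℤ) + k) ^ 2 + h) := by
    intro k h
    rw [hF]
    simp only
    rw [Finset.mem_filter, Finset.mem_Icc, abs_le]
  obtain ⟨K, hK⟩ : ∃ K : Finset ℤ, K = (Finset.range H).image (fun k : ℕ => (k : ℤ)) := ⟨_, rfl⟩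
  have hKm : ∀ k ∈ K, ∃ j : ℕ, j < H ∧ k = (j : ℤ) := by
    intro k hk
    rw [hK, Finset.mem_image] at hk
    obtain ⟨j, hj, rfl⟩ := hk
    exact ⟨j, Finset.mem_range.1 hj, rfl⟩
  obtain ⟨Z, hZ⟩ : ∃ Z, Z = (Real.log (Real.log y)) ^ 2 /
        ((Real.log y) ^ 2 * Real.log (Real.log (Real.log y))) := ⟨_, rfl⟩
  have hSk : ∀ j < H, ((F (j : ℤ)).card : ℝ) ≤
      Cs * (((2 * j + 1 : ℕ) : ℝ) / (2 * j + 1).totient) * (R * Z) := by
    intro j hj
    have h1 := hsv y a3' R (hA.trans hRA) (hRR₀'.trans a7) A j (by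
      rw [hR]
      have : j ^ 2 ≤ (H - 1) ^ 2 := Nat.pow_le_pow_left (by omega) 2
      omega)
    rw [hF, hZ]
    simp only
    rw [mul_div_assoc] at h1
    refine le_trans (le_of_eq ?_) h1
    congr!
  have hcardK : ∑ k ∈ K, ((F k).card : ℝ) ≤ c₀ / (2 * Real.exp C₁) * L := by
    rw [hK, Finset.sum_image (by intro a _ b _ hab; simpa using hab)]
    have h1 : ∑ j ∈ Finset.range H, ((F (j : ℤ)).card : ℝ) ≤
        ∑ j ∈ Finset.range H, Cs * (((2 * j + 1 : ℕ) : ℝ) / (2 * j + 1).totient) * (R * Z) :=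
      Finset.sum_le_sum fun j hj => hSk j (Finset.mem_range.1 hj)
    refine h1.trans ?_
    have h2 : ∑ j ∈ Finset.range H, Cs * (((2 * j + 1 : ℕ) : ℝ) / (2 * j + 1).totient) * (R * Z) =
        Cs * (∑ j ∈ Finset.range H, (((2 * j + 1 : ℕ) : ℝ) / (2 * j + 1).totient)) * (R * Z) := by
      rw [← Finset.sum_mul, ← Finset.mul_sum]
    rw [h2]
    have hZ0 : 0 ≤ R * Z := by
      have h3 := hSk 0 (by omega)
      have h4 : (0 : ℝ) ≤ ((F ((0 : ℕ) : ℤ)).card : ℝ) := Nat.cast_nonneg _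
      have h5 : (0 : ℝ) < Cs * (((2 * 0 + 1 : ℕ) : ℝ) / (2 * 0 + 1).totient) := by
        simp
        exact hCs
      by_contra hcon
      push Not at hcon
      have h6 := mul_neg_of_pos_of_neg h5 hcon
      exact absurd (h4.trans h3) (not_le.2 h6)
    have hRpos : (0 : ℝ) < R := by linarith
    have hZ0' : 0 ≤ Z := by
      by_contra hcon
      push Not at hcon
      have h6 := mul_neg_of_pos_of_neg hRpos hcon
      linarith
    calc Cs * (∑ j ∈ Finset.range H, (((2 * j + 1 : ℕ) : ℝ) / (2 * j + 1).totient)) * (R * Z)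
        ≤ Cs * (Cr * H) * (R * Z) := by
          apply mul_le_mul_of_nonneg_right _ hZ0
          exact mul_le_mul_of_nonneg_left (hra H) hCs.le
      _ = Cs * Cr * (R * H) * Z := by ring
      _ ≤ Cs * Cr * (2 * R₀) * Z := by
          apply mul_le_mul_of_nonneg_right _ hZ0'
          apply mul_le_mul_of_nonneg_left _ (by positivity)
          calc (R : ℝ) * H ≤ (2 * A) * H := mul_le_mul_of_nonneg_right hR2A (Nat.cast_nonneg _)
            _ = 2 * (A * H) := by ring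
            _ ≤ 2 * R₀ := by linarith
      _ = 2 * Cs * Cr * R₀ * (Real.log (Real.log y)) ^ 2 /
            ((Real.log y) ^ 2 * Real.log (Real.log (Real.log y))) := by rw [hZ]; ring
      _ ≤ c₀ / (2 * Real.exp C₁) * L := a8
  have hcost : ∑ s ∈ pairs K F, Real.exp ((fun s : ℤ × ℤ => βh s.2) s) ≤ c₀ * L := by
    rw [sum_pairs]
    have h1 : ∀ k ∈ K, ∑ h ∈ F k, Real.exp ((fun s : ℤ × ℤ => βh s.2) (k, h)) ≤
        Real.exp C₁ * ((F k).card : ℝ) + Real.exp C₁ * (A : ℝ) ^ (3 / 4 : ℝ) := by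
      intro k _
      have h2 : ∀ h ∈ F k, Real.exp ((fun s : ℤ × ℤ => βh s.2) (k, h)) ≤
          Real.exp C₁ + if -h ∈ E then Real.exp C₁ * (A : ℝ) ^ (1 / 20 : ℝ) else 0 := by
        intro h _
        show Real.exp (βh h) ≤ _
        rw [hβd]
        split_ifs
        · have e4 : Real.exp (C₁ + Real.log A / 20) = Real.exp C₁ * (A : ℝ) ^ (1 / 20 : ℝ) := by
            rw [Real.rpow_def_of_pos hA0, ← Real.exp_add]
            congr 1
            ring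
          rw [e4]
          have := Real.exp_pos C₁
          linarith
        · rw [add_zero]
      refine (Finset.sum_le_sum h2).trans ?_
      rw [Finset.sum_add_distrib, Finset.sum_const, nsmul_eq_mul, ← Finset.sum_filter,
        Finset.sum_const, nsmul_eq_mul]
      have c1 : (((F k).filter (fun h => -h ∈ E)).card : ℝ) ≤ (E.card : ℝ) := by
        have : ((F k).filter (fun h => -h ∈ E)).card ≤ E.card := by
          apply Finset.card_le_card_of_injOn (fun h => -h)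
          · intro k hk
            rw [Finset.mem_coe, Finset.mem_filter] at hk
            exact hk.2
          · intro k _ k' _ hkk
            exact neg_injective hkk
        exact_mod_cast this
      have c2 : (((F k).filter (fun h => -h ∈ E)).card : ℝ) *
          (Real.exp C₁ * (A : ℝ) ^ (1 / 20 : ℝ)) ≤
          (A : ℝ) ^ (7 / 10 : ℝ) * (Real.exp C₁ * (A : ℝ) ^ (1 / 20 : ℝ)) :=
        mul_le_mul_of_nonneg_right (c1.trans hE) (by positivity)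
      have c3 : (A : ℝ) ^ (7 / 10 : ℝ) * (Real.exp C₁ * (A : ℝ) ^ (1 / 20 : ℝ)) =
          Real.exp C₁ * (A : ℝ) ^ (3 / 4 : ℝ) := by
        have : (A : ℝ) ^ (3 / 4 : ℝ) = (A : ℝ) ^ (7 / 10 : ℝ) * (A : ℝ) ^ (1 / 20 : ℝ) := by
          rw [← Real.rpow_add hA0]
          norm_num
        rw [this]
        ring
      rw [c3] at c2
      linarith
    refine (Finset.sum_le_sum h1).trans ?_
    rw [Finset.sum_add_distrib, ← Finset.mul_sum, Finset.sum_const, nsmul_eq_mul]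
    have hKc : (K.card : ℝ) = H := by
      rw [hK, Finset.card_image_of_injective _ (fun a b hab => by exact_mod_cast hab),
        Finset.card_range]
    rw [hKc]
    have d1 : Real.exp C₁ * ∑ k ∈ K, ((F k).card : ℝ) ≤ c₀ / 2 * L := by
      calc Real.exp C₁ * ∑ k ∈ K, ((F k).card : ℝ) ≤ Real.exp C₁ * (c₀ / (2 * Real.exp C₁) * L) :=
            mul_le_mul_of_nonneg_left hcardK (Real.exp_pos _).le
        _ = c₀ / 2 * L := by
            have := (Real.exp_pos C₁).ne'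
            field_simp
    have d2 : (H : ℝ) * (Real.exp C₁ * (A : ℝ) ^ (3 / 4 : ℝ)) ≤ c₀ / 2 * L := by
      have e1 : (A : ℝ) ^ (3 / 4 : ℝ) * (A : ℝ) ^ (1 / 4 : ℝ) = A := by
        rw [← Real.rpow_add hA0]
        norm_num
      have e2 : y ^ (3 / 4 : ℝ) * y ^ (1 / 4 : ℝ) = y := by
        rw [← Real.rpow_add hy0]
        norm_num
      have e3 : y ^ (1 / 4 : ℝ) ≤ (A : ℝ) ^ (1 / 4 : ℝ) :=
        Real.rpow_le_rpow hy0.le hA (by norm_num)
      have e4 : 0 < y ^ (1 / 4 : ℝ) := Real.rpow_pos_of_pos hy0 _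
      have e5 : 0 ≤ (A : ℝ) ^ (3 / 4 : ℝ) := Real.rpow_nonneg hA0.le _
      have e6 : (H : ℝ) * (A : ℝ) ^ (3 / 4 : ℝ) * y ^ (1 / 4 : ℝ) ≤
          y ^ (3 / 4 : ℝ) * (Real.log y) ^ 2 * y ^ (1 / 4 : ℝ) := by
        calc (H : ℝ) * (A : ℝ) ^ (3 / 4 : ℝ) * y ^ (1 / 4 : ℝ)
            ≤ (H : ℝ) * (A : ℝ) ^ (3 / 4 : ℝ) * (A : ℝ) ^ (1 / 4 : ℝ) :=
              mul_le_mul_of_nonneg_left e3 (by positivity)
          _ = A * H := by rw [mul_assoc, e1]; ring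
          _ ≤ R₀ := hAHR
          _ ≤ y * (Real.log y) ^ 2 := a7
          _ = (y ^ (3 / 4 : ℝ) * y ^ (1 / 4 : ℝ)) * (Real.log y) ^ 2 := by rw [e2]
          _ = y ^ (3 / 4 : ℝ) * (Real.log y) ^ 2 * y ^ (1 / 4 : ℝ) := by ring
      have e7 : (H : ℝ) * (A : ℝ) ^ (3 / 4 : ℝ) ≤ ε * y :=
        (le_of_mul_le_mul_right e6 e4).trans g3
      calc (H : ℝ) * (Real.exp C₁ * (A : ℝ) ^ (3 / 4 : ℝ))
          = Real.exp C₁ * ((H : ℝ) * (A : ℝ) ^ (3 / 4 : ℝ)) := by ring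
        _ ≤ Real.exp C₁ * (ε * y) := mul_le_mul_of_nonneg_left e7 (Real.exp_pos _).le
        _ = c₀ / 2 * L := by
            rw [hε, hL10]
            have := (Real.exp_pos C₁).ne'
            field_simp
            norm_num
    linarith
  -- the interval
  obtain ⟨P, hP⟩ : ∃ P : ℕ, P = primorial ⌊y⌋₊ := ⟨_, rfl⟩
  have hP0 : 0 < P := by rw [hP]; exact primorial_pos _
  obtain ⟨b0, hb0, hb0'⟩ := exists_crt ⌊y⌋₊ (cl y)
  obtain ⟨M', hM'⟩ : ∃ M' : ℤ, M' = M + ⌊Y⌋ := ⟨_, rfl⟩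
  have hfl1 : Y - 1 < (⌊Y⌋ : ℝ) := Int.sub_one_lt_floor _
  have hfl2 : (⌊Y⌋ : ℝ) ≤ Y := Int.floor_le _
  have hMM : M ≤ M' := by
    rw [hM']
    have : (0:ℤ) ≤ ⌊Y⌋ := Int.floor_nonneg.mpr hY0.le
    linarith
  have hPR : (0:ℝ) < P := by exact_mod_cast hP0
  rw [← hP] at a11
  have hL1000 : 1000 ≤ L := by linarith
  obtain ⟨x, hx1, hx2, hx3, hx4⟩ := hcovL (pairs K F) (fun s => βh s.2)
    (by
      intro s hs
      rw [mem_pairs, hFm] at hs
      obtain ⟨h1, h2, h3, -⟩ := hs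
      obtain ⟨j, hj, hsj⟩ := hKm _ h1
      refine ⟨?_, ?_, h3⟩
      · rw [hsj, pow_one, Int.cast_natCast, abs_of_nonneg (Nat.cast_nonneg j)]
        have h4 : (j : ℝ) ≤ H := by exact_mod_cast hj.le
        have h5 : (H : ℝ) ≤ H ^ 2 := le_self_pow₀ hHR (by norm_num)
        have h6 : (H : ℝ) ^ 2 ≤ (Real.log y) ^ 4 := by
          calc (H : ℝ) ^ 2 ≤ ((Real.log y) ^ 2) ^ 2 := pow_le_pow_left₀ (Nat.cast_nonneg _) hHlog 2
            _ = (Real.log y) ^ 4 := by ring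
        linarith
      · have h4 : |(s.2 : ℝ)| ≤ A := by exact_mod_cast h2
        linarith)
    (by
      intro s hs
      rw [mem_pairs, hFm] at hs
      obtain ⟨h1, h2, h3, -⟩ := hs
      refine ⟨?_, ?_, ?_⟩
      · show 0 ≤ βh s.2
        rw [hβd]
        split_ifs <;> linarith
      · show βh s.2 ≤ C₁ + l / 10
        have h4 : Real.log A ≤ 2 * l := by
          have h5 := Real.log_le_log hA0 (hAR₀.trans a9)
          rw [Real.log_pow, Nat.cast_ofNat, ← hl] at h5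
          exact h5
        have hl0 : 0 ≤ l := by rw [hl]; exact Real.log_nonneg (by linarith)
        rw [hβd]
        split_ifs <;> linarith
      · intro w hw
        show -(βh s.2) ≤ _
        have h4 : |((-s.2 : ℤ) : ℝ)| ≤ (A : ℝ) ^ (11 / 10 : ℝ) := by
          push_cast
          rw [abs_neg]
          have h2 : |(s.2 : ℝ)| ≤ A := by exact_mod_cast h2
          refine h2.trans ?_
          conv_lhs => rw [← Real.rpow_one (A : ℝ)]
          exact Real.rpow_le_rpow_of_exponent_le (by linarith) (by norm_num)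
        obtain ⟨t1, t2⟩ := hTD (-s.2) h3 h4
        have h5 : (A : ℝ) ^ 2 ≤ L ^ (4 * 1 + 5) := by
          calc (A : ℝ) ^ 2 ≤ (L ^ 2) ^ 2 := pow_le_pow_left₀ hA0.le (hAR₀.trans a9) 2
            _ = L ^ 4 := by ring
            _ ≤ L ^ (4 * 1 + 5) := pow_le_pow_right₀ (by linarith) (by omega)
        rw [hβd]
        split_ifs with hin
        · exact t1 _ w h5 hw
        · exact t2 hin _ w h5 hw)
    hcost M M' P b0 hMM hP0
    (by
      intro p hp hpL hpd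
      rw [hP, primorial, Prime.dvd_finsetProd_iff hp.prime] at hpd
      obtain ⟨p', hp', hpp'⟩ := hpd
      rw [Finset.mem_filter, Finset.mem_range] at hp'
      have h4 : p = p' := (Nat.prime_dvd_prime_iff_eq hp hp'.2).1 hpp'
      have h5 : (p : ℝ) ≤ y := by
        have : p ≤ ⌊y⌋₊ := by omega
        calc (p : ℝ) ≤ (⌊y⌋₊ : ℝ) := by exact_mod_cast this
          _ ≤ y := Nat.floor_le a4
      have h6 : L ≤ L ^ (4 * 1 + 5) := le_self_pow₀ (by linarith) (by omega)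
      linarith)
    (by
      rw [le_div_iff₀ hPR, hM']
      push_cast
      have h1 : Real.exp (1 / 2 * L) = Y ^ (1 / 2 : ℝ) := by
        rw [hYexp, ← Real.exp_mul]
        congr 1
        ring
      rw [h1]
      have h2 : Y ^ (1 / 2 : ℝ) * Y ^ (1 / 2 : ℝ) = Y := by
        rw [← Real.rpow_add hY0]; norm_num
      have h3 : 0 < Y ^ (1 / 2 : ℝ) := Real.rpow_pos_of_pos hY0 _
      have h4 : Y ^ (1 / 2 : ℝ) * (4 * (P : ℝ)) ≤ Y := by
        calc Y ^ (1 / 2 : ℝ) * (4 * (P : ℝ)) ≤ Y ^ (1 / 2 : ℝ) * Y ^ (1 / 2 : ℝ) :=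
              mul_le_mul_of_nonneg_left a11 h3.le
          _ = Y := h2
      have h5 : 2 ≤ Y := by
        have := Real.add_one_le_exp L
        rw [← hYexp] at this
        linarith
      linarith)
  have hYr : Y ^ (1 / 10 : ℝ) = Real.exp (L / 10) := by
    rw [hYexp, ← Real.exp_mul]
    congr 1
    ring
  refine ⟨x, hx1, ?_, ?_⟩
  · have : (x : ℝ) ≤ M' := by exact_mod_cast hx2
    rw [hM'] at this
    push_cast at this
    linarith
  · intro k hk a ha hsq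
    rw [hYr]
    by_cases hs : ((k : ℤ), a) ∈ pairs K F
    · obtain ⟨p, p1, p2, p3, p4⟩ := hx4 _ hs
      exact ⟨p, p1, p3, p4⟩
    · rw [mem_pairs, hFm] at hs
      have hkK : (k : ℤ) ∈ K := by
        rw [hK, Finset.mem_image]
        exact ⟨k, Finset.mem_range.2 hk, rfl⟩
      have h1 : ∃ p : ℕ, p.Prime ∧ (p : ℝ) ≤ y ∧ ((p : ℤ) ∣ ((cl y p : ℤ) + k) ^ 2 + a) := by
        by_contra hcon
        push Not at hcon
        exact hs ⟨hkK, ha, hsq, hcon⟩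
      obtain ⟨p, hp1, hp2, hp3⟩ := h1
      have hpy : p ≤ ⌊y⌋₊ := Nat.le_floor hp2
      have hpP : (p : ℤ) ∣ (P : ℤ) := by
        rw [hP, primorial]
        have : p ∈ (Finset.range (⌊y⌋₊ + 1)).filter Nat.Prime := by
          rw [Finset.mem_filter, Finset.mem_range]
          exact ⟨by omega, hp1⟩
        exact_mod_cast Finset.dvd_prod_of_mem _ this
      have h1 : (p : ℤ) ∣ x - b0 := hpP.trans hx3
      have h2 : (p : ℤ) ∣ (b0 : ℤ) - (cl y p : ℤ) := by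
        have := hb0' p hp1 hpy
        exact (Nat.modEq_iff_dvd.mp this.symm)
      have h3 : (p : ℤ) ∣ x - (cl y p : ℤ) := by
        have := dvd_add h1 h2
        have e : x - b0 + ((b0 : ℤ) - (cl y p : ℤ)) = x - (cl y p : ℤ) := by ring
        rwa [e] at this
      refine ⟨p, hp1, ?_, ?_⟩
      · have h5 := Real.add_one_le_exp (L / 10)
        have h6 : L / 10 = y := by rw [hy]
        linarith
      · have h4 := dvd_add (Dvd.dvd.mul_right h3 (x + 2 * k + (cl y p : ℤ))) hp3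
        have e : (x - (cl y p : ℤ)) * (x + 2 * k + (cl y p : ℤ)) + (((cl y p : ℤ) + k) ^ 2 + a) =
            (x + k) ^ 2 + a := by ring
        rwa [e] at h4

end Pool.Agent.N201.SQ
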