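import Pool.Agent.Cov.SieveLin
import Pool.Agent.Helper256.KM.Mertens

set_option autoImplicit false
set_option exponentiation.threshold 600

/-! # A mixed upper bound sieve: primes `q` with `m q + s` free of small primes -/

namespace Pool.Agent.N201.SQ

open Finset

/-- the product over a union of two sets -/
lemma prod_union_ge (A B : Finset ℕ) (f : ℕ → ℝ) (h0 : ∀ p ∈ A ∪ B, 0 ≤ f p)
    (h1 : ∀ p ∈ A ∪ B, f p ≤ 1) : (∏ p ∈ A, f p) * ∏ p ∈ B, f p ≤ ∏ p ∈ A ∪ B, f p := by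
  classical
  rw [← Finset.prod_union_inter]
  have e1 : ∏ p ∈ A ∩ B, f p ≤ 1 := Finset.prod_le_one
    (fun p hp => h0 p (Finset.mem_union_left _ (Finset.mem_inter.1 hp).1))
    (fun p hp => h1 p (Finset.mem_union_left _ (Finset.mem_inter.1 hp).1))
  have e2 : 0 ≤ ∏ p ∈ A ∪ B, f p := Finset.prod_nonneg h0
  calc (∏ p ∈ A ∪ B, f p) * ∏ p ∈ A ∩ B, f p ≤ (∏ p ∈ A ∪ B, f p) * 1 :=
        mul_le_mul_of_nonneg_left e1 e2
    _ = _ := mul_one _

lemma fp (p : ℕ) (hp : p.Prime) : (1:ℝ) / 2 ≤ 1 - 1 / (p : ℝ) ∧ 1 - 1 / (p : ℝ) ≤ 1 := by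
  have h2 : (2 : ℝ) ≤ p := by exact_mod_cast hp.two_le
  have h3 : 1 / (p : ℝ) ≤ 1 / 2 := one_div_le_one_div_of_le (by norm_num) h2
  have h4 : 0 < 1 / (p : ℝ) := by positivity
  constructor <;> linarith

lemma prod_pf (m : ℕ) (hm : 0 < m) :
    ∏ p ∈ m.primeFactors, (1 - 1 / (p : ℝ)) = (Nat.totient m : ℝ) / m := by
  have h := Nat.totient_eq_mul_prod_factors m
  have h1 : ((Nat.totient m : ℚ) : ℝ) = ((m * ∏ p ∈ m.primeFactors, (1 - (p : ℚ)⁻¹) : ℚ) : ℝ) := by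
    rw [h]
  push_cast at h1
  have hm0 : (m : ℝ) ≠ 0 := by exact_mod_cast hm.ne'
  rw [h1, mul_div_cancel_left₀ _ hm0]
  refine Finset.prod_congr rfl fun p _ => ?_
  rw [one_div]

theorem prod_Q : ∃ C : ℝ, 0 < C ∧ ∀ (m t w : ℕ), 0 < m → 0 < t → 2 ≤ w →
    ∏ r ∈ (Finset.Icc 1 w).filter (fun r => r.Prime ∧ 3 ≤ r ∧ ¬ r ∣ m ∧ ¬ r ∣ t),
      (1 - 1 / (r : ℝ)) ≤ C * (((m : ℝ) / m.totient) * ((t : ℝ) / t.totient)) / Real.log w := by
  classical
  obtain ⟨C₀, hC₀⟩ := Pool.Agent.Helper256.KM.mertens_inv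
  have hC00 : 0 ≤ C₀ := (abs_nonneg _).trans (hC₀ 3 le_rfl)
  refine ⟨2 * Real.exp C₀, by positivity, fun m t w hm ht hw => ?_⟩
  obtain ⟨Q, hQ⟩ : ∃ Q, Q = (Finset.Icc 1 w).filter
    (fun r => r.Prime ∧ 3 ≤ r ∧ ¬ r ∣ m ∧ ¬ r ∣ t) := ⟨_, rfl⟩
  obtain ⟨P, hP⟩ : ∃ P, P = (Finset.Icc 1 w).filter Nat.Prime := ⟨_, rfl⟩
  rw [← hQ]
  have hwR : (2 : ℝ) ≤ w := by exact_mod_cast hw
  have hlw : 0 < Real.log w := Real.log_pos (by linarith)
  have hmt : (0 : ℝ) < m.totient := by exact_mod_cast Nat.totient_pos.2 hm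
  have htt : (0 : ℝ) < t.totient := by exact_mod_cast Nat.totient_pos.2 ht
  have hmR : (0 : ℝ) < m := by exact_mod_cast hm
  have htR : (0 : ℝ) < t := by exact_mod_cast ht
  have hPp : ∀ p ∈ P, p.Prime := fun p hp => by
    rw [hP, Finset.mem_filter] at hp; exact hp.2
  have hQP : Q ⊆ P := by
    intro p hp
    rw [hQ, Finset.mem_filter] at hp
    rw [hP, Finset.mem_filter]
    exact ⟨hp.1, hp.2.1⟩
  -- the primes outside `Q`
  obtain ⟨U, hU⟩ : ∃ U : Finset ℕ, U = {2} ∪ (m.primeFactors ∪ t.primeFactors) := ⟨_, rfl⟩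
  have hUp : ∀ p ∈ U, p.Prime := by
    intro p hp
    rw [hU, Finset.mem_union, Finset.mem_union, Finset.mem_singleton] at hp
    rcases hp with rfl | hp | hp
    · exact Nat.prime_two
    · exact Nat.prime_of_mem_primeFactors hp
    · exact Nat.prime_of_mem_primeFactors hp
  have hsub : P \ Q ⊆ U := by
    intro p hp
    rw [Finset.mem_sdiff, hP, hQ, Finset.mem_filter, Finset.mem_filter] at hp
    obtain ⟨⟨h1, h2⟩, h3⟩ := hp
    rw [hU, Finset.mem_union, Finset.mem_union, Finset.mem_singleton]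
    by_contra hcon
    push Not at hcon
    obtain ⟨h4, h5, h6⟩ := hcon
    apply h3
    refine ⟨h1, h2, ?_, ?_, ?_⟩
    · have := h2.two_le
      omega
    · exact fun h => h5 (Nat.mem_primeFactors.2 ⟨h2, h, hm.ne'⟩)
    · exact fun h => h6 (Nat.mem_primeFactors.2 ⟨h2, h, ht.ne'⟩)
  have hfU : (1 / 2) * (((m.totient : ℝ) / m) * ((t.totient : ℝ) / t)) ≤
      ∏ p ∈ U, (1 - 1 / (p : ℝ)) := by
    have h1 := prod_union_ge {2} (m.primeFactors ∪ t.primeFactors) (fun p => 1 - 1 / (p : ℝ))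
      (fun p hp => by rw [← hU] at hp; linarith [(fp p (hUp p hp)).1])
      (fun p hp => by rw [← hU] at hp; exact (fp p (hUp p hp)).2)
    have h2 := prod_union_ge m.primeFactors t.primeFactors (fun p => 1 - 1 / (p : ℝ))
      (fun p hp => by
        have : p ∈ U := by rw [hU]; exact Finset.mem_union_right _ hp
        linarith [(fp p (hUp p this)).1])
      (fun p hp => by
        have : p ∈ U := by rw [hU]; exact Finset.mem_union_right _ hp
        exact (fp p (hUp p this)).2)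
    rw [← hU, Finset.prod_singleton] at h1
    rw [prod_pf m hm, prod_pf t ht] at h2
    have h3 : (1:ℝ) - 1 / ((2 : ℕ) : ℝ) = 1 / 2 := by norm_num
    rw [h3] at h1
    linarith
  have hPQ : ∏ p ∈ U, (1 - 1 / (p : ℝ)) ≤ ∏ p ∈ P \ Q, (1 - 1 / (p : ℝ)) := by
    rw [← Finset.prod_sdiff hsub]
    have e1 : ∏ p ∈ U \ (P \ Q), (1 - 1 / (p : ℝ)) ≤ 1 := Finset.prod_le_one
      (fun p hp => by linarith [(fp p (hUp p (Finset.mem_sdiff.1 hp).1)).1])
      (fun p hp => (fp p (hUp p (Finset.mem_sdiff.1 hp).1)).2)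
    have e2 : 0 ≤ ∏ p ∈ P \ Q, (1 - 1 / (p : ℝ)) := Finset.prod_nonneg fun p hp => by
      linarith [(fp p (hUp p (hsub hp))).1]
    calc _ ≤ 1 * ∏ p ∈ P \ Q, (1 - 1 / (p : ℝ)) := mul_le_mul_of_nonneg_right e1 e2
      _ = _ := one_mul _
  -- Mertens
  have hMer : ∏ p ∈ P, (1 - 1 / (p : ℝ)) ≤ Real.exp C₀ / Real.log w := by
    rcases Nat.lt_or_ge w 3 with h3 | h3
    · have e1 : ∏ p ∈ P, (1 - 1 / (p : ℝ)) ≤ 1 := Finset.prod_le_one
        (fun p hp => by linarith [(fp p (hPp p hp)).1]) (fun p hp => (fp p (hPp p hp)).2)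
      have e2 : Real.log w ≤ 1 := by
        have h5 : (w : ℝ) ≤ 2 := by exact_mod_cast (by omega : w ≤ 2)
        have h6 := Real.log_le_log (by linarith) h5
        have := Real.log_two_lt_d9
        linarith
      have e3 : 1 ≤ Real.exp C₀ / Real.log w := by
        rw [le_div_iff₀ hlw]
        have := Real.add_one_le_exp C₀
        linarith
      linarith
    · have e1 : ∏ p ∈ P, (1 - 1 / (p : ℝ)) ≤ Real.exp (-(∑ p ∈ P, 1 / (p : ℝ))) := by
        rw [← Finset.sum_neg_distrib, Real.exp_sum]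
        apply Finset.prod_le_prod
        · intro p hp
          linarith [(fp p (hPp p hp)).1]
        · intro p _
          have := Real.add_one_le_exp (-(1 / (p : ℝ)))
          linarith
      refine e1.trans ?_
      have e2 := (abs_le.1 (hC₀ w h3)).1
      rw [← hP] at e2
      have h3R : (3 : ℝ) ≤ w := by exact_mod_cast h3
      have e3 : Real.exp C₀ / Real.log w = Real.exp (C₀ - Real.log (Real.log w)) := by
        rw [Real.exp_sub, Real.exp_log hlw]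
      rw [e3]
      apply Real.exp_le_exp.mpr
      linarith
  have hprod : (∏ p ∈ P \ Q, (1 - 1 / (p : ℝ))) * ∏ p ∈ Q, (1 - 1 / (p : ℝ)) =
      ∏ p ∈ P, (1 - 1 / (p : ℝ)) := Finset.prod_sdiff hQP
  have hQ0 : 0 ≤ ∏ p ∈ Q, (1 - 1 / (p : ℝ)) := Finset.prod_nonneg fun p hp => by
    linarith [(fp p (hPp p (hQP hp))).1]
  have hfin : (1 / 2) * (((m.totient : ℝ) / m) * ((t.totient : ℝ) / t)) *
      ∏ p ∈ Q, (1 - 1 / (p : ℝ)) ≤ Real.exp C₀ / Real.log w := by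
    refine le_trans ?_ hMer
    rw [← hprod]
    exact mul_le_mul_of_nonneg_right (hfU.trans hPQ) hQ0
  obtain ⟨u, hu⟩ : ∃ u, u = ∏ p ∈ Q, (1 - 1 / (p : ℝ)) := ⟨_, rfl⟩
  rw [← hu] at hfin ⊢
  have e5 : u = 2 * (((m : ℝ) / m.totient) * ((t : ℝ) / t.totient)) *
      ((1 / 2) * (((m.totient : ℝ) / m) * ((t.totient : ℝ) / t)) * u) := by
    field_simp
  rw [e5]
  calc 2 * (((m : ℝ) / m.totient) * ((t : ℝ) / t.totient)) *
      ((1 / 2) * (((m.totient : ℝ) / m) * ((t.totient : ℝ) / t)) * u)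
      ≤ 2 * (((m : ℝ) / m.totient) * ((t : ℝ) / t.totient)) * (Real.exp C₀ / Real.log w) :=
        mul_le_mul_of_nonneg_left hfin (by positivity)
    _ = _ := by ring

/-- the mixed sieve -/
theorem mix : ∃ C : ℝ, 0 < C ∧ ∃ N₀ : ℕ, ∀ (m t N w : ℕ) (s : ℤ), s.natAbs = t → 0 < t → 0 < m →
    2 ≤ w → w ^ 512 ≤ N → N₀ ≤ N → ∀ S : Finset ℕ, S ⊆ Finset.Icc 1 N →
    (∀ q ∈ S, q.Prime ∧ ∀ p : ℕ, p.Prime → p ≤ w → ¬ ((p : ℤ) ∣ (m : ℤ) * (q : ℤ) + s)) →
    (S.card : ℝ) ≤ C * (((m : ℝ) / m.totient) * ((t : ℝ) / t.totient)) * N /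
      (Real.log N * Real.log w) := by
  classical
  obtain ⟨C, hC, Y₀, h⟩ := Pool.Agent.Cov.sieve_linear
  obtain ⟨C', hC', hpq⟩ := prod_Q
  refine ⟨C * C', by positivity, Y₀, ?_⟩
  intro m t N w s hst ht hm hw hwN hN S hS hSq
  have hmod : ∀ r : ℕ, r.Prime → ((((-s) % (r : ℤ)).toNat : ℕ) : ℤ) = (-s) % (r : ℤ) := by
    intro r hr
    exact Int.toNat_of_nonneg (Int.emod_nonneg _ (by exact_mod_cast hr.ne_zero))
  have h1 := h 1 0 m N (fun r => ((-s) % (r : ℤ)).toNat)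
    ((Finset.Icc 1 w).filter (fun r => r.Prime ∧ 3 ≤ r ∧ ¬ r ∣ m ∧ ¬ r ∣ t)) hN one_ne_zero
    (by
      intro r hr
      rw [Finset.mem_filter, Finset.mem_Icc] at hr
      obtain ⟨⟨a1, a2⟩, a3, a4, a5, a6⟩ := hr
      refine ⟨a3, a4, ?_, a5, ?_, ?_⟩
      · intro h2
        have := Nat.dvd_one.1 h2
        omega
      · intro h2
        apply a6
        have h3 : (r : ℤ) ∣ (-s) % (r : ℤ) := by
          rw [← hmod r a3]
          exact_mod_cast h2
        have h4 : (r : ℤ) ∣ -s := by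
          have h5 := dvd_add (Int.dvd_self_sub_emod : (r : ℤ) ∣ -s - (-s) % (r : ℤ)) h3
          have e : -s - (-s) % (r : ℤ) + (-s) % (r : ℤ) = -s := by ring
          rwa [e] at h5
        rw [← hst]
        exact Int.natCast_dvd.1 ((dvd_neg).1 h4)
      · exact (Nat.pow_le_pow_left a2 512).trans hwN)
    S hS
    (by
      intro q hq
      obtain ⟨b1, b2⟩ := hSq q hq
      refine ⟨by simpa using b1, ?_⟩
      intro r hr hcon
      rw [Finset.mem_filter, Finset.mem_Icc] at hr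
      obtain ⟨⟨a1, a2⟩, a3, a4, a5, a6⟩ := hr
      apply b2 r a3 a2
      have h3 := (Nat.modEq_iff_dvd.1 hcon)
      rw [hmod r a3] at h3
      push_cast at h3
      have h4 : (r : ℤ) ∣ -s - (-s) % (r : ℤ) := Int.dvd_self_sub_emod
      have h5 := dvd_sub h3 h4
      have e : (-s) % (r : ℤ) - (m : ℤ) * (1 * (q : ℤ) + 0) - (-s - (-s) % (r : ℤ)) =
        2 * ((-s) % (r : ℤ)) - m * q + s := by ring
      have h6 : (r : ℤ) ∣ (-s) % (r : ℤ) - (m : ℤ) * (1 * (q : ℤ) + 0) + (-s - (-s) % (r : ℤ)) :=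
        dvd_add h3 h4
      have e2 : (-s) % (r : ℤ) - (m : ℤ) * (1 * (q : ℤ) + 0) + (-s - (-s) % (r : ℤ)) =
        -((m : ℤ) * (q : ℤ) + s) := by ring
      rw [e2] at h6
      exact (dvd_neg).1 h6)
  have h2 := hpq m t w hm ht hw
  refine h1.trans ?_
  rw [Nat.totient_one]
  have hN0 : 0 ≤ (N : ℝ) / Real.log N := by
    apply div_nonneg (Nat.cast_nonneg _) (Real.log_natCast_nonneg _)
  calc C * (((1 : ℕ) : ℝ) / ((1 : ℕ) : ℝ)) * ((N : ℝ) / Real.log N) * _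
      ≤ C * (((1 : ℕ) : ℝ) / ((1 : ℕ) : ℝ)) * ((N : ℝ) / Real.log N) *
        (C' * (((m : ℝ) / m.totient) * ((t : ℝ) / t.totient)) / Real.log w) := by
        apply mul_le_mul_of_nonneg_left h2
        positivity
    _ = _ := by
        rw [Nat.cast_one, div_one, mul_one]
        ring

end Pool.Agent.N201.SQ
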